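import Pool.Agent.Helper80.MX.Rich
import Pool.Agent.Helper31.EC.RobS

/-! FLAG SPEED (39c (4.2)), entropy part: if on an event of probability `P` the first `u` digits of the direction are
a function of a variable `V` and of the point, then `g u P` is at most the leak of `V` at the point. -/

set_option autoImplicit false

namespace Pool.Agent.Helper51.LP

open Finset Filter Topology Pool.Agent.Helper69.RK Pool.Agent.Helper31.EC Pool.Agent.Helper31.EC.Sp
open Pool.Agent.Helper40.EL Pool.Agent.Helper80.MX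

noncomputable section

variable {S : Sp}

/-- informations on events of positive probability -/
theorem I_restL_le (E : ∀ k, (S.F k).Ω → Prop) (hE : 0 < ul (S.pr E)) (x y z : S.L) :
    ul (S.pr E) * I (restL E hE x) (restL E hE y) (restL E hE z) ≤ I x y z := by
  rcases typ_or E with ht | hE'
  · have h1 : ∀ a b : S.L, h (restL E hE a) (restL E hE b) = h a b := fun a b => h_restL_typ E ht a b
    rw [I_eq, ← restL_sup, h1, h1, ← I_eq, ul_pr_typ E ht, one_mul]
  · have h1 := I_split E hE hE' x y z
    have h3 := mul_nonneg (sub_nonneg.mpr (ul_pr_le_one E)) (I_nonneg (restL (fun k ω => ¬ E k ω) hE' x)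
      (restL (fun k ω => ¬ E k ω) hE' y) (restL (fun k ω => ¬ E k ω) hE' z))
    linarith

/-- conditional entropies on events of positive probability -/
theorem h_restL_le (E : ∀ k, (S.F k).Ω → Prop) (hE : 0 < ul (S.pr E)) (x z : S.L) :
    ul (S.pr E) * h (restL E hE x) (restL E hE z) ≤ h x z := by
  rcases typ_or E with ht | hE'
  · rw [h_restL_typ E ht, ul_pr_typ E ht, one_mul]
  · have h1 := h_split E hE hE' x z
    have h3 := mul_nonneg (sub_nonneg.mpr (ul_pr_le_one E)) (h_nonneg (restL (fun k ω => ¬ E k ω) hE' x)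
      (restL (fun k ω => ¬ E k ω) hE' z))
    linarith

/-- RICHNESS AGAINST LEAKS -/
theorem rich_leak {m : ℕ} {s : Sys S m} {g : ℝ} (hr : Rich s g) {T : Sp} (p : Pj T S)
    (E : ∀ k, (T.F k).Ω → Prop) (hE : 0 < ul (T.pr E)) {u : ℝ} (hu0 : 0 ≤ u) (hu1 : u ≤ 1) (V : T.L)
    (hV : restL E hE (p.map (s.x.dg u)) ≤ restL E hE (V ⊔ p.map (lB s))) :
    ul (T.pr E) * (g * u) ≤ I V (p.map (s.x.dg u)) (p.map (lB s)) := by
  have h1 := hr.restL_ge p E hE hu0 hu1
  have h2 := I_restL_le E hE V (p.map (s.x.dg u)) (p.map (lB s))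
  have h3 : I (restL E hE V) (restL E hE (p.map (s.x.dg u))) (restL E hE (p.map (lB s))) =
      h (restL E hE (p.map (s.x.dg u))) (restL E hE (p.map (lB s))) := by
    rw [I_eq', ← restL_sup, h_zero hV, sub_zero]
  rw [h3] at h2
  exact (mul_le_mul_of_nonneg_left h1 hE.le).trans h2

end

end Pool.Agent.Helper51.LP
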