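import Pool.Agent.Helper51.LP.FlE

/-! RICHNESS AGAINST LEAKS, metric form for labels of unbounded entropy: if on an event of an extension the first
digits of the direction are known to a partition and the point then the probability of the event times `g ρ` is at
most the leak of the partition. -/

set_option autoImplicit false

namespace Pool.Agent.Helper51.LP

open Finset Filter Topology Pool.Agent.Helper69.RK Pool.Agent.Helper31.EC Pool.Agent.Helper40.EL
open Pool.Agent.Helper3.LF Pool.Agent.Helper80.MX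

noncomputable section

variable {S : Sp} {m : ℕ} {s : Sys S m}

theorem rich_ev {g : ℝ} (hg : Rich s g) {T : Sp} (p : Pj T S) (E : ∀ k, (T.F k).Ω → Prop) {ρ : ℝ}
    (hρ0 : 0 ≤ ρ) (hρ1 : ρ ≤ 1) (V : ∀ k, Setoid (T.F k).Ω) (G : ∀ k, (T.F k).Ω → Prop)
    (hG : 0 < ul (T.pr E) → Sp.Typ (S := T.rest E) G)
    (K : ℕ → ℝ) (hK : T.Sub K)
    (hx : 0 < ul (T.pr E) → ∀ᶠ k in UF, ∀ w w', (T.F k).μ w ≠ 0 → (T.F k).μ w' ≠ 0 → E k w → E k w' → G k w →
      G k w' → V k w w' →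
      (T.F k).Z w w' → s.P.cellv 1 k (p.π k w) = s.P.cellv 1 k (p.π k w') →
      s.t.cellv 1 k (p.π k w) = s.t.cellv 1 k (p.π k w') →
      ∀ i, |s.x.v k (p.π k w) i - s.x.v k (p.π k w') i| ≤ K k * T.dl ρ k) {lk : ℝ} (hl0 : 0 ≤ lk)
    (hlk : ∀ e : ℝ, 0 < e → ∀ᶠ k in UF, I (fc (V k) : FL (T.F k)) (fc (Setoid.comap (p.π k)
      (Setoid.ker (s.x.cellv ρ k)))) (fc (Setoid.comap (p.π k) (Setoid.ker (s.P.cellv 1 k) ⊓
        Setoid.ker (s.t.cellv 1 k)))) ≤ (lk + e) * (T.F k).n) :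
    ul (T.pr E) * (g * ρ) ≤ lk := by
  have hp0 : 0 ≤ ul (T.pr E) := const_le_ul (Sp.UB_pr _) (Eventually.of_forall fun k => Sp.pr_nonneg _ k)
  rcases hp0.eq_or_lt with hz | hpos
  · rw [← hz, zero_mul]
    exact hl0
  apply le_of_forall_pos_le_add
  intro e he
  obtain ⟨f, hf, hf'⟩ := Sp.ul_rt_cell_le (S := T.rest E) (Sp.VV.rest E (p.vv s.x)) ρ 0 le_rfl
    (fun k => V k ⊓ Setoid.comap (p.π k) (Setoid.ker (s.P.cellv 1 k) ⊓ Setoid.ker (s.t.cellv 1 k)))
    G (hG hpos) K hK (by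
      have hne : ∀ᶠ k in UF, T.pr E k ≠ 0 := by
        filter_upwards [eventually_gt_of_lt_ul (Sp.UB_pr _) hpos] with k hk using hk.ne'
      filter_upwards [hne, hx hpos] with k n1 n2 w w' hw hw' e1 e2 ge i
      obtain ⟨a1, a2⟩ := (T.F k).rest_supp (E k) w hw
      obtain ⟨a1', a2'⟩ := (T.F k).rest_supp (E k) w' hw'
      obtain ⟨⟨g1, g2⟩, g3⟩ := ge
      have h3 := n2 w w' a1 a1' (a2 n1) (a2' n1) e1 e2 g1 g3 g2.1 g2.2 i
      rw [sub_zero]
      exact h3)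
  have hrich := hg.restL_ge p E hpos hρ0 hρ1
  have hrich2 : g * ρ ≤ ul ((T.rest E).rt (fun k => Setoid.comap (p.π k) (Setoid.ker (s.x.cellv ρ k)))
      (fun k => Setoid.comap (p.π k) (Setoid.ker (s.P.cellv 1 k) ⊓ Setoid.ker (s.t.cellv 1 k)))) := by
    rw [← s.cl_Ix, ← cl_B, Pj.map_cl, Pj.map_cl, Sp.restL_cl, Sp.restL_cl, Sp.h_cl] at hrich
    exact hrich
  have hUBa : UB ((T.rest E).rt (fun k => Setoid.comap (p.π k) (Setoid.ker (s.x.cellv ρ k)))
      (fun k => Setoid.comap (p.π k) (Setoid.ker (s.P.cellv 1 k) ⊓ Setoid.ker (s.t.cellv 1 k)))) :=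
    Sp.UB_rt (Sp.restI E (p.mapI (s.Ix ρ))) _
  have tP := ul_tendsto (Sp.UB_pr (S := T) E)
  have ta := ul_tendsto hUBa
  rw [mul_zero] at hf
  have tn : Tendsto (fun k => 1 / (T.F k).n) UF (𝓝 0) := T.div_n_tendsto 1
  have tl := tP.mul (ta.sub hf)
  rw [sub_zero] at tl
  have tr : Tendsto (fun k => (lk + e) + 1 / (T.F k).n) UF (𝓝 ((lk + e) + 0)) := tn.const_add _
  have hfin := le_of_tendsto_of_tendsto tl tr (by
    filter_upwards [hf', hlk e he] with k k1 k2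
    have hn := (T.F k).pos
    have j1 := fin_I_rest (T.F k) (E k) (Setoid.comap (p.π k) (Setoid.ker (s.x.cellv ρ k)))
      (Setoid.comap (p.π k) (Setoid.ker (s.P.cellv 1 k) ⊓ Setoid.ker (s.t.cellv 1 k)) ⊓ (T.F k).Z) (V k)
    have j2 : (T.F k).e (Setoid.comap (p.π k) (Setoid.ker (s.x.cellv ρ k)))
        (Setoid.comap (p.π k) (Setoid.ker (s.P.cellv 1 k) ⊓ Setoid.ker (s.t.cellv 1 k)) ⊓ (T.F k).Z) -
        (T.F k).e (Setoid.comap (p.π k) (Setoid.ker (s.x.cellv ρ k)))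
        (V k ⊓ (Setoid.comap (p.π k) (Setoid.ker (s.P.cellv 1 k) ⊓ Setoid.ker (s.t.cellv 1 k)) ⊓ (T.F k).Z)) =
        I (fc (V k) : FL (T.F k)) (fc (Setoid.comap (p.π k) (Setoid.ker (s.x.cellv ρ k))))
          (fc (Setoid.comap (p.π k) (Setoid.ker (s.P.cellv 1 k) ⊓ Setoid.ker (s.t.cellv 1 k)))) := by
      rw [I_eq']
      congr 1
      · exact (h_fc _ _).symm
      · rw [← inf_assoc]
        exact (h_fc _ _).symm
    have j3 : (T.rest E).rt (fun k => Setoid.ker ((Sp.VV.rest E (p.vv s.x)).cellv ρ k))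
        (fun k => V k ⊓ Setoid.comap (p.π k) (Setoid.ker (s.P.cellv 1 k) ⊓ Setoid.ker (s.t.cellv 1 k))) k =
        ((T.F k).rest (E k)).e (Setoid.comap (p.π k) (Setoid.ker (s.x.cellv ρ k)))
        (V k ⊓ (Setoid.comap (p.π k) (Setoid.ker (s.P.cellv 1 k) ⊓ Setoid.ker (s.t.cellv 1 k)) ⊓ (T.F k).Z)) /
          (T.F k).n := by
      have i2 : (Sp.VV.rest E (p.vv s.x)).cellv ρ k = fun w => s.x.cellv ρ k (p.π k w) := by
        funext w
        unfold Sp.VV.cellv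
        have : (T.rest E).dl ρ k = S.dl ρ k := by
          unfold Sp.dl
          rw [show ((T.rest E).F k).n = (T.F k).n from rfl, p.hn k]
        rw [this]
        rfl
      unfold Sp.rt
      rw [show ((T.rest E).F k).n = (T.F k).n from rfl]
      beta_reduce
      rw [i2]
      exact congrArg (fun U : Setoid (T.F k).Ω => ((T.F k).rest (E k)).e
        (Setoid.comap (p.π k) (Setoid.ker (s.x.cellv ρ k))) U / (T.F k).n)
        (inf_assoc (V k) (Setoid.comap (p.π k) (Setoid.ker (s.P.cellv 1 k) ⊓ Setoid.ker (s.t.cellv 1 k))) (T.F k).Z)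
    rw [j3] at k1
    have j5 : T.pr E k = (T.F k).pb (E k) := rfl
    rw [j5]
    have j6 : 0 ≤ (T.F k).pb (E k) := FSp.pb_nonneg _ _
    have l1 := j1.trans (add_le_add_left (j2.le.trans k2) 1)
    have l2 := div_le_div_of_nonneg_right l1 hn.le
    have l3 : (lk + e) * (T.F k).n / (T.F k).n = lk + e := mul_div_cancel_right₀ _ hn.ne'
    rw [add_div, l3] at l2
    refine le_trans ?_ l2
    rw [mul_div_assoc]
    apply mul_le_mul_of_nonneg_left _ j6
    rw [sub_div]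
    exact sub_le_sub_left k1 _)
  refine (mul_le_mul_of_nonneg_left hrich2 hp0).trans ?_
  rw [add_zero] at hfin
  exact hfin

end

end Pool.Agent.Helper51.LP
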