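import Pool.Agent.Helper31.EC.Rest

/-! FLAG SPEED (39c (4.2)): counting a point coordinate by coordinate. -/

set_option autoImplicit false

namespace Pool.Agent.Helper51.LP

open Finset Filter Topology Pool.Agent.Helper69.RK Pool.Agent.Helper31.EC

noncomputable section

open Sp

variable {S : Sp} {m : ℕ}

/-- a coordinate of a vector variable -/
def co (P : S.VV m) (i : Fin m) : S.VV 1 where
  v := fun k ω _ => P.v k ω i
  bd := by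
    obtain ⟨K, hK, h⟩ := P.bd
    exact ⟨K, hK, h.mono fun k a ω hω _ => a ω hω i⟩

theorem co_v (P : S.VV m) (i : Fin m) (k : ℕ) (ω : (S.F k).Ω) (j : Fin 1) : (co P i).v k ω j = P.v k ω i := rfl

theorem ker_co (P : S.VV m) (r : ℝ) (k : ℕ) (ω ω' : (S.F k).Ω)
    (h : ∀ i, Setoid.ker ((co P i).cellv r k) ω ω') : Setoid.ker (P.cellv r k) ω ω' := by
  show P.cellv r k ω = P.cellv r k ω'
  funext i
  exact congrFun (h i : (co P i).cellv r k ω = (co P i).cellv r k ω') 0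

/-- COUNTING a point coordinate by coordinate -/
theorem cnt3 (P : S.VV m) (iy iR iz : Fin m) (hcov : ∀ i, i = iy ∨ i = iR ∨ i = iz)
    (B : ∀ k, Setoid (S.F k).Ω) (cy cR cz : ℝ) (hcy : 0 ≤ cy) (hcR : 0 ≤ cR) (hcz : 0 ≤ cz)
    (E : ∀ k, (S.F k).Ω → Prop) (hE : Typ E) (K : ℕ → ℝ) (hK : S.Sub K)
    (hh : ∀ᶠ k in UF, ∀ ω ω', (S.F k).μ ω ≠ 0 → (S.F k).μ ω' ≠ 0 → E k ω → E k ω' → (B k ⊓ (S.F k).Z) ω ω' →
      |P.v k ω iy - P.v k ω' iy| ≤ K k * S.dl (1 - cy) k ∧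
      (|P.v k ω iy - P.v k ω' iy| ≤ S.dl 1 k → |P.v k ω iR - P.v k ω' iR| ≤ K k * S.dl (1 - cR) k) ∧
      (|P.v k ω iy - P.v k ω' iy| ≤ S.dl 1 k → |P.v k ω iR - P.v k ω' iR| ≤ S.dl 1 k →
        |P.v k ω iz - P.v k ω' iz| ≤ K k * S.dl (1 - cz) k)) :
    ∃ f : ℕ → ℝ, Tendsto f UF (𝓝 (cy + cR + cz)) ∧
      ∀ᶠ k in UF, S.rt (fun k => Setoid.ker (P.cellv 1 k)) B k ≤ f k := by
  obtain ⟨f1, t1, b1⟩ := ul_rt_cell_le (co P iy) 1 cy hcy B E hE K hK (by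
    filter_upwards [hh] with k hk ω ω' a a' e e' g i
    exact (hk ω ω' a a' e e' g).1)
  obtain ⟨f2, t2, b2⟩ := ul_rt_cell_le (co P iR) 1 cR hcR (fun k => Setoid.ker ((co P iy).cellv 1 k) ⊓ B k)
    E hE K hK (by
    filter_upwards [hh] with k hk ω ω' a a' e e' g i
    exact (hk ω ω' a a' e e' ⟨g.1.2, g.2⟩).2.1 ((co P iy).cellv_close 1 k ω ω' g.1.1 0))
  obtain ⟨f3, t3, b3⟩ := ul_rt_cell_le (co P iz) 1 cz hcz
    (fun k => Setoid.ker ((co P iR).cellv 1 k) ⊓ (Setoid.ker ((co P iy).cellv 1 k) ⊓ B k)) E hE K hK (by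
    filter_upwards [hh] with k hk ω ω' a a' e e' g i
    exact (hk ω ω' a a' e e' ⟨g.1.2.2, g.2⟩).2.2 ((co P iy).cellv_close 1 k ω ω' g.1.2.1 0)
      ((co P iR).cellv_close 1 k ω ω' g.1.1 0))
  refine ⟨fun k => f1 k + f2 k + f3 k, ?_, ?_⟩
  · have := (t1.add t2).add t3
    simpa using this
  · filter_upwards [b1, b2, b3] with k c1 c2 c3
    have hn := (S.F k).pos
    refine le_trans ?_ (add_le_add (add_le_add c1 c2) c3)
    unfold rt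
    rw [← add_div, ← add_div]
    apply div_le_div_of_nonneg_right _ hn.le
    beta_reduce
    obtain ⟨Y, hY⟩ : ∃ Y, Y = Setoid.ker ((co P iy).cellv 1 k) := ⟨_, rfl⟩
    obtain ⟨R, hR⟩ : ∃ R, R = Setoid.ker ((co P iR).cellv 1 k) := ⟨_, rfl⟩
    obtain ⟨X, hX⟩ : ∃ X, X = Setoid.ker ((co P iz).cellv 1 k) := ⟨_, rfl⟩
    rw [← hY, ← hR, ← hX]
    have d1 : (S.F k).e (Setoid.ker (P.cellv 1 k)) (B k ⊓ (S.F k).Z) ≤ (S.F k).e (Y ⊓ (R ⊓ X)) (B k ⊓ (S.F k).Z) := by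
      have h1 := (S.F k).e_triangle (Setoid.ker (P.cellv 1 k)) (Y ⊓ (R ⊓ X)) (B k ⊓ (S.F k).Z)
      have h2 : (S.F k).e (Setoid.ker (P.cellv 1 k)) ((Y ⊓ (R ⊓ X)) ⊓ (B k ⊓ (S.F k).Z)) = 0 := by
        apply (S.F k).e_zero
        intro ω ω' _ _ g
        apply ker_co
        intro i
        rcases hcov i with rfl | rfl | rfl
        · rw [← hY]; exact g.1.1
        · rw [← hR]; exact g.1.2.1
        · rw [← hX]; exact g.1.2.2
      linarith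
    have d2 := (S.F k).e_chain Y (R ⊓ X) (B k ⊓ (S.F k).Z)
    have d3 := (S.F k).e_chain R X (Y ⊓ (B k ⊓ (S.F k).Z))
    have e1 : Y ⊓ (B k ⊓ (S.F k).Z) = Y ⊓ B k ⊓ (S.F k).Z := (inf_assoc _ _ _).symm
    have e2 : R ⊓ (Y ⊓ (B k ⊓ (S.F k).Z)) = R ⊓ (Y ⊓ B k) ⊓ (S.F k).Z := by
      rw [inf_assoc, inf_assoc]
    rw [e2, e1] at d3
    rw [e1] at d2
    linarith

end

end Pool.Agent.Helper51.LP
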