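import Pool.Agent.Helper89.LX.Nja
import Pool.Agent.Helper52.KP.AgrF
import Pool.Agent.Helper40.EL.W1

/-! FLAG SPEED (39c (4.2)): two copies of a label over a common coarser label and the line with the window; the leak
of the pair of labels at the second point. -/

set_option autoImplicit false

namespace Pool.Agent.Helper51.LP

open Finset Filter Topology Pool.Agent.Helper69.RK Pool.Agent.Helper31.EC Pool.Agent.Helper40.EL
open Pool.Agent.Helper89.LX

noncomputable section

/-- the amalgam of spaces given by finite amalgams -/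
def toAmD {W S : Sp} (D : ∀ k, FAm (W.F k) (S.F k)) (hn : ∀ k, (W.F k).n = (S.F k).n) : AmD W S where
  α := fun k => (D k).α
  f := fun k => (D k).f
  g := fun k => (D k).g
  law := fun k => (D k).law
  Zr := fun k => (D k).Zr
  hZ1 := fun k => (D k).hZ1
  hZ2 := fun k => (D k).hZ2
  hn := hn

theorem toAmD_F {W S : Sp} (D : ∀ k, FAm (W.F k) (S.F k)) (hn : ∀ k, (W.F k).n = (S.F k).n) (k : ℕ) :
    (toAmD D hn).sp.F k = (D k).sp := rfl

section
variable {F : FSp} (l : FLab F) (K : Setoid l.T.Ω) (A : Setoid F.Ω)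

/-- the common variable: the coarser label, the line and the window -/
def cY : Setoid l.T.Ω := K ⊓ Setoid.comap l.p.π A

/-- two copies of the space of the label -/
def cD : FAm l.T l.T := FAm.self l.T (cY l K A)

theorem cD_ker : (fc (Setoid.ker (cD l K A).f) : FL l.T) = fc (cY l K A) := by
  apply le_antisymm
  · exact FAm.self_le _ _
  · apply fc_mono
    intro ω ω' h
    have h1 : (cD l K A).f ω = (cD l K A).f ω' := h
    exact (Quotient.exact (s := (cY l K A) ⊓ l.T.Z) h1).1

/-- what is below the common variable is common -/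
theorem map_com {X : Setoid l.T.Ω} (hX : cY l K A ≤ X) :
    (cD l K A).p1.map (fc X) = (cD l K A).p2.map (fc X) := by
  have key : ∀ w, (cD l K A).sp.μ w ≠ 0 → X w.1 w.2 := by
    intro w h
    have s1 : (Quotient.mk (cY l K A ⊓ l.T.Z) w.1) = Quotient.mk (cY l K A ⊓ l.T.Z) w.2 := ((cD l K A).supp w h).1
    exact hX (Quotient.exact s1).1
  apply le_antisymm
  · apply fc_le
    intro w w' h h' _ e
    have e' : X w.2 w'.2 := e
    show X w.1 w'.1
    exact X.trans (X.trans (key w h) e') (X.symm (key w' h'))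
  · apply fc_le
    intro w w' h h' _ e
    have e' : X w.1 w'.1 := e
    show X w.2 w'.2
    exact X.trans (X.trans (X.symm (key w h)) e') (key w' h')

/-- the leak of the pair of labels at the second point -/
def pleak (B : FL F) : ℝ := I ((cD l K A).p1.map l.v ⊔ (cD l K A).p2.map l.v) ((cD l K A).p2.map l.p.top)
  ((cD l K A).p2.map (l.p.map B))

theorem pair_leak (hK : fc K ≤ (fc l.V : FL l.T)) (P t : FL F) :
    pleak l K A (P ⊔ t) ≤ 2 * l.leak (P ⊔ t) + I (l.p.map t) (l.p.map (fc A)) (fc K) + h P (fc A ⊔ t) +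
      h ((cD l K A).p2.map (l.p.map P)) ((cD l K A).p1.map l.v ⊔ (cD l K A).p2.map (l.p.map t)) -
      h (l.p.map P) (l.v ⊔ l.p.map t) := by
  obtain ⟨D, hD⟩ : ∃ D, D = cD l K A := ⟨_, rfl⟩
  unfold pleak
  rw [← hD]
  have hKc : D.p1.map (fc K) = D.p2.map (fc K) := by rw [hD]; exact map_com l K A inf_le_left
  have hYc : D.p1.map (fc (cY l K A)) = D.p2.map (fc (cY l K A)) := by rw [hD]; exact map_com l K A le_rfl
  have hYs : (fc (cY l K A) : FL l.T) = fc K ⊔ l.p.map (fc A) := rfl
  have hKv : fc K ≤ l.v := hK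
  have hAo : l.p.map (fc A) ≤ l.p.top := l.p.map_le_top _
  have hto : l.p.map t ≤ l.p.top := l.p.map_le_top _
  have hPo : l.p.map P ≤ l.p.top := l.p.map_le_top _
  have hind : I (D.p1.map l.v) (D.p2.map l.v ⊔ D.p2.map l.p.top) (D.p1.map (fc (cY l K A))) = 0 := by
    have h1 := D.indep l.v (l.v ⊔ l.p.top)
    have h2 : (fc (Setoid.ker D.f) : FL l.T) = fc (cY l K A) := by rw [hD]; exact cD_ker l K A
    rw [h2, D.p2.map_sup] at h1
    exact h1
  have a0 := nj_leakB0 (κ := D.p1.map l.v) (κ' := D.p2.map l.v) (o := D.p2.map l.p.top)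
    (Y := D.p1.map (fc (cY l K A))) (B := D.p2.map (l.p.map (P ⊔ t))) (K := D.p1.map (fc K)) hind
    (D.p2.map_mono (l.p.map_le_top _)) (by
      rw [hYc, hKc, hYs, D.p2.map_sup]
      exact sup_le le_sup_right ((D.p2.map_mono hAo).trans le_sup_left)) (by
      rw [hKc]
      exact D.p2.map_mono hKv)
  have e1 : I (D.p2.map l.v) (D.p2.map l.p.top) (D.p2.map (l.p.map (P ⊔ t))) = l.leak (P ⊔ t) := D.p2.I_map _ _ _
  have e2 : I (D.p1.map l.v) (D.p1.map (fc (cY l K A))) (D.p1.map (fc K)) = I l.v (l.p.map (fc A)) (fc K) := by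
    rw [D.p1.I_map, hYs, I_chain_right, sup_idem]
    have : I l.v (fc K) (fc K) = 0 := by
      rw [I_eq', h_zero le_rfl, h_zero le_sup_right]
      ring
    rw [this, zero_add]
  have a1 := nj_leakB1 (v := l.v) (ξ := l.p.map (fc A)) (t := l.p.map t) (P := l.p.map P) (K := fc K)
    (o := l.p.top) hAo hKv
  have e3 : I l.v l.p.top (l.p.map P ⊔ l.p.map t) = l.leak (P ⊔ t) := by
    rw [← l.p.map_sup]
    rfl
  have e4 : h (l.p.map P) (l.p.map (fc A) ⊔ l.p.map t) = h P (fc A ⊔ t) := by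
    rw [← l.p.map_sup, l.p.h_map]
  have a2 := nj_leakB2 (κ := D.p1.map l.v) (B := D.p2.map (l.p.map (P ⊔ t))) (P := D.p2.map (l.p.map P))
    (t := D.p2.map (l.p.map t)) (K := D.p1.map (fc K)) (D.p2.map_mono (l.p.map_mono le_sup_left))
    (D.p2.map_mono (l.p.map_mono le_sup_right)) (D.p1.map_mono hKv)
  have e5 : h (D.p2.map (l.p.map P)) (D.p2.map (l.p.map t) ⊔ D.p1.map (fc K)) =
      h (l.p.map P) (l.p.map t ⊔ fc K) := by
    rw [hKc, ← D.p2.map_sup, D.p2.h_map]
  rw [e1, e2] at a0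
  rw [e3, e4] at a1
  rw [e5] at a2
  linarith

/-- the height is independent of the line given the coarser label -/
theorem t_indep (t : FL F) : I (l.p.map t) (l.p.map (fc A)) (fc K) ≤
    h (l.p.map t) (fc K) - h t (fc A) + I (fc K : FL l.T) l.p.top (l.p.map (fc A)) := by
  have h1 : I (l.p.map t) (l.p.map (fc A)) (fc K) = h (l.p.map t) (fc K) -
      h (l.p.map t) (l.p.map (fc A) ⊔ fc K) := I_eq _ _ _
  have h2 : I (fc K : FL l.T) (l.p.map t) (l.p.map (fc A)) = h (l.p.map t) (l.p.map (fc A)) -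
      h (l.p.map t) (fc K ⊔ l.p.map (fc A)) := I_eq' _ _ _
  have h3 : I (fc K : FL l.T) (l.p.map t) (l.p.map (fc A)) ≤ I (fc K : FL l.T) l.p.top (l.p.map (fc A)) :=
    I_mono_right ((l.p.map_le_top t).trans le_sup_left)
  have h4 := l.p.h_map t (fc A)
  rw [sup_comm (fc K : FL l.T)] at h2
  linarith

end

end

end Pool.Agent.Helper51.LP
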