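import Pool.Agent.Helper51.LP.RelW

/-! FLAG SPEED (39c (4.2)): labels of a window which carry a slab and a sheet; the relations on larger windows and
for the direction. -/

set_option autoImplicit false

namespace Pool.Agent.Helper51.LP

open Finset Filter Topology MvPolynomial Pool.Agent.Helper69.RK Pool.Agent.Helper31.EC Pool.Agent.Helper40.EL
open Pool.Agent.Helper3.LF Pool.Agent.Helper89.LX Pool.Agent.Helper59.LF

noncomputable section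

/-- the polynomial of a slab -/
def slP {m : ℕ} (b0 b1 al : ℝ) (iy iR : Fin m) : MvPolynomial (Fin (m + 1)) ℝ :=
  X iR.succ - (C b0 + C b1 * X 0 + C al * X iy.succ)

theorem eval_slP {m : ℕ} (b0 b1 al : ℝ) (iy iR : Fin m) (a x : Fin m → ℝ) (t : ℝ) :
    eval (pnt a x t) (slP b0 b1 al iy iR) = (a iR + t * x iR) - (b0 + b1 * t + al * (a iy + t * x iy)) := by
  unfold slP
  simp only [map_sub, map_add, map_mul, eval_X, eval_C, pnt_zero, pnt_succ]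

theorem tdeg_slP {m : ℕ} (b0 b1 al : ℝ) (iy iR : Fin m) : (slP b0 b1 al iy iR).totalDegree ≤ 1 := by
  unfold slP
  refine (totalDegree_sub _ _).trans (max_le (by rw [totalDegree_X]) ?_)
  refine (totalDegree_add _ _).trans (max_le ?_ ?_)
  · refine (totalDegree_add _ _).trans (max_le (by rw [totalDegree_C]; exact Nat.zero_le _) ?_)
    refine (totalDegree_mul _ _).trans ?_
    rw [totalDegree_C, totalDegree_X]
  · refine (totalDegree_mul _ _).trans ?_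
    rw [totalDegree_C, totalDegree_X]

theorem c1_slP {m : ℕ} (b0 b1 al : ℝ) (iy iR : Fin m) : c1 (slP b0 b1 al iy iR) ≤ 1 + |b0| + |b1| + |al| := by
  unfold slP
  rw [sub_eq_add_neg]
  have h1 := c1_add (X iR.succ : MvPolynomial (Fin (m + 1)) ℝ) (-(C b0 + C b1 * X 0 + C al * X iy.succ))
  have h2 := c1_neg (C b0 + C b1 * X 0 + C al * X iy.succ : MvPolynomial (Fin (m + 1)) ℝ)
  have h3 := c1_add (C b0 + C b1 * X 0 : MvPolynomial (Fin (m + 1)) ℝ) (C al * X iy.succ)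
  have h4 := c1_add (C b0 : MvPolynomial (Fin (m + 1)) ℝ) (C b1 * X 0)
  have h5 := c1_C_mul b1 (X 0 : MvPolynomial (Fin (m + 1)) ℝ)
  have h6 := c1_C_mul al (X iy.succ : MvPolynomial (Fin (m + 1)) ℝ)
  rw [c1_X] at h1 h5 h6
  rw [c1_C] at h4
  linarith

/-- a label with a slab of thickness `lam` and a sheet of thickness `1` -/
structure Fg {S : Sp} {m : ℕ} (s : Sys S m) (l : Lab S) (lam : ℝ) (D : ℕ) (iy iR iz : Fin m) where
  b0 : ∀ k, (l k).T.Ω → ℝ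
  b1 : ∀ k, (l k).T.Ω → ℝ
  al : ∀ k, (l k).T.Ω → ℝ
  Q : ∀ k, (l k).T.Ω → MvPolynomial (Fin (m + 1)) ℝ
  K : ℕ → ℝ
  hK : S.Sub K
  meas : ∀ᶠ k in UF, ∀ ω ω', (l k).T.μ ω ≠ 0 → (l k).T.μ ω' ≠ 0 → (l k).V ω ω' → (l k).T.Z ω ω' →
    b0 k ω = b0 k ω' ∧ b1 k ω = b1 k ω' ∧ al k ω = al k ω' ∧ Q k ω = Q k ω'
  bdd : ∀ᶠ k in UF, ∀ ω, (l k).T.μ ω ≠ 0 → |b0 k ω| ≤ K k ∧ |b1 k ω| ≤ K k ∧ |al k ω| ≤ K k ∧
    (Q k ω).totalDegree ≤ D ∧ c1 (Q k ω) ≤ K k ∧ pderiv iz.succ (Q k ω) = 1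
  slab : Sp.Typ (S := l.sp) (fun k (ω : (l k).T.Ω) =>
    |eval (ptf s k ((l k).p.π ω)) (slP (b0 k ω) (b1 k ω) (al k ω) iy iR)| ≤ K k * S.dl lam k)
  sheet : Sp.Typ (S := l.sp) (fun k (ω : (l k).T.Ω) => |eval (ptf s k ((l k).p.π ω)) (Q k ω)| ≤ K k * S.dl 1 k)

variable {S : Sp} {m : ℕ} {s : Sys S m}

theorem pl_eq_pnt {m : ℕ} (a x : Fin m → ℝ) (t : ℝ) : pl a x t = pnt a x t := rfl

/-- the line of a point of the label space -/
abbrev la (s : Sys S m) (l : Lab S) (k : ℕ) (ω : (l k).T.Ω) : Fin m → ℝ := s.a.v k ((l k).p.π ω)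

/-- the direction -/
abbrev lx (s : Sys S m) (l : Lab S) (k : ℕ) (ω : (l k).T.Ω) : Fin m → ℝ := s.x.v k ((l k).p.π ω)

/-- the height -/
abbrev lt (s : Sys S m) (l : Lab S) (k : ℕ) (ω : (l k).T.Ω) : ℝ := s.t.v k ((l k).p.π ω) 0

theorem ptf_eq (l : Lab S) (k : ℕ) (ω : (l k).T.Ω) : ptf s k ((l k).p.π ω) = pnt (la s l k ω) (lx s l k ω) (lt s l k ω) := rfl

/-- relations of labels on windows -/
theorem lab_win {c : ℝ} (h0 : 0 ≤ c) (hc1 : c < 1) {l : Lab S} (hl : DMc s c l) (D : ℕ)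
    (Q : ∀ k, (l k).T.Ω → MvPolynomial (Fin (m + 1)) ℝ) (σ : ℝ) (hσ : σ ≤ 1) (K : ℕ → ℝ) (hK : S.Sub K)
    (hmeas : ∀ᶠ k in UF, ∀ ω ω', (l k).T.μ ω ≠ 0 → (l k).T.μ ω' ≠ 0 → (l k).V ω ω' → (l k).T.Z ω ω' →
      Q k ω = Q k ω')
    (hdeg : ∀ᶠ k in UF, ∀ ω, (l k).T.μ ω ≠ 0 → (Q k ω).totalDegree ≤ D ∧ c1 (Q k ω) ≤ K k)
    (hQ : Sp.Typ (S := l.sp) (fun k (ω : (l k).T.Ω) => |eval (ptf s k ((l k).p.π ω)) (Q k ω)| ≤ K k * S.dl σ k))
    (b : ℝ) (hb : 0 ≤ b) (L : ℕ → ℝ) (hL : S.Sub L) :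
    ∃ K' : ℕ → ℝ, S.Sub K' ∧ Sp.Typ (S := l.sp) (fun k (ω : (l k).T.Ω) =>
      ∀ r, |r - lt s l k ω| ≤ L k * S.dl (c - b) k →
      |eval (pnt (la s l k ω) (lx s l k ω) r) (Q k ω)| ≤ K' k * S.dl (σ - D * b) k) := by
  have hK1 : S.Sub (fun k => K k + 1) := hK.add (S.Sub_const zero_le_one)
  obtain ⟨K', hK', hT⟩ := rel_win (S := l.sp) (l.pj.vv s.a) (l.pj.vv s.x) (l.pj.vv s.t) c h0 hc1 (wB s c l) D Q σ hσ
    (fun k => K k + 1) ((sp_Sub l).mpr hK1) (win_ent h0 hc1.le hl) (by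
      filter_upwards [hmeas, hK.1] with k hk hk0 ω ω' a a' e z
      obtain ⟨e1, e2, e3⟩ := wB_close k ω ω' e
      have h1 : ∀ r : ℝ, 1 * l.sp.dl r k ≤ (K k + 1) * l.sp.dl r k := fun r =>
        mul_le_mul_of_nonneg_right (by linarith) (l.sp.dl_pos r k).le
      exact ⟨hk ω' ω a' a e.1 z, fun i => (e1 i).trans (h1 1), fun i => (e2 i).trans (h1 1), e3.trans (h1 c)⟩) (by
      filter_upwards [hdeg] with k hk ω hω
      exact ⟨(hk ω hω).1, (hk ω hω).2.trans (by linarith)⟩) (by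
      refine typ_mono hQ (Eventually.of_forall fun k ω _ h1 => ?_)
      have h2 := l.sp.dl_pos σ k
      rw [sp_dl] at h2 ⊢
      refine le_trans h1 ?_
      exact mul_le_mul_of_nonneg_right (by linarith) h2.le) b hb L ((sp_Sub l).mpr hL)
  refine ⟨K', (sp_Sub l).mp hK', ?_⟩
  refine typ_mono hT (Eventually.of_forall fun k ω _ h1 r hr => ?_)
  have h2 := h1 r (by rw [sp_dl]; exact hr)
  rw [sp_dl] at h2
  exact h2

/-- relations of labels for the direction -/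
theorem lab_der {c : ℝ} (h0 : 0 ≤ c) (hc1 : c < 1) {l : Lab S} (hl : DMc s c l) (D : ℕ)
    (Q : ∀ k, (l k).T.Ω → MvPolynomial (Fin (m + 1)) ℝ) (σ : ℝ) (hσ : σ ≤ 1) (K : ℕ → ℝ) (hK : S.Sub K)
    (hmeas : ∀ᶠ k in UF, ∀ ω ω', (l k).T.μ ω ≠ 0 → (l k).T.μ ω' ≠ 0 → (l k).V ω ω' → (l k).T.Z ω ω' →
      Q k ω = Q k ω')
    (hdeg : ∀ᶠ k in UF, ∀ ω, (l k).T.μ ω ≠ 0 → (Q k ω).totalDegree ≤ D ∧ c1 (Q k ω) ≤ K k)
    (hQ : Sp.Typ (S := l.sp) (fun k (ω : (l k).T.Ω) => |eval (ptf s k ((l k).p.π ω)) (Q k ω)| ≤ K k * S.dl σ k)) :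
    ∃ K' : ℕ → ℝ, S.Sub K' ∧ Sp.Typ (S := l.sp) (fun k (ω : (l k).T.Ω) =>
      |eval (ptf s k ((l k).p.π ω)) (pderiv 0 (Q k ω)) +
        ∑ i : Fin m, lx s l k ω i * eval (ptf s k ((l k).p.π ω)) (pderiv i.succ (Q k ω))| ≤
          K' k * S.dl (σ - c) k) := by
  obtain ⟨K1, hK1, hT1⟩ := lab_win h0 hc1 hl D Q σ hσ K hK hmeas hdeg hQ 0 le_rfl (fun _ => 1)
    (S.Sub_const zero_le_one)
  obtain ⟨K', hK', hT⟩ := rel_der (S := l.sp) (l.pj.vv s.a) (l.pj.vv s.x) (l.pj.vv s.t) c D Q σ K1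
    ((sp_Sub l).mpr hK1) (by
      filter_upwards [hdeg] with k hk ω hω
      exact (hk ω hω).1) (by
      refine typ_mono hT1 (Eventually.of_forall fun k ω _ h1 r hr => ?_)
      have h2 := h1 r (by
        rw [one_mul, sub_zero]
        rw [sp_dl] at hr
        exact hr)
      rw [mul_zero, sub_zero] at h2
      rw [sp_dl]
      exact h2)
  refine ⟨K', (sp_Sub l).mp hK', ?_⟩
  refine typ_mono hT (Eventually.of_forall fun k ω _ h1 => ?_)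
  have h2 := h1 (lt s l k ω) (by
    show |s.t.v k ((l k).p.π ω) 0 - s.t.v k ((l k).p.π ω) 0| ≤ _
    rw [sub_self, abs_zero]
    exact (l.sp.dl_pos c k).le)
  rw [sp_dl] at h2
  exact h2

/-- the relations of a flag on the larger window -/
theorem Fg.win {c0 cn lam : ℝ} {D : ℕ} {iy iR iz : Fin m} {l : Lab S} (x : Fg s l lam D iy iR iz)
    (h0 : 0 ≤ c0) (hc0 : c0 < 1) (hc : cn ≤ c0) (hlam : lam ≤ 1) (hl : DMc s c0 l) :
    ∃ K' : ℕ → ℝ, S.Sub K' ∧ (∀ᶠ k in UF, x.K k ≤ K' k) ∧ Sp.Typ (S := l.sp) (fun k (ω : (l k).T.Ω) =>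
      (∀ r, |r - lt s l k ω| ≤ S.dl cn k →
        |(la s l k ω iR + r * lx s l k ω iR) - (x.b0 k ω + x.b1 k ω * r + x.al k ω * (la s l k ω iy + r * lx s l k ω iy))| ≤
          K' k * S.dl (lam - (c0 - cn)) k) ∧
      |lx s l k ω iR - (x.b1 k ω + x.al k ω * lx s l k ω iy)| ≤ K' k * S.dl (lam - c0) k ∧
      (∀ r, |r - lt s l k ω| ≤ S.dl cn k →
        |eval (pnt (la s l k ω) (lx s l k ω) r) (x.Q k ω)| ≤ K' k * S.dl (1 - D * (c0 - cn)) k) ∧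
      |eval (ptf s k ((l k).p.π ω)) (pderiv 0 (x.Q k ω)) +
        ∑ i : Fin m, lx s l k ω i * eval (ptf s k ((l k).p.π ω)) (pderiv i.succ (x.Q k ω))| ≤
          K' k * S.dl (1 - c0) k) := by
  have hK3 : S.Sub (fun k => 1 + 3 * x.K k) := (S.Sub_const zero_le_one).add ((S.Sub_const (show (0 : ℝ) ≤ 3 by norm_num)).mul x.hK)
  have hm1 : ∀ᶠ k in UF, ∀ ω ω', (l k).T.μ ω ≠ 0 → (l k).T.μ ω' ≠ 0 → (l k).V ω ω' → (l k).T.Z ω ω' →
      slP (x.b0 k ω) (x.b1 k ω) (x.al k ω) iy iR = slP (x.b0 k ω') (x.b1 k ω') (x.al k ω') iy iR := by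
    filter_upwards [x.meas] with k hk ω ω' a a' v z
    obtain ⟨e1, e2, e3, -⟩ := hk ω ω' a a' v z
    rw [e1, e2, e3]
  have hm2 : ∀ᶠ k in UF, ∀ ω ω', (l k).T.μ ω ≠ 0 → (l k).T.μ ω' ≠ 0 → (l k).V ω ω' → (l k).T.Z ω ω' →
      x.Q k ω = x.Q k ω' := by
    filter_upwards [x.meas] with k hk ω ω' a a' v z
    exact (hk ω ω' a a' v z).2.2.2
  have hd1 : ∀ᶠ k in UF, ∀ ω, (l k).T.μ ω ≠ 0 → (slP (x.b0 k ω) (x.b1 k ω) (x.al k ω) iy iR).totalDegree ≤ 1 ∧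
      c1 (slP (x.b0 k ω) (x.b1 k ω) (x.al k ω) iy iR) ≤ 1 + 3 * x.K k := by
    filter_upwards [x.bdd] with k hk ω hω
    obtain ⟨e1, e2, e3, -⟩ := hk ω hω
    exact ⟨tdeg_slP _ _ _ _ _, (c1_slP _ _ _ _ _).trans (by linarith)⟩
  have hd2 : ∀ᶠ k in UF, ∀ ω, (l k).T.μ ω ≠ 0 → (x.Q k ω).totalDegree ≤ D ∧ c1 (x.Q k ω) ≤ x.K k := by
    filter_upwards [x.bdd] with k hk ω hω
    obtain ⟨-, -, -, e4, e5, -⟩ := hk ω hω
    exact ⟨e4, e5⟩
  have hs1 : Sp.Typ (S := l.sp) (fun k (ω : (l k).T.Ω) =>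
    |eval (ptf s k ((l k).p.π ω)) (slP (x.b0 k ω) (x.b1 k ω) (x.al k ω) iy iR)| ≤ (1 + 3 * x.K k) * S.dl lam k) := by
    refine typ_mono x.slab ?_
    filter_upwards [x.hK.1] with k hk ω _ h1
    refine h1.trans ?_
    exact mul_le_mul_of_nonneg_right (by linarith) (S.dl_pos lam k).le
  obtain ⟨Ka, hKa, hTa⟩ := lab_win h0 hc0 hl 1 _ lam hlam _ hK3 hm1 hd1 hs1 (c0 - cn) (by linarith) (fun _ => 1)
    (S.Sub_const zero_le_one)
  obtain ⟨Kb, hKb, hTb⟩ := lab_win h0 hc0 hl 1 _ lam hlam _ hK3 hm1 hd1 hs1 0 le_rfl (fun _ => 1)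
    (S.Sub_const zero_le_one)
  obtain ⟨Kc, hKc, hTc⟩ := lab_win h0 hc0 hl D _ 1 le_rfl _ x.hK hm2 hd2 x.sheet (c0 - cn) (by linarith) (fun _ => 1)
    (S.Sub_const zero_le_one)
  obtain ⟨Kd, hKd, hTd⟩ := lab_der h0 hc0 hl D _ 1 le_rfl _ x.hK hm2 hd2 x.sheet
  refine ⟨fun k => x.K k + (Ka k + (2 * Kb k + (Kc k + Kd k))), x.hK.add (hKa.add (((S.Sub_const (show (0 : ℝ) ≤ 2 by norm_num)).mul
    hKb).add (hKc.add hKd))), ?_, ?_⟩
  · filter_upwards [hKa.1, hKb.1, hKc.1, hKd.1] with k a b c d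
    linarith
  · refine typ_mono (typ_and (typ_and hTa hTb) (typ_and hTc hTd)) ?_
    filter_upwards [x.hK.1, hKa.1, hKb.1, hKc.1, hKd.1] with k k0 k1 k2 k3 k4 ω _ ⟨⟨h1, h2⟩, ⟨h3, h4⟩⟩
    have up : ∀ (y z : ℝ) (r : ℝ), y ≤ z → y * S.dl r k ≤ z * S.dl r k := fun y z r h =>
      mul_le_mul_of_nonneg_right h (S.dl_pos r k).le
    refine ⟨?_, ?_, ?_, ?_⟩
    · intro r hr
      have g1 := h1 r (by
        rw [one_mul, sub_sub_cancel]
        exact hr)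
      rw [eval_slP, Nat.cast_one, one_mul] at g1
      exact g1.trans (up _ _ _ (by linarith))
    · have hd := S.dl_pos c0 k
      have g1 := h2 (lt s l k ω) (by
        rw [sub_self, abs_zero, one_mul]
        exact (S.dl_pos _ k).le)
      have g2 := h2 (lt s l k ω + S.dl c0 k) (by
        rw [add_sub_cancel_left, one_mul, sub_zero, abs_of_pos hd])
      rw [eval_slP, mul_zero, sub_zero] at g1 g2
      have g3 : S.dl c0 k * |lx s l k ω iR - (x.b1 k ω + x.al k ω * lx s l k ω iy)| ≤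
          S.dl c0 k * (2 * Kb k * S.dl (lam - c0) k) := by
        have e2 : S.dl lam k = S.dl c0 k * S.dl (lam - c0) k := by
          rw [← S.dl_add]; congr 1; ring
        rw [← abs_of_pos hd, ← abs_mul, abs_of_pos hd]
        have e3 : S.dl c0 k * (lx s l k ω iR - (x.b1 k ω + x.al k ω * lx s l k ω iy)) =
            ((la s l k ω iR + (lt s l k ω + S.dl c0 k) * lx s l k ω iR) - (x.b0 k ω + x.b1 k ω * (lt s l k ω + S.dl c0 k) +
              x.al k ω * (la s l k ω iy + (lt s l k ω + S.dl c0 k) * lx s l k ω iy))) -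
            ((la s l k ω iR + lt s l k ω * lx s l k ω iR) - (x.b0 k ω + x.b1 k ω * lt s l k ω +
              x.al k ω * (la s l k ω iy + lt s l k ω * lx s l k ω iy))) := by ring
        rw [e3]
        refine (abs_sub _ _).trans ?_
        have e4 : S.dl c0 k * (2 * Kb k * S.dl (lam - c0) k) = Kb k * S.dl lam k + Kb k * S.dl lam k := by
          rw [e2]; ring
        rw [e4]
        exact add_le_add g2 g1
      have g4 := le_of_mul_le_mul_left g3 hd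
      exact g4.trans (up _ _ _ (by linarith))
    · intro r hr
      have g1 := h3 r (by
        rw [one_mul, sub_sub_cancel]
        exact hr)
      exact g1.trans (up _ _ _ (by linarith))
    · exact h4.trans (up _ _ _ (by linarith))

end

end Pool.Agent.Helper51.LP
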