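import Pool.Agent.Helper51.LP.FlR
import Pool.Agent.Helper91.GR.Def

/-! FLAG SPEED (39c (4.2)): agreement, preparations. -/

set_option autoImplicit false

namespace Pool.Agent.Helper51.LP

open Finset Filter Topology MvPolynomial Pool.Agent.Helper69.RK Pool.Agent.Helper31.EC Pool.Agent.Helper40.EL
open Pool.Agent.Helper3.LF Pool.Agent.Helper89.LX Pool.Agent.Helper59.LF Pool.Agent.Helper80.MX

noncomputable section

/-- the difference of two slabs at a point nearby -/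
theorem slab_two (b0 b1 al b0' b1' al' t y t' y' M d g σ : ℝ) (hM : 0 ≤ M) (hd : 0 ≤ d)
    (h1 : |al - al'| ≤ M * d) (h2 : |b1 - b1'| ≤ M * d)
    (h3 : |(b0 + b1 * t' + al * y') - (b0' + b1' * t' + al' * y')| ≤ M * σ) (ht : |t - t'| ≤ g) (hy : |y - y'| ≤ g) :
    |(b0 + b1 * t + al * y) - (b0' + b1' * t + al' * y)| ≤ M * σ + 2 * M * (d * g) := by
  have hMd : 0 ≤ M * d := mul_nonneg hM hd
  have e1 : (b0 + b1 * t + al * y) - (b0' + b1' * t + al' * y) =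
      ((b0 + b1 * t' + al * y') - (b0' + b1' * t' + al' * y')) + ((b1 - b1') * (t - t') + (al - al') * (y - y')) := by
    ring
  rw [e1]
  refine (abs_add_le _ _).trans ?_
  have e2 : |(b1 - b1') * (t - t') + (al - al') * (y - y')| ≤ M * d * g + M * d * g := by
    refine (abs_add_le _ _).trans ?_
    rw [abs_mul, abs_mul]
    exact add_le_add (mul_le_mul h2 ht (abs_nonneg _) hMd) (mul_le_mul h1 hy (abs_nonneg _) hMd)
  linarith

theorem floor_err (v d : ℝ) (hd : 0 < d) : |v - (⌊v / d⌋ : ℝ) * d| ≤ d := by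
  have e2 := Int.floor_le (v / d)
  have e3 := Int.lt_floor_add_one (v / d)
  rw [le_div_iff₀ hd] at e2
  rw [div_lt_iff₀ hd] at e3
  rw [abs_of_nonneg (by linarith)]
  linarith

/-- the rounded slab -/
theorem slab_round (b0 b1 al t y ts ys d σ g : ℝ) (hd : 0 < d) (hσ : 0 < σ) (ht : |t - ts| ≤ g) (hy : |y - ys| ≤ g) :
    |(b0 + b1 * t + al * y) - ((⌊(b0 + b1 * ts + al * ys) / σ⌋ : ℝ) * σ + (⌊b1 / d⌋ : ℝ) * d * (t - ts) +
      (⌊al / d⌋ : ℝ) * d * (y - ys))| ≤ σ + 2 * (d * g) := by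
  have h1 := floor_err (b0 + b1 * ts + al * ys) σ hσ
  have h2 := floor_err b1 d hd
  have h3 := floor_err al d hd
  have e1 : (b0 + b1 * t + al * y) - ((⌊(b0 + b1 * ts + al * ys) / σ⌋ : ℝ) * σ + (⌊b1 / d⌋ : ℝ) * d * (t - ts) +
      (⌊al / d⌋ : ℝ) * d * (y - ys)) = ((b0 + b1 * ts + al * ys) - (⌊(b0 + b1 * ts + al * ys) / σ⌋ : ℝ) * σ) +
      ((b1 - (⌊b1 / d⌋ : ℝ) * d) * (t - ts) + (al - (⌊al / d⌋ : ℝ) * d) * (y - ys)) := by ring
  rw [e1]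
  refine (abs_add_le _ _).trans ?_
  have e2 : |(b1 - (⌊b1 / d⌋ : ℝ) * d) * (t - ts) + (al - (⌊al / d⌋ : ℝ) * d) * (y - ys)| ≤ d * g + d * g := by
    refine (abs_add_le _ _).trans ?_
    rw [abs_mul, abs_mul]
    exact add_le_add (mul_le_mul h2 ht (abs_nonneg _) hd.le) (mul_le_mul h3 hy (abs_nonneg _) hd.le)
  linarith

/-- cell numbers of functions of subexponential size -/
theorem flb {S : Sp} {B : ℕ → ℝ} (hB : S.Sub B) : ∀ᶠ k in UF, ∀ v σ : ℝ, |v| ≤ B k → σ ≤ 1 →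
    |(⌊v / S.dl σ k⌋ : ℝ)| ≤ 2 ^ (3 * (S.F k).n) := by
  have hn1 : ∀ᶠ k in UF, (1 : ℝ) ≤ (S.F k).n := S.lim.eventually (eventually_ge_atTop 1)
  filter_upwards [hB.eventually_le one_pos, hB.1, hn1] with k a b hn1 v σ hv hσ
  have hn := (S.F k).pos
  have hX : (2 : ℝ) ≤ 2 ^ ((1 : ℝ) * (S.F k).n) := by
    calc (2 : ℝ) = 2 ^ (1 : ℝ) := (Real.rpow_one 2).symm
      _ ≤ _ := Real.rpow_le_rpow_of_exponent_le (by norm_num) (by linarith)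
  have h3 : |(⌊v / S.dl σ k⌋ : ℝ)| ≤ |v / S.dl σ k| + 1 := by
    have e1 := Int.floor_le (v / S.dl σ k)
    have e2 := Int.lt_floor_add_one (v / S.dl σ k)
    rw [abs_le]
    have e3 := neg_abs_le (v / S.dl σ k)
    have e4 := le_abs_self (v / S.dl σ k)
    constructor <;> linarith
  have h4 : |v / S.dl σ k| ≤ B k * 2 ^ ((1 : ℝ) * (S.F k).n) := by
    rw [abs_div, abs_of_pos (S.dl_pos σ k), div_le_iff₀ (S.dl_pos σ k)]
    refine hv.trans ?_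
    rw [mul_assoc]
    have h5 : 1 ≤ 2 ^ ((1 : ℝ) * (S.F k).n) * S.dl σ k := by
      unfold Sp.dl
      rw [← Real.rpow_add (by norm_num)]
      apply Real.one_le_rpow (by norm_num)
      nlinarith
    nlinarith
  have h5 : (2 : ℝ) ^ (3 * (S.F k).n) = 2 ^ ((1 : ℝ) * (S.F k).n) * 2 ^ ((1 : ℝ) * (S.F k).n) *
      2 ^ ((1 : ℝ) * (S.F k).n) := by
    rw [← Real.rpow_add (by norm_num), ← Real.rpow_add (by norm_num)]
    congr 1
    ring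
  rw [h5]
  have h7 : B k ≤ 2 ^ ((1 : ℝ) * (S.F k).n) := by linarith
  obtain ⟨X, hXd⟩ : ∃ X, X = (2 : ℝ) ^ ((1 : ℝ) * (S.F k).n) := ⟨_, rfl⟩
  rw [← hXd] at hX h4 h7 ⊢
  have h8 : B k * X ≤ X * X := mul_le_mul_of_nonneg_right h7 (by linarith)
  have h9 : X * X * 2 ≤ X * X * X := mul_le_mul_of_nonneg_left hX (by nlinarith)
  have h10 : 4 ≤ X * X := by nlinarith
  linarith

/-- representatives of the classes in the support -/
def rq (F : FSp) (K : Setoid F.Ω) (q : Quotient (K ⊓ F.Z)) : F.Ω :=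
  open Classical in if h : ∃ ω, F.μ ω ≠ 0 ∧ Quotient.mk (K ⊓ F.Z) ω = q then h.choose else q.out

theorem rq_spec (F : FSp) (K : Setoid F.Ω) (ω : F.Ω) (hω : F.μ ω ≠ 0) :
    F.μ (rq F K (Quotient.mk (K ⊓ F.Z) ω)) ≠ 0 ∧ K (rq F K (Quotient.mk (K ⊓ F.Z) ω)) ω ∧
      F.Z (rq F K (Quotient.mk (K ⊓ F.Z) ω)) ω := by
  have h : ∃ ω', F.μ ω' ≠ 0 ∧ Quotient.mk (K ⊓ F.Z) ω' = Quotient.mk (K ⊓ F.Z) ω := ⟨ω, hω, rfl⟩
  have e : rq F K (Quotient.mk (K ⊓ F.Z) ω) = h.choose := by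
    unfold rq
    rw [dif_pos h]
  rw [e]
  have h2 := h.choose_spec
  have h3 : (K ⊓ F.Z) h.choose ω := Quotient.exact h2.2
  exact ⟨h2.1, h3.1, h3.2⟩

variable {S : Sp} {m : ℕ} {s : Sys S m} {l : Lab S} {lam : ℝ} {D : ℕ} {iy iR iz : Fin m}

/-- the corner: a point of the class of the coarser label -/
def crn (l : Lab S) (K : ∀ k, Setoid (l k).T.Ω) (k : ℕ) (ω : (l k).T.Ω) : (l k).T.Ω :=
  rq (l k).T (K k) (Quotient.mk (K k ⊓ (l k).T.Z) ω)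

theorem crn_eq (K : ∀ k, Setoid (l k).T.Ω) (k : ℕ) (ω ω' : (l k).T.Ω) (h : K k ω ω') (hZ : (l k).T.Z ω ω') :
    crn l K k ω = crn l K k ω' := by
  unfold crn
  congr 1
  exact Quotient.sound ⟨h, hZ⟩

/-- the value of the slab of `ω` at the point of `ω'` -/
def slv (x : Fg s l lam D iy iR iz) (k : ℕ) (ω ω' : (l k).T.Ω) : ℝ :=
  x.b0 k ω + x.b1 k ω * lt s l k ω' + x.al k ω * (la s l k ω' iy + lt s l k ω' * lx s l k ω' iy)

/-- the rounded slab -/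
def rW (x : Fg s l lam D iy iR iz) (cn u : ℝ) (K : ∀ k, Setoid (l k).T.Ω) (k : ℕ) (hat : (l k).T.Ω → (l k).T.Ω)
    (ω : (l k).T.Ω) : Fin 3 → ℤ :=
  ![⌊x.al k (hat ω) / S.dl (lam - u - cn) k⌋, ⌊x.b1 k (hat ω) / S.dl (lam - u - cn) k⌋,
    ⌊slv x k (hat ω) (crn l K k ω) / S.dl (lam - u) k⌋]

theorem dl_mul_le {a b : ℝ} {k : ℕ} {C : ℝ} : S.dl (a - b) k * (C * S.dl b k) = C * S.dl a k := by
  have : S.dl a k = S.dl (a - b) k * S.dl b k := by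
    rw [← S.dl_add]
    congr 1
    ring
  rw [this]
  ring

/-- few values -/
theorem rW_few (x : Fg s l lam D iy iR iz) (cn u M Kc : ℝ) (K : ∀ k, Setoid (l k).T.Ω) (k : ℕ)
    (hat : (l k).T.Ω → (l k).T.Ω) (ω ω' : (l k).T.Ω) (hM : 0 ≤ M) (hKc : 0 ≤ Kc)
    (hf : x.b0 k ω = x.b0 k ω' ∧ x.b1 k ω = x.b1 k ω' ∧ x.al k ω = x.al k ω')
    (hc : crn l K k ω = crn l K k ω') (h1 : RR x cn u M k ω (hat ω)) (h2 : RR x cn u M k ω' (hat ω'))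
    (ht1 : |lt s l k (crn l K k ω) - lt s l k (hat ω)| ≤ Kc * S.dl cn k)
    (hy1 : |s.P.v k ((l k).p.π (crn l K k ω)) iy - s.P.v k ((l k).p.π (hat ω)) iy| ≤ Kc * S.dl cn k)
    (ht2 : |lt s l k (crn l K k ω') - lt s l k (hat ω')| ≤ Kc * S.dl cn k)
    (hy2 : |s.P.v k ((l k).p.π (crn l K k ω')) iy - s.P.v k ((l k).p.π (hat ω')) iy| ≤ Kc * S.dl cn k) :
    ∀ i, |(rW x cn u K k hat ω i : ℝ) - rW x cn u K k hat ω' i| ≤ 2 * (M + 2 * M * Kc) + 1 := by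
  have hd := S.dl_pos (lam - u - cn) k
  have hσ := S.dl_pos (lam - u) k
  have g := slab_two (x.b0 k ω) (x.b1 k ω) (x.al k ω) (x.b0 k (hat ω)) (x.b1 k (hat ω)) (x.al k (hat ω))
    (lt s l k (crn l K k ω)) (s.P.v k ((l k).p.π (crn l K k ω)) iy) (lt s l k (hat ω))
    (s.P.v k ((l k).p.π (hat ω)) iy) M (S.dl (lam - u - cn) k) (Kc * S.dl cn k) (S.dl (lam - u) k) hM hd.le h1.1
    h1.2.1 h1.2.2 ht1 hy1
  have g' := slab_two (x.b0 k ω') (x.b1 k ω') (x.al k ω') (x.b0 k (hat ω')) (x.b1 k (hat ω')) (x.al k (hat ω'))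
    (lt s l k (crn l K k ω')) (s.P.v k ((l k).p.π (crn l K k ω')) iy) (lt s l k (hat ω'))
    (s.P.v k ((l k).p.π (hat ω')) iy) M (S.dl (lam - u - cn) k) (Kc * S.dl cn k) (S.dl (lam - u) k) hM hd.le h2.1
    h2.2.1 h2.2.2 ht2 hy2
  have e0 : S.dl (lam - u - cn) k * (Kc * S.dl cn k) = Kc * S.dl (lam - u) k := dl_mul_le
  rw [e0] at g g'
  rw [← hc] at g'
  obtain ⟨f1, f2, f3⟩ := hf
  rw [← f1, ← f2, ← f3] at g'
  have a1 := h1.1
  have a1' := h2.1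
  rw [← f3] at a1'
  have a2 := h1.2.1
  have a2' := h2.2.1
  rw [← f2] at a2'
  have hMK : 0 ≤ M * Kc := mul_nonneg hM hKc
  have key : ∀ (v v' w d : ℝ), 0 < d → |w - v| ≤ (M + 2 * M * Kc) * d → |w - v'| ≤ (M + 2 * M * Kc) * d →
      |(⌊v / d⌋ : ℝ) - ⌊v' / d⌋| ≤ 2 * (M + 2 * M * Kc) + 1 := by
    intro v v' w d hd b1 b2
    apply Sp.floor_diff hd
    have : v - v' = (w - v') - (w - v) := by ring
    rw [this]
    have := abs_sub (w - v') (w - v)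
    linarith
  have up : ∀ d : ℝ, 0 < d → M * d ≤ (M + 2 * M * Kc) * d := fun d hd =>
    mul_le_mul_of_nonneg_right (by linarith) hd.le
  have hslv : slv x k (hat ω') (crn l K k ω') = slv x k (hat ω') (crn l K k ω) := by rw [hc]
  intro i
  fin_cases i
  · show |(⌊x.al k (hat ω) / S.dl (lam - u - cn) k⌋ : ℝ) - (⌊x.al k (hat ω') / S.dl (lam - u - cn) k⌋ : ℝ)| ≤ _
    exact key _ _ (x.al k ω) _ hd (a1.trans (up _ hd)) (a1'.trans (up _ hd))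
  · show |(⌊x.b1 k (hat ω) / S.dl (lam - u - cn) k⌋ : ℝ) - (⌊x.b1 k (hat ω') / S.dl (lam - u - cn) k⌋ : ℝ)| ≤ _
    exact key _ _ (x.b1 k ω) _ hd (a2.trans (up _ hd)) (a2'.trans (up _ hd))
  · show |(⌊slv x k (hat ω) (crn l K k ω) / S.dl (lam - u) k⌋ : ℝ) -
      (⌊slv x k (hat ω') (crn l K k ω') / S.dl (lam - u) k⌋ : ℝ)| ≤ _
    rw [hslv]
    refine key _ _ (slv x k ω (crn l K k ω)) _ hσ ?_ ?_
    · refine le_trans (le_of_eq ?_) (g.trans (le_of_eq ?_))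
      · rfl
      · ring
    · refine le_trans (le_of_eq ?_) (g'.trans (le_of_eq ?_))
      · rfl
      · ring

/-- the slab of the rounded label -/
theorem rW_slab (x : Fg s l lam D iy iR iz) (cn u M Kc : ℝ) (K : ∀ k, Setoid (l k).T.Ω) (k : ℕ)
    (hat : (l k).T.Ω → (l k).T.Ω) (ω : (l k).T.Ω) (hM : 0 ≤ M) (hu : 0 ≤ u)
    (h1 : RR x cn u M k ω (hat ω))
    (hsl : |eval (ptf s k ((l k).p.π ω)) (slP (x.b0 k ω) (x.b1 k ω) (x.al k ω) iy iR)| ≤ M * S.dl lam k)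
    (ht1 : |lt s l k ω - lt s l k (hat ω)| ≤ Kc * S.dl cn k)
    (hy1 : |s.P.v k ((l k).p.π ω) iy - s.P.v k ((l k).p.π (hat ω)) iy| ≤ Kc * S.dl cn k)
    (ht2 : |lt s l k ω - lt s l k (crn l K k ω)| ≤ Kc * S.dl cn k)
    (hy2 : |s.P.v k ((l k).p.π ω) iy - s.P.v k ((l k).p.π (crn l K k ω)) iy| ≤ Kc * S.dl cn k) :
    |s.P.v k ((l k).p.π ω) iR - ((rW x cn u K k hat ω 2 : ℝ) * S.dl (lam - u) k +
      (rW x cn u K k hat ω 1 : ℝ) * S.dl (lam - u - cn) k * (lt s l k ω - lt s l k (crn l K k ω)) +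
      (rW x cn u K k hat ω 0 : ℝ) * S.dl (lam - u - cn) k *
        (s.P.v k ((l k).p.π ω) iy - s.P.v k ((l k).p.π (crn l K k ω)) iy))| ≤
      (M + (M + 2 * M * Kc) + (1 + 2 * Kc)) * S.dl (lam - u) k := by
  have hd := S.dl_pos (lam - u - cn) k
  have hσ := S.dl_pos (lam - u) k
  have g := slab_two (x.b0 k ω) (x.b1 k ω) (x.al k ω) (x.b0 k (hat ω)) (x.b1 k (hat ω)) (x.al k (hat ω))
    (lt s l k ω) (s.P.v k ((l k).p.π ω) iy) (lt s l k (hat ω))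
    (s.P.v k ((l k).p.π (hat ω)) iy) M (S.dl (lam - u - cn) k) (Kc * S.dl cn k) (S.dl (lam - u) k) hM hd.le h1.1
    h1.2.1 h1.2.2 ht1 hy1
  have g2 := slab_round (x.b0 k (hat ω)) (x.b1 k (hat ω)) (x.al k (hat ω)) (lt s l k ω) (s.P.v k ((l k).p.π ω) iy)
    (lt s l k (crn l K k ω)) (s.P.v k ((l k).p.π (crn l K k ω)) iy) (S.dl (lam - u - cn) k) (S.dl (lam - u) k)
    (Kc * S.dl cn k) hd hσ ht2 hy2
  have e0 : S.dl (lam - u - cn) k * (Kc * S.dl cn k) = Kc * S.dl (lam - u) k := dl_mul_le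
  rw [e0] at g g2
  rw [ptf_eq, eval_slP] at hsl
  have hsl' : |s.P.v k ((l k).p.π ω) iR - (x.b0 k ω + x.b1 k ω * lt s l k ω + x.al k ω *
      s.P.v k ((l k).p.π ω) iy)| ≤ M * S.dl lam k := hsl
  have e1 : M * S.dl lam k ≤ M * S.dl (lam - u) k := mul_le_mul_of_nonneg_left (S.dl_anti (by linarith) k) hM
  have e2 : (rW x cn u K k hat ω 2 : ℝ) = (⌊(x.b0 k (hat ω) + x.b1 k (hat ω) * lt s l k (crn l K k ω) +
      x.al k (hat ω) * s.P.v k ((l k).p.π (crn l K k ω)) iy) / S.dl (lam - u) k⌋ : ℝ) := rfl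
  have e3 : (rW x cn u K k hat ω 1 : ℝ) = (⌊x.b1 k (hat ω) / S.dl (lam - u - cn) k⌋ : ℝ) := rfl
  have e4 : (rW x cn u K k hat ω 0 : ℝ) = (⌊x.al k (hat ω) / S.dl (lam - u - cn) k⌋ : ℝ) := rfl
  rw [e2, e3, e4]
  rw [abs_le] at hsl' g g2 ⊢
  constructor <;> nlinarith [hsl'.1, hsl'.2, g.1, g.2, g2.1, g2.2]

end

end Pool.Agent.Helper51.LP
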