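import Pool.Agent.Helper51.LP.Pair

/-! FLAG SPEED (39c (4.2)): the count at the second point and the leak of the pair. -/

set_option autoImplicit false

namespace Pool.Agent.Helper51.LP

open Finset Filter Topology MvPolynomial Pool.Agent.Helper69.RK Pool.Agent.Helper31.EC Pool.Agent.Helper40.EL
open Pool.Agent.Helper3.LF Pool.Agent.Helper89.LX Pool.Agent.Helper59.LF

noncomputable section

variable {S : Sp} {m : ℕ} {s : Sys S m} {l : Lab S} {lam : ℝ} {D : ℕ} {iy iR iz : Fin m}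

/-- the coarser label knows the height and the coordinate `y` up to level `cn` -/
def Kn1 (s : Sys S m) (cn : ℝ) (l : Lab S) (K : ∀ k, Setoid (l k).T.Ω) (iy : Fin m) : Prop :=
  ∃ Kc : ℕ → ℝ, S.Sub Kc ∧ ∀ᶠ k in UF, ∀ ω ω', (l k).T.μ ω ≠ 0 → (l k).T.μ ω' ≠ 0 → K k ω ω' → (l k).T.Z ω ω' →
    |s.t.v k ((l k).p.π ω) 0 - s.t.v k ((l k).p.π ω') 0| ≤ Kc k * S.dl cn k ∧
    |s.P.v k ((l k).p.π ω) iy - s.P.v k ((l k).p.π ω') iy| ≤ Kc k * S.dl cn k

/-- the count at the second point -/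
theorem Fg.cnt {c0 cn : ℝ} (x : Fg s l lam D iy iR iz) (h0 : 0 ≤ cn) (hc : cn ≤ c0) (hc0 : c0 < 1)
    (hlam : lam ≤ 1) (hl : DMc s c0 l) (K : ∀ k, Setoid (l k).T.Ω)
    (hKA : Nul S (fun k => I (fc (K k) : FL (l k).T) (l k).p.top ((l k).p.map (cA s cn k))))
    (hKV : ∀ k ω ω', (l k).V ω ω' → K k ω ω') (hKn : Kn1 s cn l K iy) (hcov : ∀ i, i = iy ∨ i = iR ∨ i = iz) :
    ∃ f : ℕ → ℝ, Tendsto f UF (𝓝 ((1 - cn) + (1 - (lam - (c0 - cn))) + D * (c0 - cn))) ∧
      ∀ᶠ k in UF, (cpD s cn l K).sp.rt (fun k => Setoid.comap ((cpD s cn l K).p2.π k)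
        (Setoid.comap (l k).p.π (Setoid.ker (s.P.cellv 1 k)))) (cB1 s cn l K) k ≤ f k := by
  obtain ⟨M, hM, hM1, hT⟩ := x.pair h0 hc hc0 hlam hl K 1 (hc.trans_lt hc0) le_rfl hKA
  obtain ⟨Kc, hKc, hKc'⟩ := hKn
  have hMs : S.Sub (fun k => Kc k + (2 * M k + 2 * M k) + (2 * M k + ((m + 1 : ℕ) : ℝ) * (D * M k * M k ^ D))) :=
    (hKc.add (((S.Sub_const (show (0 : ℝ) ≤ 2 by norm_num)).mul hM).add
      ((S.Sub_const (show (0 : ℝ) ≤ 2 by norm_num)).mul hM))).add
      (((S.Sub_const (show (0 : ℝ) ≤ 2 by norm_num)).mul hM).add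
      ((S.Sub_const (Nat.cast_nonneg _)).mul (((S.Sub_const (Nat.cast_nonneg _)).mul hM).mul (Sub_powN hM D))))
  have hδ : 0 ≤ c0 - cn := by linarith
  have hDδ : (0 : ℝ) ≤ D * (c0 - cn) := by positivity
  have hPv : ∀ (k : ℕ) (w : ((cpD s cn l K).sp.F k).Ω) (i : Fin m),
      ((cpD s cn l K).p2.vv (l.pj.vv s.P)).v k w i = s.P.v k ((l k).p.π w.2) i := fun _ _ _ => rfl
  obtain ⟨f, hf, hf'⟩ := cnt3 (S := (cpD s cn l K).sp) ((cpD s cn l K).p2.vv (l.pj.vv s.P)) iy iR iz hcov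
    (cB1 s cn l K) (1 - cn) (1 - (lam - (c0 - cn))) (D * (c0 - cn)) (by linarith) (by linarith) hDδ
    (fun k (w : ((cpD s cn l K).sp.F k).Ω) => PF x c0 cn 1 (M k) k w.1 w.2) hT _ ((cp_Sub s cn l K).mpr hMs) (by
      filter_upwards [x.meas, hKc', hKc.1, hM1] with k a1 a2 a3 a4 w w' hw hw' e e' g
      obtain ⟨⟨g1, g2⟩, g3⟩ := g
      have g1' : (l k).V w.1 w'.1 := g1
      have g2' : s.t.cellv 1 k ((l k).p.π w.2) = s.t.cellv 1 k ((l k).p.π w'.2) := g2
      have g3' : (l k).T.Z w.1 w'.1 := g3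
      obtain ⟨u1, u2, u3, u4, -⟩ := cp_supp s cn l K k w hw
      obtain ⟨u1', u2', u3', u4', -⟩ := cp_supp s cn l K k w' hw'
      have k2 : K k w.2 w'.2 := (K k).trans ((K k).trans ((K k).symm u3) (hKV k _ _ g1')) u3'
      have z2 : (l k).T.Z w.2 w'.2 := (l k).T.Z.trans ((l k).T.Z.trans ((l k).T.Z.symm u4) g3') u4'
      obtain ⟨e1, e2, e3, e4⟩ := a1 w.1 w'.1 u1 u1' g1' g3'
      have htc : |lt s l k w.2 - lt s l k w'.2| ≤ S.dl 1 k := s.t.cellv_close 1 k _ _ g2' 0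
      have hd1 := S.dl_pos 1 k
      have hlow : ∀ q : ℝ, q ≤ 1 → S.dl 1 k ≤ S.dl q k := fun q hq => S.dl_anti hq k
      have hP : ∀ (v : (l k).T.Ω) (i : Fin m), s.P.v k ((l k).p.π v) i = la s l k v i + lt s l k v * lx s l k v i :=
        fun _ _ => rfl
      have hM0 : 0 ≤ M k := by linarith
      have hL0 : 0 ≤ ((m + 1 : ℕ) : ℝ) * (D * M k * M k ^ D) := by positivity
      simp only [hPv, cp_dl]
      have up : ∀ (y z : ℝ) (r : ℝ), y ≤ z → y * S.dl r k ≤ z * S.dl r k := fun y z r h =>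
        mul_le_mul_of_nonneg_right h (S.dl_pos r k).le
      refine ⟨?_, ?_, ?_⟩
      · rw [show (1 : ℝ) - (1 - cn) = cn by ring]
        exact (a2 w.2 w'.2 u2 u2' k2 z2).2.trans (up _ _ _ (by linarith))
      · intro hy
        rw [show (1 : ℝ) - (1 - (lam - (c0 - cn))) = lam - (c0 - cn) by ring]
        have p1 := e.f2
        have p2 := e'.f2
        rw [← e1, ← e2, ← e3] at p2
        rw [← hP w.2 iR, ← hP w.2 iy] at p1
        rw [← hP w'.2 iR, ← hP w'.2 iy] at p2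
        obtain ⟨-, q2, q3⟩ := e.g1
        have r1 : |x.b1 k w.1 * (lt s l k w.2 - lt s l k w'.2)| ≤ M k * S.dl (lam - (c0 - cn)) k := by
          rw [abs_mul]
          exact mul_le_mul q2 (htc.trans (hlow _ (by linarith))) (abs_nonneg _) hM0
        have r2 : |x.al k w.1 * (s.P.v k ((l k).p.π w.2) iy - s.P.v k ((l k).p.π w'.2) iy)| ≤
            M k * S.dl (lam - (c0 - cn)) k := by
          rw [abs_mul]
          exact mul_le_mul q3 (hy.trans (hlow _ (by linarith))) (abs_nonneg _) hM0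
        have r3 : |s.P.v k ((l k).p.π w.2) iR - s.P.v k ((l k).p.π w'.2) iR| ≤ (2 * M k + 2 * M k) * S.dl (lam - (c0 - cn)) k := by
          rw [abs_le] at p1 p2 r1 r2 ⊢
          constructor <;> nlinarith [p1.1, p1.2, p2.1, p2.2, r1.1, r1.2, r2.1, r2.2]
        exact r3.trans (up _ _ _ (by linarith))
      · intro hy hR
        have p1 := e.f6
        have p2 := e'.f6
        rw [← e4] at p2
        obtain ⟨q1, q2, q3⟩ := e.g3
        have c2 := cnt_z (x.Q k w.1) D q1 iz.succ q3 (M k) (S.dl 1 k) a4 hd1.le (ptf s k ((l k).p.π w'.2))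
          (ptf s k ((l k).p.π w.2)) (fun i => by
            have := e'.f10 i
            have := dl_one_le S k
            linarith) (fun i => by
            refine Fin.cases ?_ (fun j => ?_) i
            · intro _
              exact htc
            · intro hj
              have hj' : j ≠ iz := fun h => hj (congrArg Fin.succ h)
              show |s.P.v k ((l k).p.π w.2) j - s.P.v k ((l k).p.π w'.2) j| ≤ S.dl 1 k
              rcases hcov j with rfl | rfl | rfl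
              · exact hy
              · exact hR
              · exact absurd rfl hj')
        have c3 : |s.P.v k ((l k).p.π w.2) iz - s.P.v k ((l k).p.π w'.2) iz| ≤
            |eval (ptf s k ((l k).p.π w.2)) (x.Q k w.1)| + |eval (ptf s k ((l k).p.π w'.2)) (x.Q k w.1)| +
              ((m + 1 : ℕ) : ℝ) * (D * LP.c1 (x.Q k w.1) * M k ^ D) * S.dl 1 k := c2
        have c4 : ((m + 1 : ℕ) : ℝ) * (D * LP.c1 (x.Q k w.1) * M k ^ D) * S.dl 1 k ≤
            ((m + 1 : ℕ) : ℝ) * (D * M k * M k ^ D) * S.dl (1 - D * (c0 - cn)) k := by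
          apply mul_le_mul _ (hlow _ (by linarith)) hd1.le hL0
          apply mul_le_mul_of_nonneg_left _ (Nat.cast_nonneg _)
          apply mul_le_mul_of_nonneg_right _ (by positivity)
          exact mul_le_mul_of_nonneg_left q2 (Nat.cast_nonneg _)
        have c5 : |s.P.v k ((l k).p.π w.2) iz - s.P.v k ((l k).p.π w'.2) iz| ≤
            (2 * M k + ((m + 1 : ℕ) : ℝ) * (D * M k * M k ^ D)) * S.dl (1 - D * (c0 - cn)) k := by
          rw [add_mul]
          linarith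
        exact c5.trans (up _ _ _ (by linarith)))
  refine ⟨f, hf, ?_⟩
  filter_upwards [hf'] with k hk
  refine le_trans (le_of_eq ?_) hk
  have e1 : ∀ j, Setoid.ker (((cpD s cn l K).p2.vv (l.pj.vv s.P)).cellv 1 j) =
      Setoid.comap ((cpD s cn l K).p2.π j) (Setoid.comap (l j).p.π (Setoid.ker (s.P.cellv 1 j))) := by
    intro j
    have e2 : ((cpD s cn l K).p2.vv (l.pj.vv s.P)).cellv 1 j = fun w => s.P.cellv 1 j ((l j).p.π w.2) := by
      funext w
      unfold Sp.VV.cellv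
      rw [cp_dl]
      rfl
    rw [e2]
    rfl
  simp only [e1]

/-- THE LEAK OF THE PAIR is at most `(D + 2) (c0 - cn)` if the point is full in the slab and the sheet -/
theorem Fg.leak {c0 cn : ℝ} (x : Fg s l lam D iy iR iz) (h0 : 0 ≤ cn) (hc : cn ≤ c0) (hc0 : c0 < 1)
    (hlam : lam ≤ 1) (hl : DMc s c0 l) (K : ∀ k, Setoid (l k).T.Ω)
    (hKA : Nul S (fun k => I (fc (K k) : FL (l k).T) (l k).p.top ((l k).p.map (cA s cn k))))
    (hKV : ∀ k ω ω', (l k).V ω ω' → K k ω ω') (hKn : Kn1 s cn l K iy) (hcov : ∀ i, i = iy ∨ i = iR ∨ i = iz)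
    (hfull : (1 - c0) + (1 - lam) ≤ ul (l.sp.rt (fun k => Setoid.comap (l k).p.π (Setoid.ker (s.P.cellv 1 k)))
      (fun k => (l k).V ⊓ Setoid.comap (l k).p.π (Setoid.ker (s.t.cellv 1 k))))) (e : ℝ) (he : 0 < e) :
    ∀ᶠ k in UF, pleak (l k) (K k) (wA s cn k) (cB s k) ≤ ((D + 2) * (c0 - cn) + e) * (S.F k).n := by
  obtain ⟨f, hf, hf'⟩ := x.cnt h0 hc hc0 hlam hl K hKA hKV hKn hcov
  obtain ⟨Kc, hKc, hKc'⟩ := hKn
  have h1 := pleak_rate s cn l K hl (fun k => fc_mono (fun ω ω' h => hKV k ω ω' h)) h0 (hc.trans hc0.le) hKA Kc hKc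
    (by
      filter_upwards [hKc'] with k hk ω ω' a a' b z
      exact (hk ω ω' a a' b z).1) _ _ hfull f hf hf' e he
  filter_upwards [h1] with k hk
  refine hk.trans (le_of_eq ?_)
  congr 1
  ring

end

end Pool.Agent.Helper51.LP
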