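import Pool.Agent.Helper51.LP.FlC
import Pool.Agent.Helper80.MX.Rich
import Pool.Agent.Helper31.EC.Uns

/-! FLAG SPEED (39c (4.2)): where the slabs of the two copies are transversal the direction is known to the pair of
labels and the point; richness bounds the probability of this event. -/

set_option autoImplicit false

namespace Pool.Agent.Helper51.LP

open Finset Filter Topology MvPolynomial Pool.Agent.Helper69.RK Pool.Agent.Helper31.EC Pool.Agent.Helper40.EL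
open Pool.Agent.Helper3.LF Pool.Agent.Helper89.LX Pool.Agent.Helper59.LF Pool.Agent.Helper80.MX

noncomputable section

variable {S : Sp} {m : ℕ} {s : Sys S m} {l : Lab S} {lam : ℝ} {D : ℕ} {iy iR iz : Fin m}

/-- the constant -/
def cE (m D : ℕ) (M : ℝ) : ℝ := 2 * M + (1 + m * M) * (((m + 1 : ℕ) : ℝ) * (D * (D * M) * M ^ D)) +
  m * (D * M * M ^ D) * (2 * M + 8 * M ^ 2 + 8 * M) + (2 * M + 8 * M ^ 2 + 8 * M)

theorem PF.dir {x : Fg s l lam D iy iR iz} {c0 cn r M : ℝ} {k : ℕ} {ω1 ω2 ω1' ω2' : (l k).T.Ω}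
    (h : PF x c0 cn r M k ω1 ω2) (h' : PF x c0 cn r M k ω1' ω2') (hM : 1 ≤ M) (hcov : ∀ i, i = iy ∨ i = iR ∨ i = iz)
    (e1 : x.b1 k ω1 = x.b1 k ω1' ∧ x.al k ω1 = x.al k ω1')
    (e2 : x.b1 k ω2 = x.b1 k ω2' ∧ x.al k ω2 = x.al k ω2' ∧ x.Q k ω2 = x.Q k ω2')
    (hp : ∀ i, |ptf s k ((l k).p.π ω2') i - ptf s k ((l k).p.π ω2) i| ≤ S.dl 1 k) (u : ℝ)
    (hE : S.dl (lam - u - cn) k ≤ |x.al k ω1 - x.al k ω2|)
    (hu1 : u - (c0 - cn) - (r - cn) ≤ lam - c0) (hu2 : u - (c0 - cn) - (r - cn) ≤ 1 - c0) (hu3 : u - (c0 - cn) - (r - cn) ≤ 1) :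
    ∀ i, |lx s l k ω2' i - lx s l k ω2 i| ≤ cE m D M * S.dl (u - (c0 - cn) - (r - cn)) k := by
  obtain ⟨ρ, hρ⟩ : ∃ ρ, ρ = u - (c0 - cn) - (r - cn) := ⟨_, rfl⟩
  rw [← hρ] at hu1 hu2 hu3 ⊢
  have hdρ := S.dl_pos ρ k
  have hM0 : 0 ≤ M := by linarith
  -- the coordinate y
  obtain ⟨s1, -⟩ := slab_diff _ _ _ _ _ _ _ _ _ _ _ _ _ h.f1 h.f2 h.f3 h.f4
  obtain ⟨s1', -⟩ := slab_diff _ _ _ _ _ _ _ _ _ _ _ _ _ h'.f1 h'.f2 h'.f3 h'.f4
  rw [← e1.1, ← e1.2, ← e2.1, ← e2.2.1] at s1'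
  have t1 : S.dl r k * |(x.b1 k ω1 - x.b1 k ω2) + (x.al k ω1 - x.al k ω2) * lx s l k ω2 iy| ≤
      4 * (M * S.dl (lam - (c0 - cn)) k) :=
    (mul_le_mul_of_nonneg_right h.f8 (abs_nonneg _)).trans s1
  have t1' : S.dl r k * |(x.b1 k ω1 - x.b1 k ω2) + (x.al k ω1 - x.al k ω2) * lx s l k ω2' iy| ≤
      4 * (M * S.dl (lam - (c0 - cn)) k) :=
    (mul_le_mul_of_nonneg_right h'.f8 (abs_nonneg _)).trans s1'
  have a1 := dir_y _ _ _ _ (S.dl r k) (S.dl (lam - u - cn) k) _ (S.dl_pos _ k) hE (S.dl_pos r k) t1 t1'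
  have a2 : 2 * (4 * (M * S.dl (lam - (c0 - cn)) k)) / (S.dl r k * S.dl (lam - u - cn) k) = 8 * M * S.dl ρ k := by
    rw [div_eq_iff (by have := S.dl_pos r k; have := S.dl_pos (lam - u - cn) k; positivity), ← S.dl_add]
    have : S.dl (lam - (c0 - cn)) k = S.dl ρ k * S.dl (r + (lam - u - cn)) k := by
      rw [← S.dl_add]
      congr 1
      rw [hρ]; ring
    rw [this]
    ring
  rw [a2] at a1
  -- the coordinate R
  have b1 := h.f5
  have b2 := h'.f5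
  rw [← e2.1, ← e2.2.1] at b2
  have b3 : M * S.dl (lam - c0) k ≤ M * S.dl ρ k := mul_le_mul_of_nonneg_left (S.dl_anti hu1 k) hM0
  have b4 : |x.al k ω2 * (lx s l k ω2' iy - lx s l k ω2 iy)| ≤ M * (8 * M * S.dl ρ k) := by
    rw [abs_mul]
    exact mul_le_mul h.g2.2.2 a1 (abs_nonneg _) hM0
  have b5 : |lx s l k ω2' iR - lx s l k ω2 iR| ≤ (2 * M + 8 * M ^ 2) * S.dl ρ k := by
    rw [abs_le] at b1 b2 b4 ⊢
    constructor <;> nlinarith [b1.1, b1.2, b2.1, b2.2, b4.1, b4.2]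
  -- bounds for y and R together
  have hg0 : 0 ≤ (2 * M + 8 * M ^ 2 + 8 * M) * S.dl ρ k := by positivity
  have hg : ∀ i, i ≠ iz → |lx s l k ω2' i - lx s l k ω2 i| ≤ (2 * M + 8 * M ^ 2 + 8 * M) * S.dl ρ k := by
    intro i hi
    rcases hcov i with rfl | rfl | rfl
    · refine a1.trans ?_
      apply mul_le_mul_of_nonneg_right _ hdρ.le
      nlinarith
    · refine b5.trans ?_
      apply mul_le_mul_of_nonneg_right _ hdρ.le
      nlinarith
    · exact absurd rfl hi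
  -- the coordinate z
  obtain ⟨q1, q2, q3⟩ := h.g4
  have h7 := h'.f7
  rw [← e2.2.2] at h7
  have hd1 := S.dl_pos 1 k
  have c1' := dir_z (x.Q k ω2) D q1 iz q3 M (S.dl 1 k) hM (ptf s k ((l k).p.π ω2)) (ptf s k ((l k).p.π ω2'))
    (fun i => by
      have := h.f10 i
      have := dl_one_le S k
      linarith) hp (lx s l k ω2) (lx s l k ω2') M ((2 * M + 8 * M ^ 2 + 8 * M) * S.dl ρ k) (M * S.dl (1 - c0) k)
    h.f9 hg hg0 h.f7 h7
  have c2 : M * S.dl (1 - c0) k ≤ M * S.dl ρ k := mul_le_mul_of_nonneg_left (S.dl_anti hu2 k) hM0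
  have c3 : (1 + m * M) * (((m + 1 : ℕ) : ℝ) * (D * (D * LP.c1 (x.Q k ω2)) * M ^ D) * S.dl 1 k) ≤
      (1 + m * M) * (((m + 1 : ℕ) : ℝ) * (D * (D * M) * M ^ D)) * S.dl ρ k := by
    rw [mul_assoc (1 + (m : ℝ) * M)]
    apply mul_le_mul_of_nonneg_left _ (by positivity)
    apply mul_le_mul _ (S.dl_anti hu3 k) hd1.le (by positivity)
    apply mul_le_mul_of_nonneg_left _ (Nat.cast_nonneg _)
    apply mul_le_mul_of_nonneg_right _ (by positivity)
    apply mul_le_mul_of_nonneg_left _ (Nat.cast_nonneg _)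
    exact mul_le_mul_of_nonneg_left q2 (Nat.cast_nonneg _)
  have c4 : m * (D * LP.c1 (x.Q k ω2) * M ^ D) * ((2 * M + 8 * M ^ 2 + 8 * M) * S.dl ρ k) ≤
      m * (D * M * M ^ D) * (2 * M + 8 * M ^ 2 + 8 * M) * S.dl ρ k := by
    rw [← mul_assoc]
    apply mul_le_mul_of_nonneg_right _ hdρ.le
    apply mul_le_mul_of_nonneg_right _ (by positivity)
    apply mul_le_mul_of_nonneg_left _ (Nat.cast_nonneg _)
    apply mul_le_mul_of_nonneg_right _ (by positivity)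
    exact mul_le_mul_of_nonneg_left q2 (Nat.cast_nonneg _)
  have c5 : 0 ≤ (1 + m * M) * (((m + 1 : ℕ) : ℝ) * (D * (D * M) * M ^ D)) * S.dl ρ k := by positivity
  have c6 : 0 ≤ m * (D * M * M ^ D) * (2 * M + 8 * M ^ 2 + 8 * M) * S.dl ρ k := by positivity
  have c7 : 0 ≤ 2 * M * S.dl ρ k := by positivity
  intro i
  unfold cE
  rw [add_mul, add_mul, add_mul]
  by_cases hi : i = iz
  · subst hi
    linarith
  · have := hg i hi
    linarith

/-- informations on events, finite form -/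
theorem fin_I_rest (F : FSp) (E : F.Ω → Prop) (X B V : Setoid F.Ω) :
    F.pb E * ((F.rest E).e X B - (F.rest E).e X (V ⊓ B)) ≤ (F.e X B - F.e X (V ⊓ B)) + 1 := by
  have h1 := (F.e_split E X B).1
  have h2 := (F.e_split E X (V ⊓ B)).2
  have h3 : (F.rest (fun ω => ¬ E ω)).e X (V ⊓ B) ≤ (F.rest (fun ω => ¬ E ω)).e X B :=
    (F.rest (fun ω => ¬ E ω)).e_anti (fun _ _ _ _ h => h.2)
  have h4 : 0 ≤ 1 - F.pb E := by have := F.pb_le_one E; linarith
  have key : ∀ a b c d e f p : ℝ, p * a + (1 - p) * b ≤ c → d ≤ p * e + (1 - p) * f + 1 → f ≤ b → 0 ≤ 1 - p →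
      p * (a - e) ≤ (c - d) + 1 := by
    intro a b c d e f p k1 k2 k3 k4
    have k5 := mul_le_mul_of_nonneg_left k3 k4
    linarith
  exact key _ _ _ _ _ _ _ h1 h2 h3 h4

variable (s l) in
/-- the partition of the pair of labels and the second point -/
def vB (cn : ℝ) (K : ∀ k, Setoid (l k).T.Ω) (k : ℕ) : Setoid ((cpD s cn l K).sp.F k).Ω :=
  (Setoid.comap ((cpD s cn l K).p1.π k) (l k).V ⊓ Setoid.comap ((cpD s cn l K).p2.π k) (l k).V) ⊓
    Setoid.comap ((cpD s cn l K).p2.π k) (Setoid.comap (l k).p.π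
      (Setoid.ker (s.P.cellv 1 k) ⊓ Setoid.ker (s.t.cellv 1 k)))

/-- the transversal event -/
def tE (x : Fg s l lam D iy iR iz) (cn : ℝ) (K : ∀ k, Setoid (l k).T.Ω) (u : ℝ) (k : ℕ)
    (w : ((cpD s cn l K).sp.F k).Ω) : Prop := S.dl (lam - u - cn) k ≤ |x.al k w.1 - x.al k w.2|

/-- THE TRANSVERSAL EVENT HAS SMALL PROBABILITY -/
theorem Fg.tr {c0 cn : ℝ} (x : Fg s l lam D iy iR iz) (h0 : 0 ≤ cn) (hc : cn ≤ c0) (hc0 : c0 < 1)
    (hlam : lam ≤ 1) (hl : DMc s c0 l) (K : ∀ k, Setoid (l k).T.Ω)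
    (hKA : Nul S (fun k => I (fc (K k) : FL (l k).T) (l k).p.top ((l k).p.map (cA s cn k))))
    (hKV : ∀ k ω ω', (l k).V ω ω' → K k ω ω') (hKn : Kn1 s cn l K iy) (hcov : ∀ i, i = iy ∨ i = iR ∨ i = iz)
    (hfull : (1 - c0) + (1 - lam) ≤ ul (l.sp.rt (fun k => Setoid.comap (l k).p.π (Setoid.ker (s.P.cellv 1 k)))
      (fun k => (l k).V ⊓ Setoid.comap (l k).p.π (Setoid.ker (s.t.cellv 1 k)))))
    {g : ℝ} (hg : Rich s g) (hg0 : 0 ≤ g) (u : ℝ) (hu1 : u ≤ lam - cn) :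
    ul ((cpD s cn l K).sp.pr (tE x cn K u)) * (g * (u - (c0 - cn))) ≤ (D + 2) * (c0 - cn) := by
  obtain ⟨W, hW⟩ : ∃ W, W = (cpD s cn l K).sp := ⟨_, rfl⟩
  have hδ : 0 ≤ c0 - cn := by linarith
  have hp0 : 0 ≤ ul ((cpD s cn l K).sp.pr (tE x cn K u)) :=
    const_le_ul (Sp.UB_pr _) (Eventually.of_forall fun k => Sp.pr_nonneg _ k)
  have hp1 : ul ((cpD s cn l K).sp.pr (tE x cn K u)) ≤ 1 := Sp.ul_pr_le_one _
  rcases hp0.eq_or_lt with hz | hpos
  · rw [← hz, zero_mul]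
    positivity
  -- for every small e
  apply le_of_forall_pos_le_add
  intro e he
  obtain ⟨r, hr⟩ : ∃ r, r = cn + min ((1 - cn) / 2) (e / (2 * (g + 1))) := ⟨_, rfl⟩
  have hm0 : 0 < min ((1 - cn) / 2) (e / (2 * (g + 1))) := lt_min (by linarith) (by positivity)
  have hm1 : min ((1 - cn) / 2) (e / (2 * (g + 1))) ≤ (1 - cn) / 2 := min_le_left _ _
  have hm2 : min ((1 - cn) / 2) (e / (2 * (g + 1))) ≤ e / (2 * (g + 1)) := min_le_right _ _
  have hrc : cn < r := by linarith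
  have hr1 : r ≤ 1 := by linarith
  have hge : g * (r - cn) ≤ e / 2 := by
    have h1 : r - cn ≤ e / (2 * (g + 1)) := by linarith
    have h2 : g * (r - cn) ≤ (g + 1) * (e / (2 * (g + 1))) :=
      mul_le_mul (by linarith) h1 (by linarith) (by linarith)
    have h3 : (g + 1) * (e / (2 * (g + 1))) = e / 2 := by field_simp
    linarith
  obtain ⟨ρ, hρ⟩ : ∃ ρ, ρ = u - (c0 - cn) - (r - cn) := ⟨_, rfl⟩
  rcases le_or_gt ρ 0 with hρ0 | hρ0
  · have h1 : u - (c0 - cn) ≤ r - cn := by linarith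
    have h2 : g * (u - (c0 - cn)) ≤ e / 2 := (mul_le_mul_of_nonneg_left h1 hg0).trans hge
    have h3 : 0 ≤ (D + 2 : ℝ) * (c0 - cn) := by positivity
    nlinarith
  obtain ⟨M, hM, hM1, hT⟩ := x.pair h0 hc hc0 hlam hl K r hrc hr1 hKA
  have hcE : S.Sub (fun k => cE m D (M k)) := by
    unfold cE
    have hMm : ∀ c : ℝ, 0 ≤ c → S.Sub (fun k => c * M k) := fun c hc => (S.Sub_const hc).mul hM
    have h2 : S.Sub (fun k => 2 * M k) := hMm 2 (by norm_num)
    have h3 : S.Sub (fun k => 2 * M k + 8 * M k ^ 2 + 8 * M k) :=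
      (h2.add ((S.Sub_const (by norm_num)).mul (Sub_powN hM 2))).add (hMm 8 (by norm_num))
    have h4 : S.Sub (fun k => (1 + m * M k) * (((m + 1 : ℕ) : ℝ) * (D * (D * M k) * M k ^ D))) :=
      ((S.Sub_const zero_le_one).add (hMm m (Nat.cast_nonneg _))).mul ((S.Sub_const (Nat.cast_nonneg _)).mul
        (((S.Sub_const (Nat.cast_nonneg _)).mul (hMm D (Nat.cast_nonneg _))).mul (Sub_powN hM D)))
    have h5 : S.Sub (fun k => m * (D * M k * M k ^ D) * (2 * M k + 8 * M k ^ 2 + 8 * M k)) :=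
      ((S.Sub_const (Nat.cast_nonneg _)).mul ((hMm D (Nat.cast_nonneg _)).mul (Sub_powN hM D))).mul h3
    exact ((h2.add h4).add h5).add h3
  -- the direction in the restricted space
  obtain ⟨f, hf, hf'⟩ := Sp.ul_rt_cell_le (S := (cpD s cn l K).sp.rest (tE x cn K u))
    (Sp.VV.rest (tE x cn K u) ((cpD s cn l K).p2.vv (l.pj.vv s.x))) ρ 0 le_rfl (vB s l cn K)
    (fun k (w : ((cpD s cn l K).sp.F k).Ω) => PF x c0 cn r (M k) k w.1 w.2) (hT.rest _ hpos)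
    (fun k => cE m D (M k)) (by
      have := (cp_Sub s cn l K).mpr hcE
      exact this) (by
      have hne : ∀ᶠ k in UF, (cpD s cn l K).sp.pr (tE x cn K u) k ≠ 0 := by
        filter_upwards [eventually_gt_of_lt_ul (Sp.UB_pr _) hpos] with k hk using hk.ne'
      filter_upwards [hne, x.meas, hM1] with k n1 n2 n3 w w' hw hw' e1 e2 ge i
      obtain ⟨a1, a2⟩ := ((cpD s cn l K).sp.F k).rest_supp (tE x cn K u k) w hw
      obtain ⟨a1', a2'⟩ := ((cpD s cn l K).sp.F k).rest_supp (tE x cn K u k) w' hw'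
      obtain ⟨⟨⟨g1, g2⟩, g3⟩, g4⟩ := ge
      have g1' : (l k).V w.1 w'.1 := g1
      have g2' : (l k).V w.2 w'.2 := g2
      have g3' : s.P.cellv 1 k ((l k).p.π w.2) = s.P.cellv 1 k ((l k).p.π w'.2) := g3.1
      have g3'' : s.t.cellv 1 k ((l k).p.π w.2) = s.t.cellv 1 k ((l k).p.π w'.2) := g3.2
      have g4' : (l k).T.Z w.1 w'.1 := g4
      obtain ⟨u1, u2, u3, u4, -⟩ := cp_supp s cn l K k w a1
      obtain ⟨u1', u2', u3', u4', -⟩ := cp_supp s cn l K k w' a1'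
      have z2 : (l k).T.Z w.2 w'.2 := (l k).T.Z.trans ((l k).T.Z.trans ((l k).T.Z.symm u4) g4') u4'
      obtain ⟨-, v2, v3, v4⟩ := n2 w.1 w'.1 u1 u1' g1' g4'
      obtain ⟨-, v2', v3', v4'⟩ := n2 w.2 w'.2 u2 u2' g2' z2
      have hd := PF.dir e1 e2 n3 hcov ⟨v2, v3⟩ ⟨v2', v3', v4'⟩ (by
        intro i
        refine Fin.cases ?_ (fun j => ?_) i
        · show |s.t.v k ((l k).p.π w'.2) 0 - s.t.v k ((l k).p.π w.2) 0| ≤ S.dl 1 k
          exact s.t.cellv_close 1 k _ _ g3''.symm 0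
        · show |s.P.v k ((l k).p.π w'.2) j - s.P.v k ((l k).p.π w.2) j| ≤ S.dl 1 k
          exact s.P.cellv_close 1 k _ _ g3'.symm j) u (a2 n1) (by rw [← hρ]; linarith) (by rw [← hρ]; linarith)
          (by rw [← hρ]; linarith) i
      rw [← hρ] at hd
      have e5 : ((cpD s cn l K).sp.rest (tE x cn K u)).dl (ρ - 0) k = S.dl ρ k := by
        rw [sub_zero]
        exact cp_dl s cn l K ρ k
      rw [e5, abs_sub_comm]
      exact hd)
  -- richness
  have hrich := hg.restL_ge ((cpD s cn l K).p2.comp l.pj) (tE x cn K u) hpos hρ0.le (show ρ ≤ 1 by linarith)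
  have hrich2 : g * ρ ≤ ul (((cpD s cn l K).sp.rest (tE x cn K u)).rt
      (fun k => Setoid.comap ((cpD s cn l K).p2.π k) (Setoid.comap (l k).p.π (Setoid.ker (s.x.cellv ρ k))))
      (fun k => Setoid.comap ((cpD s cn l K).p2.π k) (Setoid.comap (l k).p.π
        (Setoid.ker (s.P.cellv 1 k) ⊓ Setoid.ker (s.t.cellv 1 k))))) := by
    rw [← s.cl_Ix, ← cl_B, Pj.map_cl, Pj.map_cl, Sp.restL_cl, Sp.restL_cl, Sp.h_cl] at hrich
    exact hrich
  have hUBa : UB (((cpD s cn l K).sp.rest (tE x cn K u)).rt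
      (fun k => Setoid.comap ((cpD s cn l K).p2.π k) (Setoid.comap (l k).p.π (Setoid.ker (s.x.cellv ρ k))))
      (fun k => Setoid.comap ((cpD s cn l K).p2.π k) (Setoid.comap (l k).p.π
        (Setoid.ker (s.P.cellv 1 k) ⊓ Setoid.ker (s.t.cellv 1 k))))) :=
    Sp.UB_rt (Sp.restI (tE x cn K u) ((cpD s cn l K).p2.comp l.pj |>.mapI (s.Ix ρ))) _
  have tP := ul_tendsto (Sp.UB_pr (S := (cpD s cn l K).sp) (tE x cn K u))
  have ta := ul_tendsto hUBa
  rw [mul_zero] at hf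
  have tn : Tendsto (fun k => 1 / (S.F k).n) UF (𝓝 0) := S.div_n_tendsto 1
  have hleak := x.leak h0 hc hc0 hlam hl K hKA hKV hKn hcov hfull (e / 2) (by linarith)
  have tl := tP.mul (ta.sub hf)
  rw [sub_zero] at tl
  have tr : Tendsto (fun k => ((D + 2) * (c0 - cn) + e / 2) + 1 / (S.F k).n) UF
      (𝓝 (((D + 2) * (c0 - cn) + e / 2) + 0)) := tn.const_add _
  have hfin := le_of_tendsto_of_tendsto tl tr (by
    filter_upwards [hf', hleak] with k k1 k2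
    have hn := (S.F k).pos
    have hnn : ((cpD s cn l K).sp.F k).n = (S.F k).n := (l k).hn
    obtain ⟨F, hF⟩ : ∃ F, F = (cpD s cn l K).sp.F k := ⟨_, rfl⟩
    have j1 := fin_I_rest ((cpD s cn l K).sp.F k) (tE x cn K u k)
      (Setoid.comap ((cpD s cn l K).p2.π k) (Setoid.comap (l k).p.π (Setoid.ker (s.x.cellv ρ k))))
      (Setoid.comap ((cpD s cn l K).p2.π k) (Setoid.comap (l k).p.π
        (Setoid.ker (s.P.cellv 1 k) ⊓ Setoid.ker (s.t.cellv 1 k))) ⊓ ((cpD s cn l K).sp.F k).Z)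
      (Setoid.comap ((cpD s cn l K).p1.π k) (l k).V ⊓ Setoid.comap ((cpD s cn l K).p2.π k) (l k).V)
    have j2 : ((cpD s cn l K).sp.F k).e
        (Setoid.comap ((cpD s cn l K).p2.π k) (Setoid.comap (l k).p.π (Setoid.ker (s.x.cellv ρ k))))
        (Setoid.comap ((cpD s cn l K).p2.π k) (Setoid.comap (l k).p.π
          (Setoid.ker (s.P.cellv 1 k) ⊓ Setoid.ker (s.t.cellv 1 k))) ⊓ ((cpD s cn l K).sp.F k).Z) -
        ((cpD s cn l K).sp.F k).e
        (Setoid.comap ((cpD s cn l K).p2.π k) (Setoid.comap (l k).p.π (Setoid.ker (s.x.cellv ρ k))))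
        ((Setoid.comap ((cpD s cn l K).p1.π k) (l k).V ⊓ Setoid.comap ((cpD s cn l K).p2.π k) (l k).V) ⊓
        (Setoid.comap ((cpD s cn l K).p2.π k) (Setoid.comap (l k).p.π
          (Setoid.ker (s.P.cellv 1 k) ⊓ Setoid.ker (s.t.cellv 1 k))) ⊓ ((cpD s cn l K).sp.F k).Z)) ≤
        pleak (l k) (K k) (wA s cn k) (cB s k) := by
      have i1 : I ((cD (l k) (K k) (wA s cn k)).p1.map (l k).v ⊔ (cD (l k) (K k) (wA s cn k)).p2.map (l k).v)
          ((cD (l k) (K k) (wA s cn k)).p2.map ((l k).p.map (fc (Setoid.ker (s.x.cellv ρ k)))))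
          ((cD (l k) (K k) (wA s cn k)).p2.map ((l k).p.map (cB s k))) ≤
          pleak (l k) (K k) (wA s cn k) (cB s k) :=
        I_mono_right (((cD (l k) (K k) (wA s cn k)).p2.map_mono ((l k).p.map_le_top _)).trans le_sup_left)
      rw [I_eq'] at i1
      refine le_trans (le_of_eq ?_) i1
      congr 1
      · exact (h_fc _ _).symm
      · rw [← inf_assoc]
        exact (h_fc _ _).symm
    have j3 : ((cpD s cn l K).sp.rest (tE x cn K u)).rt (fun k => Setoid.ker ((Sp.VV.rest (tE x cn K u)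
        ((cpD s cn l K).p2.vv (l.pj.vv s.x))).cellv ρ k)) (vB s l cn K) k =
        (((cpD s cn l K).sp.F k).rest (tE x cn K u k)).e
        (Setoid.comap ((cpD s cn l K).p2.π k) (Setoid.comap (l k).p.π (Setoid.ker (s.x.cellv ρ k))))
        ((Setoid.comap ((cpD s cn l K).p1.π k) (l k).V ⊓ Setoid.comap ((cpD s cn l K).p2.π k) (l k).V) ⊓
        (Setoid.comap ((cpD s cn l K).p2.π k) (Setoid.comap (l k).p.π
          (Setoid.ker (s.P.cellv 1 k) ⊓ Setoid.ker (s.t.cellv 1 k))) ⊓ ((cpD s cn l K).sp.F k).Z)) / (S.F k).n := by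
      have i2 : (Sp.VV.rest (tE x cn K u) ((cpD s cn l K).p2.vv (l.pj.vv s.x))).cellv ρ k =
          fun w => s.x.cellv ρ k ((l k).p.π w.2) := by
        funext w
        unfold Sp.VV.cellv
        rw [show ((cpD s cn l K).sp.rest (tE x cn K u)).dl ρ k = S.dl ρ k from cp_dl s cn l K ρ k]
        rfl
      unfold Sp.rt
      rw [show (((cpD s cn l K).sp.rest (tE x cn K u)).F k).n = (S.F k).n from (l k).hn]
      beta_reduce
      rw [i2]
      exact congrArg (fun T : Setoid ((cpD s cn l K).sp.F k).Ω => (((cpD s cn l K).sp.F k).rest (tE x cn K u k)).e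
        (Setoid.comap ((cpD s cn l K).p2.π k) (Setoid.comap (l k).p.π (Setoid.ker (s.x.cellv ρ k)))) T / (S.F k).n)
        (inf_assoc (Setoid.comap ((cpD s cn l K).p1.π k) (l k).V ⊓ Setoid.comap ((cpD s cn l K).p2.π k) (l k).V)
        (Setoid.comap ((cpD s cn l K).p2.π k) (Setoid.comap (l k).p.π
          (Setoid.ker (s.P.cellv 1 k) ⊓ Setoid.ker (s.t.cellv 1 k)))) ((cpD s cn l K).sp.F k).Z)
    have j4 : ((cpD s cn l K).sp.rest (tE x cn K u)).rt
        (fun k => Setoid.comap ((cpD s cn l K).p2.π k) (Setoid.comap (l k).p.π (Setoid.ker (s.x.cellv ρ k))))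
        (fun k => Setoid.comap ((cpD s cn l K).p2.π k) (Setoid.comap (l k).p.π
        (Setoid.ker (s.P.cellv 1 k) ⊓ Setoid.ker (s.t.cellv 1 k)))) k =
        (((cpD s cn l K).sp.F k).rest (tE x cn K u k)).e
        (Setoid.comap ((cpD s cn l K).p2.π k) (Setoid.comap (l k).p.π (Setoid.ker (s.x.cellv ρ k))))
        (Setoid.comap ((cpD s cn l K).p2.π k) (Setoid.comap (l k).p.π
        (Setoid.ker (s.P.cellv 1 k) ⊓ Setoid.ker (s.t.cellv 1 k))) ⊓ ((cpD s cn l K).sp.F k).Z) / (S.F k).n := by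
      unfold Sp.rt
      rw [show (((cpD s cn l K).sp.rest (tE x cn K u)).F k).n = (S.F k).n from (l k).hn]
      rfl
    rw [j3] at k1
    rw [j4]
    have j5 : ((cpD s cn l K).sp.pr (tE x cn K u) k) = ((cpD s cn l K).sp.F k).pb (tE x cn K u k) := rfl
    rw [j5]
    have j6 : 0 ≤ ((cpD s cn l K).sp.F k).pb (tE x cn K u k) := FSp.pb_nonneg _ _
    -- finite inequality
    have l1 := j1.trans (add_le_add_left (j2.trans k2) 1)
    have l2 := div_le_div_of_nonneg_right l1 hn.le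
    have l3 : (((D : ℝ) + 2) * (c0 - cn) + e / 2) * (S.F k).n / (S.F k).n = ((D : ℝ) + 2) * (c0 - cn) + e / 2 :=
      mul_div_cancel_right₀ _ hn.ne'
    rw [add_div, l3] at l2
    refine le_trans ?_ l2
    rw [mul_div_assoc]
    apply mul_le_mul_of_nonneg_left _ j6
    rw [sub_div]
    exact sub_le_sub_left k1 _)
  have hz1 : ul ((cpD s cn l K).sp.pr (tE x cn K u)) * (g * ρ) ≤ (D + 2) * (c0 - cn) + e / 2 := by
    refine (mul_le_mul_of_nonneg_left hrich2 hp0).trans ?_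
    rw [add_zero] at hfin
    exact hfin
  have hz2 : g * (u - (c0 - cn)) = g * ρ + g * (r - cn) := by rw [hρ]; ring
  rw [hz2, mul_add]
  have hz3 : ul ((cpD s cn l K).sp.pr (tE x cn K u)) * (g * (r - cn)) ≤ 1 * (e / 2) :=
    mul_le_mul hp1 hge (mul_nonneg hg0 (by linarith)) zero_le_one
  linarith

end

end Pool.Agent.Helper51.LP
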