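import Pool.Agent.Helper51.LP.FlE
import Pool.Agent.Helper52.KP.Agr

/-! FLAG SPEED (39c (4.2)): outside of the transversal event the slabs of the two copies agree. -/

set_option autoImplicit false

namespace Pool.Agent.Helper51.LP

open Finset Filter Topology MvPolynomial Pool.Agent.Helper69.RK Pool.Agent.Helper31.EC Pool.Agent.Helper40.EL
open Pool.Agent.Helper3.LF Pool.Agent.Helper89.LX Pool.Agent.Helper59.LF Pool.Agent.Helper80.MX

noncomputable section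

variable {S : Sp} {m : ℕ} {s : Sys S m} {l : Lab S} {lam : ℝ} {D : ℕ} {iy iR iz : Fin m}

/-- the slabs of two points agree near the second point -/
def RR (x : Fg s l lam D iy iR iz) (cn u M : ℝ) (k : ℕ) (ω1 ω2 : (l k).T.Ω) : Prop :=
  |x.al k ω1 - x.al k ω2| ≤ M * S.dl (lam - u - cn) k ∧ |x.b1 k ω1 - x.b1 k ω2| ≤ M * S.dl (lam - u - cn) k ∧
    |(x.b0 k ω1 + x.b1 k ω1 * lt s l k ω2 + x.al k ω1 * (la s l k ω2 iy + lt s l k ω2 * lx s l k ω2 iy)) -
      (x.b0 k ω2 + x.b1 k ω2 * lt s l k ω2 + x.al k ω2 * (la s l k ω2 iy + lt s l k ω2 * lx s l k ω2 iy))| ≤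
      M * S.dl (lam - u) k

theorem PF.rel {x : Fg s l lam D iy iR iz} {c0 cn r M : ℝ} {k : ℕ} {ω1 ω2 : (l k).T.Ω}
    (h : PF x c0 cn r M k ω1 ω2) (hM : 1 ≤ M) (u : ℝ)
    (hE : |x.al k ω1 - x.al k ω2| ≤ S.dl (lam - u - cn) k) (hc : cn ≤ r) (hu : (c0 - cn) + (r - cn) ≤ u) :
    RR x cn u (5 * M) k ω1 ω2 := by
  have hM0 : 0 ≤ M := by linarith
  have hd := S.dl_pos (lam - u - cn) k
  have hr := S.dl_pos r k
  obtain ⟨s1, s2⟩ := slab_diff _ _ _ _ _ _ _ _ _ _ _ _ _ h.f1 h.f2 h.f3 h.f4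
  have t1 : S.dl r k * |(x.b1 k ω1 - x.b1 k ω2) + (x.al k ω1 - x.al k ω2) * lx s l k ω2 iy| ≤
      4 * (M * S.dl (lam - (c0 - cn)) k) :=
    (mul_le_mul_of_nonneg_right h.f8 (abs_nonneg _)).trans s1
  have t2 : 4 * (M * S.dl (lam - (c0 - cn)) k) ≤ S.dl r k * (4 * M * S.dl (lam - u - cn) k) := by
    have e1 : S.dl (lam - (c0 - cn)) k ≤ S.dl r k * S.dl (lam - u - cn) k := by
      rw [← S.dl_add]
      apply S.dl_anti
      linarith
    have := mul_le_mul_of_nonneg_left e1 (show 0 ≤ 4 * M by linarith)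
    linarith
  have t3 : |(x.b1 k ω1 - x.b1 k ω2) + (x.al k ω1 - x.al k ω2) * lx s l k ω2 iy| ≤ 4 * M * S.dl (lam - u - cn) k :=
    le_of_mul_le_mul_left (t1.trans t2) hr
  have t4 : |(x.al k ω1 - x.al k ω2) * lx s l k ω2 iy| ≤ S.dl (lam - u - cn) k * M := by
    rw [abs_mul]
    exact mul_le_mul hE (h.f9 iy) (abs_nonneg _) hd.le
  have t5 : |x.b1 k ω1 - x.b1 k ω2| ≤ 5 * M * S.dl (lam - u - cn) k := by
    have e2 := abs_sub ((x.b1 k ω1 - x.b1 k ω2) + (x.al k ω1 - x.al k ω2) * lx s l k ω2 iy)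
      ((x.al k ω1 - x.al k ω2) * lx s l k ω2 iy)
    rw [add_sub_cancel_right] at e2
    linarith
  refine ⟨?_, t5, ?_⟩
  · refine hE.trans ?_
    have : 1 * S.dl (lam - u - cn) k ≤ 5 * M * S.dl (lam - u - cn) k :=
      mul_le_mul_of_nonneg_right (by linarith) hd.le
    linarith
  · refine s2.trans ?_
    have e1 : S.dl (lam - (c0 - cn)) k ≤ S.dl (lam - u) k := S.dl_anti (by linarith) k
    have e2 := S.dl_pos (lam - u) k
    have e3 := mul_le_mul_of_nonneg_left e1 (show 0 ≤ 2 * M by linarith)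
    nlinarith

/-- THE SLABS OF THE COPIES AGREE with probability at least that of the complement of the transversal event -/
theorem Fg.relp {c0 cn : ℝ} (x : Fg s l lam D iy iR iz) (h0 : 0 ≤ cn) (hc : cn ≤ c0) (hc0 : c0 < 1)
    (hlam : lam ≤ 1) (hl : DMc s c0 l) (K : ∀ k, Setoid (l k).T.Ω)
    (hKA : Nul S (fun k => I (fc (K k) : FL (l k).T) (l k).p.top ((l k).p.map (cA s cn k))))
    (u : ℝ) (hu : c0 - cn < u) : ∃ M : ℕ → ℝ, S.Sub M ∧ (∀ᶠ k in UF, 1 ≤ M k) ∧ ∀ e : ℝ, 0 < e → ∀ᶠ k in UF,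
      1 - ul ((cpD s cn l K).sp.pr (tE x cn K u)) - e ≤
        ((cpD s cn l K).sp.F k).pb (fun w => RR x cn u (M k) k w.1 w.2) := by
  obtain ⟨r, hr⟩ : ∃ r, r = cn + min ((1 - cn) / 2) (u - (c0 - cn)) := ⟨_, rfl⟩
  have hm0 : 0 < min ((1 - cn) / 2) (u - (c0 - cn)) := lt_min (by linarith) (by linarith)
  have hm1 : min ((1 - cn) / 2) (u - (c0 - cn)) ≤ (1 - cn) / 2 := min_le_left _ _
  have hm2 : min ((1 - cn) / 2) (u - (c0 - cn)) ≤ u - (c0 - cn) := min_le_right _ _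
  obtain ⟨M, hM, hM1, hT⟩ := x.pair h0 hc hc0 hlam hl K r (by linarith) (by linarith) hKA
  refine ⟨fun k => 5 * M k, (S.Sub_const (by norm_num)).mul hM, ?_, ?_⟩
  · filter_upwards [hM1] with k hk
    linarith
  intro e he
  have t1 := ul_tendsto (Sp.UB_pr (S := (cpD s cn l K).sp) (tE x cn K u))
  have t2 := (Sp.Typ_iff _).mp hT
  filter_upwards [t1.eventually (gt_mem_nhds (show ul ((cpD s cn l K).sp.pr (tE x cn K u)) <
      ul ((cpD s cn l K).sp.pr (tE x cn K u)) + e / 2 by linarith)),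
    t2.eventually (lt_mem_nhds (show 1 - e / 2 < 1 by linarith)), hM1] with k k1 k2 k3
  have j1 : ((cpD s cn l K).sp.F k).pb (tE x cn K u k) < ul ((cpD s cn l K).sp.pr (tE x cn K u)) + e / 2 := k1
  have j2 : 1 - e / 2 < ((cpD s cn l K).sp.F k).pb
      (fun (w : ((cpD s cn l K).sp.F k).Ω) => PF x c0 cn r (M k) k w.1 w.2) := k2
  have j3 := ((cpD s cn l K).sp.F k).pb_add_compl (tE x cn K u k)
  have j4 := ((cpD s cn l K).sp.F k).pb_and_ge
    (fun (w : ((cpD s cn l K).sp.F k).Ω) => PF x c0 cn r (M k) k w.1 w.2) (fun w => ¬ tE x cn K u k w)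
  have j5 : ((cpD s cn l K).sp.F k).pb (fun w => PF x c0 cn r (M k) k w.1 w.2 ∧ ¬ tE x cn K u k w) ≤
      ((cpD s cn l K).sp.F k).pb (fun w => RR x cn u (5 * M k) k w.1 w.2) := by
    apply FSp.pb_mono
    rintro w - ⟨a, b⟩
    have b' : ¬ (S.dl (lam - u - cn) k ≤ |x.al k w.1 - x.al k w.2|) := b
    exact a.rel k3 u (not_le.mp b').le (by linarith) (by linarith)
  linarith

end

end Pool.Agent.Helper51.LP
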