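import Pool.Agent.Helper51.LP.FlA
import Pool.Agent.Helper42.NS.PsiR

/-! FLAG SPEED (39c (4.2)): the thickness of the slab is Lipschitz in the window. -/

set_option autoImplicit false

namespace Pool.Agent.Helper51.LP

open Finset Filter Topology MvPolynomial Pool.Agent.Helper69.RK Pool.Agent.Helper31.EC Pool.Agent.Helper40.EL
open Pool.Agent.Helper3.LF Pool.Agent.Helper89.LX Pool.Agent.Helper59.LF Pool.Agent.Helper80.MX
open Pool.Agent.Helper91.GR Pool.Agent.Helper42.NS Pool.Agent.Helper52.KP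

noncomputable section

variable {S : Sp} {m : ℕ} {s : Sys S m} {l : Lab S} {lam : ℝ} {D : ℕ} {iy iR iz : Fin m}

/-- the coarser label -/
def lK (l : Lab S) (K : ∀ k, Setoid (l k).T.Ω) : Lab S := fun k => ⟨(l k).T, (l k).p, (l k).hn, K k⟩

theorem lK_DM {c0 cn : ℝ} (hl : DMc s c0 l) (K : ∀ k, Setoid (l k).T.Ω)
    (hKA : Nul S (fun k => I (fc (K k) : FL (l k).T) (l k).p.top ((l k).p.map (cA s cn k))))
    (hKV : ∀ k ω ω', (l k).V ω ω' → K k ω ω') : DMc s cn (lK l K) := by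
  refine ⟨hKA, hl.2.of_le (Eventually.of_forall fun k => FLab.leak_nonneg _ _) (Eventually.of_forall fun k => ?_)⟩
  have h1 : (fc (K k) : FL (l k).T) ≤ fc (l k).V := fc_mono (fun ω ω' h => hKV k ω ω' h)
  exact I_mono_left (h1.trans le_sup_left)

/-- adding a function of the label and a partition of the space -/
theorem leak_add_A {F : FSp} (l : FLab F) (W : Setoid l.T.Ω) (x : Setoid F.Ω)
    (hW : ∀ ω ω', l.T.Z ω ω' → l.V ω ω' → x (l.p.π ω) (l.p.π ω') → W ω ω') :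
    (fadd l W).leak (fc x) ≤ l.leak (fc x) := by
  refine (fadd_leak l W _).trans ?_
  have e1 : h (fc W) (l.v ⊔ l.p.map (fc x)) = 0 := by
    apply h_zero
    have e2 : l.v ⊔ l.p.map (fc x) = fc (l.V ⊓ Setoid.comap l.p.π x) := rfl
    rw [e2]
    apply fc_le
    intro ω ω' _ _ hZ hY
    exact hW ω ω' hZ hY.1 hY.2
  rw [e1, add_zero]

/-- adding a function which is almost known to a finer label -/
theorem leak_add_B {F : FSp} (T : FSp) (p : FPj T F) (hn : T.n = F.n) (V V' W : Setoid T.Ω)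
    (hV : ∀ ω ω', V ω ω' → V' ω ω') (x : FL F) :
    (fadd (⟨T, p, hn, V'⟩ : FLab F) W).leak x ≤ (⟨T, p, hn, V⟩ : FLab F).leak x + T.e W (V ⊓ T.Z) := by
  have e1 : (fadd (⟨T, p, hn, V'⟩ : FLab F) W).leak x ≤ (fadd (⟨T, p, hn, V⟩ : FLab F) W).leak x := by
    have e2 : (fc (V' ⊓ W) : FL T) ≤ fc (V ⊓ W) := fc_mono (fun ω ω' h => ⟨hV ω ω' h.1, h.2⟩)
    exact I_mono_left (e2.trans le_sup_left)
  refine e1.trans ((fadd_leak _ _ _).trans (add_le_add le_rfl ?_))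
  have e3 : h (fc W) ((⟨T, p, hn, V⟩ : FLab F).v ⊔ (⟨T, p, hn, V⟩ : FLab F).p.map x) ≤
      h (fc W) (fc V) := h_anti le_sup_left
  refine e3.trans (le_of_eq ?_)
  exact h_fc _ _

/-- coefficients of the rounded slab -/
def rv (x : Fg s l lam D iy iR iz) (cn u : ℝ) (K : ∀ k, Setoid (l k).T.Ω) (k : ℕ) (hat : (l k).T.Ω → (l k).T.Ω)
    (ω : (l k).T.Ω) : Cf (m + 1) :=
  ((rW x cn u K k hat ω 2 : ℝ) * S.dl (lam - u) k -
      (rW x cn u K k hat ω 1 : ℝ) * S.dl (lam - u - cn) k * lt s l k (crn l K k ω) -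
      (rW x cn u K k hat ω 0 : ℝ) * S.dl (lam - u - cn) k * s.P.v k ((l k).p.π (crn l K k ω)) iy,
    fun j => if j = 0 then (rW x cn u K k hat ω 1 : ℝ) * S.dl (lam - u - cn) k else
      if j = iy.succ then (rW x cn u K k hat ω 0 : ℝ) * S.dl (lam - u - cn) k else 0)

theorem rv_df (x : Fg s l lam D iy iR iz) (cn u : ℝ) (K : ∀ k, Setoid (l k).T.Ω) (k : ℕ) (hat : (l k).T.Ω → (l k).T.Ω)
    (ω : (l k).T.Ω) : df iR {0, iy.succ} (rv x cn u K k hat ω) (la s l k ω) (lx s l k ω) (lt s l k ω) =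
      s.P.v k ((l k).p.π ω) iR - ((rW x cn u K k hat ω 2 : ℝ) * S.dl (lam - u) k +
      (rW x cn u K k hat ω 1 : ℝ) * S.dl (lam - u - cn) k * (lt s l k ω - lt s l k (crn l K k ω)) +
      (rW x cn u K k hat ω 0 : ℝ) * S.dl (lam - u - cn) k *
        (s.P.v k ((l k).p.π ω) iy - s.P.v k ((l k).p.π (crn l K k ω)) iy)) := by
  have h0 : (0 : Fin (m + 1)) ≠ iy.succ := (Fin.succ_ne_zero iy).symm
  have h1 : ∑ j ∈ ({0, iy.succ} : Finset (Fin (m + 1))), (rv x cn u K k hat ω).2 j *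
      pl (la s l k ω) (lx s l k ω) (lt s l k ω) j =
      (rW x cn u K k hat ω 1 : ℝ) * S.dl (lam - u - cn) k * lt s l k ω +
      (rW x cn u K k hat ω 0 : ℝ) * S.dl (lam - u - cn) k * s.P.v k ((l k).p.π ω) iy := by
    rw [Finset.sum_pair h0, pl_zero, pl_succ]
    have e1 : (rv x cn u K k hat ω).2 0 = (rW x cn u K k hat ω 1 : ℝ) * S.dl (lam - u - cn) k := by
      unfold rv
      simp only [if_true]
    have e2 : (rv x cn u K k hat ω).2 iy.succ = (rW x cn u K k hat ω 0 : ℝ) * S.dl (lam - u - cn) k := by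
      unfold rv
      simp only [if_true, if_neg (Fin.succ_ne_zero iy)]
    rw [e1, e2]
    rfl
  unfold df aff
  rw [h1]
  have e3 : (rv x cn u K k hat ω).1 = (rW x cn u K k hat ω 2 : ℝ) * S.dl (lam - u) k -
      (rW x cn u K k hat ω 1 : ℝ) * S.dl (lam - u - cn) k * lt s l k (crn l K k ω) -
      (rW x cn u K k hat ω 0 : ℝ) * S.dl (lam - u - cn) k * s.P.v k ((l k).p.π (crn l K k ω)) iy := rfl
  rw [e3]
  have e4 : la s l k ω iR + lt s l k ω * lx s l k ω iR = s.P.v k ((l k).p.π ω) iR := rfl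
  rw [e4]
  ring

/-- SPEED OF THE SLAB, on an event: if the transversal event has probability less than one then there is a label of
the larger window with a slab of thickness `lam - u` -/
theorem Fg.agr {c0 cn : ℝ} (x : Fg s l lam D iy iR iz) (h0 : 0 ≤ cn) (hc : cn ≤ c0) (hc0 : c0 < 1)
    (hlam : lam ≤ 1) (hl : DMc s c0 l) (K : ∀ k, Setoid (l k).T.Ω)
    (hKA : Nul S (fun k => I (fc (K k) : FL (l k).T) (l k).p.top ((l k).p.map (cA s cn k))))
    (hKV : ∀ k ω ω', (l k).V ω ω' → K k ω ω') (hKn : Kn1 s cn l K iy)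
    (u : ℝ) (hu : c0 - cn < u) (hu1 : u ≤ lam - cn)
    (hp : ul ((cpD s cn l K).sp.pr (tE x cn K u)) < 1) :
    ∃ (E : ∀ k, (l.sp.F k).Ω → Prop) (hE : 0 < ul (l.sp.pr E)),
      HH (SJ iR {0, iy.succ}) (s.im l.pj E hE) cn (lam - u) := by
  have hu0 : 0 ≤ u := by linarith
  obtain ⟨M, hM, hM1, hR⟩ := x.relp h0 hc hc0 hlam hl K hKA u hu
  obtain ⟨Kc, hKc, hKc'⟩ := hKn
  obtain ⟨Ka, hKa, ha⟩ := s.a.bd
  obtain ⟨Kx, hKx, hx⟩ := s.x.bd
  obtain ⟨Kt, hKt, ht⟩ := s.t.bd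
  choose c hc1 hc2 using fun k => (cD (l k) (K k) (wA s cn k)).agree (fun ω ω' => RR x cn u (M k) k ω ω')
  obtain ⟨hat, hhat⟩ : ∃ hat : ∀ k, (l k).T.Ω → (l k).T.Ω, hat = fun k ω => c k ((cD (l k) (K k) (wA s cn k)).f ω) :=
    ⟨_, rfl⟩
  have hat_s : ∀ k ω, (l k).T.μ ω ≠ 0 → (l k).T.μ (hat k ω) ≠ 0 ∧ K k (hat k ω) ω ∧ (l k).T.Z (hat k ω) ω := by
    intro k ω hω
    obtain ⟨a1, a2⟩ := hc1 k ω hω
    rw [hhat]
    have a3 : Quotient.mk (cY (l k) (K k) (wA s cn k) ⊓ (l k).T.Z) (c k ((cD (l k) (K k) (wA s cn k)).f ω)) =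
        Quotient.mk (cY (l k) (K k) (wA s cn k) ⊓ (l k).T.Z) ω := a1
    have a4 : (cY (l k) (K k) (wA s cn k) ⊓ (l k).T.Z) (c k ((cD (l k) (K k) (wA s cn k)).f ω)) ω := Quotient.exact a3
    exact ⟨a2, a4.1.1, a4.2⟩
  have hat_e : ∀ k ω ω', K k ω ω' → wA s cn k ((l k).p.π ω) ((l k).p.π ω') → (l k).T.Z ω ω' → hat k ω = hat k ω' := by
    intro k ω ω' h1 h2 h3
    rw [hhat]
    have e : (cD (l k) (K k) (wA s cn k)).f ω = (cD (l k) (K k) (wA s cn k)).f ω' :=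
      Quotient.sound (s := cY (l k) (K k) (wA s cn k) ⊓ (l k).T.Z) ⟨⟨h1, h2⟩, h3⟩
    simp only
    rw [e]
  obtain ⟨E, hEd⟩ : ∃ E : ∀ k, (l.sp.F k).Ω → Prop, E = fun k ω => RR x cn u (M k) k ω (hat k ω) := ⟨_, rfl⟩
  obtain ⟨p0, hp0⟩ : ∃ p0, p0 = (1 - ul ((cpD s cn l K).sp.pr (tE x cn K u))) / 2 := ⟨_, rfl⟩
  have hp0' : 0 < p0 := by linarith
  have hpE : ∀ᶠ k in UF, p0 ≤ l.sp.pr E k := by
    filter_upwards [hR p0 hp0'] with k hk
    have e1 : l.sp.pr E k = (l k).T.pb (fun ω => RR x cn u (M k) k ω (c k ((cD (l k) (K k) (wA s cn k)).f ω))) := by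
      rw [hEd, hhat]
      rfl
    rw [e1]
    refine le_trans ?_ (hc2 k)
    refine le_trans (le_of_eq ?_) hk
    rw [hp0]
    ring
  have hE : 0 < ul (l.sp.pr E) := hp0'.trans_le (const_le_ul (Sp.UB_pr E) hpE)
  have hE1 : ∀ᶠ k in UF, (l k).T.pb (E k) ≠ 0 := by
    filter_upwards [hpE] with k hk
    exact (hp0'.trans_le hk).ne'
  refine ⟨E, hE, ?_⟩
  -- facts on the event
  have hfact : ∀ᶠ k in UF, ∀ ω, ((l k).T.rest (E k)).μ ω ≠ 0 → (l k).T.μ ω ≠ 0 ∧ RR x cn u (M k) k ω (hat k ω) ∧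
      (l k).T.μ (hat k ω) ≠ 0 ∧ (l k).T.μ (crn l K k ω) ≠ 0 ∧
      (|lt s l k ω - lt s l k (hat k ω)| ≤ Kc k * S.dl cn k ∧
        |s.P.v k ((l k).p.π ω) iy - s.P.v k ((l k).p.π (hat k ω)) iy| ≤ Kc k * S.dl cn k) ∧
      (|lt s l k ω - lt s l k (crn l K k ω)| ≤ Kc k * S.dl cn k ∧
        |s.P.v k ((l k).p.π ω) iy - s.P.v k ((l k).p.π (crn l K k ω)) iy| ≤ Kc k * S.dl cn k) ∧
      (|lt s l k (crn l K k ω) - lt s l k (hat k ω)| ≤ Kc k * S.dl cn k ∧
        |s.P.v k ((l k).p.π (crn l K k ω)) iy - s.P.v k ((l k).p.π (hat k ω)) iy| ≤ Kc k * S.dl cn k) := by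
    filter_upwards [hE1, hKc'] with k k1 k2 ω hω
    obtain ⟨b1, b2⟩ := (l k).T.rest_supp (E k) ω hω
    have b3 : RR x cn u (M k) k ω (hat k ω) := by
      have := b2 k1
      rw [hEd] at this
      exact this
    obtain ⟨c1, c2, c3⟩ := hat_s k ω b1
    obtain ⟨d1, d2, d3⟩ := rq_spec (l k).T (K k) ω b1
    exact ⟨b1, b3, c1, d1, k2 _ _ b1 c1 ((K k).symm c2) ((l k).T.Z.symm c3),
      k2 _ _ b1 d1 ((K k).symm d2) ((l k).T.Z.symm d3),
      k2 _ _ d1 c1 ((K k).trans d2 ((K k).symm c2)) ((l k).T.Z.trans d3 ((l k).T.Z.symm c3))⟩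
  obtain ⟨W, hW⟩ : ∃ W : ∀ k, Setoid (l k).T.Ω, W = fun k => Setoid.ker (rW x cn u K k (hat k)) := ⟨_, rfl⟩
  -- few values
  have hfew : Nul S (fun k => ((l k).T.rest (E k)).e (Setoid.ker (rW x cn u K k (hat k))) ((l k).V ⊓ (l k).T.Z)) := by
    have h1s : S.Sub (fun _ => (1 : ℝ)) := S.Sub_const zero_le_one
    have h2s : S.Sub (fun _ => (2 : ℝ)) := S.Sub_const (by norm_num)
    have hBd : S.Sub (fun k => x.K k + x.K k * Kt k + x.K k * (Ka k + Kt k * Kx k)) :=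
      (x.hK.add (x.hK.mul hKt)).add (x.hK.mul (hKa.add (hKt.mul hKx)))
    have hKf : S.Sub (fun k => 2 * (M k + 2 * M k * Kc k) + 1) :=
      (h2s.mul (hM.add ((h2s.mul hM).mul hKc))).add h1s
    refine nul_few (S := Sp.im l.pj E) (l.im E) (fun k => rW x cn u K k (hat k))
      (fun k => (l k).V ⊓ (l k).T.Z) 3 (by norm_num) ?_ (fun _ _ => True) Sp.Typ_true
      (fun k => 2 * (M k + 2 * M k * Kc k) + 1) hKf ?_
    · filter_upwards [hfact, flb hBd, x.bdd, ha, hx, ht, hKa.1, hKx.1, hKt.1, x.hK.1] with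
        k k1 k2 k3 k4 k5 k6 k7 k8 k9 k10 ω i hω
      obtain ⟨b1, b2, b3, b4, -⟩ := k1 ω hω
      obtain ⟨q1, q2, q3, -⟩ := k3 _ b3
      have n1 : 0 ≤ x.K k * Kt k := mul_nonneg k10 k9
      have n2 : 0 ≤ x.K k * (Ka k + Kt k * Kx k) := mul_nonneg k10 (add_nonneg k7 (mul_nonneg k9 k8))
      have v := (l k).p.supp _ b4
      have v1 : |lt s l k (crn l K k ω)| ≤ Kt k := k6 _ v 0
      have v2 : |la s l k (crn l K k ω) iy + lt s l k (crn l K k ω) * lx s l k (crn l K k ω) iy| ≤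
          Ka k + Kt k * Kx k := by
        refine (abs_add_le _ _).trans ?_
        rw [abs_mul]
        exact add_le_add (k4 _ v iy) (mul_le_mul v1 (k5 _ v iy) (abs_nonneg _) k9)
      have e3 : |slv x k (hat k ω) (crn l K k ω)| ≤ x.K k + x.K k * Kt k + x.K k * (Ka k + Kt k * Kx k) := by
        unfold slv
        refine (abs_add_le _ _).trans (add_le_add ((abs_add_le _ _).trans (add_le_add q1 ?_)) ?_)
        · rw [abs_mul]
          exact mul_le_mul q2 v1 (abs_nonneg _) k10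
        · rw [abs_mul]
          exact mul_le_mul q3 v2 (abs_nonneg _) k10
      have s1 : lam - u - cn ≤ 1 := by linarith
      have s2 : lam - u ≤ 1 := by linarith
      fin_cases i
      · exact k2 _ _ (q3.trans (by linarith)) s1
      · exact k2 _ _ (q2.trans (by linarith)) s1
      · exact k2 _ _ e3 s2
    · filter_upwards [hfact, x.meas, hM.1, hKc.1] with k k1 k2 k3 k4 ω ω' hω hω' _ _ hVZ
      obtain ⟨b1, b2, b3, b4, -, -, b7⟩ := k1 ω hω
      obtain ⟨b1', b2', b3', b4', -, -, b7'⟩ := k1 ω' hω'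
      obtain ⟨hV, hZ⟩ := hVZ
      obtain ⟨f1, f2, f3, -⟩ := k2 ω ω' b1 b1' hV hZ
      exact rW_few x cn u (M k) (Kc k) K k (hat k) ω ω' k3 k4 ⟨f1, f2, f3⟩ (crn_eq K k ω ω' (hKV k ω ω' hV) hZ) b2 b2'
        b7.1 b7.2 b7'.1 b7'.2
  -- the label
  have hLK := (lK_DM hl K hKA hKV).im E hE
  have hLV := hl.im E hE
  have hN : (ladd ((lK l K).im E) (fun k => Setoid.ker (rW x cn u K k (hat k)))).DM
      (pA (s.im l.pj E hE) cn) (pB (s.im l.pj E hE)) := by
    constructor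
    · refine hLK.1.of_le (Eventually.of_forall fun k => FLab.leak_nonneg _ _) (Eventually.of_forall fun k => ?_)
      refine leak_add_A (((lK l K).im E) k) (Setoid.ker (rW x cn u K k (hat k))) (wA s cn k) ?_
      intro ω ω' hZ y1 y2
      have y1' : K k ω ω' := y1
      show rW x cn u K k (hat k) ω = rW x cn u K k (hat k) ω'
      unfold rW
      rw [hat_e k ω ω' y1 y2 hZ, crn_eq K k ω ω' y1 hZ]
    · have hsum := hLV.2.add hfew
      refine Nul.of_le (S := Sp.im l.pj E) hsum (Eventually.of_forall fun k => FLab.leak_nonneg _ _)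
        (Eventually.of_forall fun k => ?_)
      exact leak_add_B ((l k).T.rest (E k)) (FSp.imp (l k).p (E k)) (l k).hn (l k).V (K k)
        (Setoid.ker (rW x cn u K k (hat k))) (hKV k) (cB (s.im l.pj E hE) k)
  refine HH_of_Sht (v := fun k ω => rv x cn u K k (hat k) ω) (by linarith) (by linarith) hN ⟨?_, ?_⟩
  · intro k ω ω' _ _ hV hZ
    obtain ⟨y1, y2⟩ := hV
    have y3 : rW x cn u K k (hat k) ω = rW x cn u K k (hat k) ω' := y2
    show rv x cn u K k (hat k) ω = rv x cn u K k (hat k) ω'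
    unfold rv
    rw [y3, crn_eq K k ω ω' y1 hZ]
  · have h1s : S.Sub (fun _ => (1 : ℝ)) := S.Sub_const zero_le_one
    have h2s : S.Sub (fun _ => (2 : ℝ)) := S.Sub_const (by norm_num)
    have hMx : S.Sub (fun k => M k + x.K k) := hM.add x.hK
    have hKf : S.Sub (fun k => ((M k + x.K k) + ((M k + x.K k) + 2 * (M k + x.K k) * Kc k) + (1 + 2 * Kc k)) + (x.K k + 1)) :=
      ((hMx.add (hMx.add ((h2s.mul hMx).mul hKc))).add (h1s.add (h2s.mul hKc))).add (x.hK.add h1s)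
    refine ⟨_, hKf, ?_, ?_⟩
    · filter_upwards [hfact, x.bdd, hM.1, hKc.1, x.hK.1] with k k1 k2 k3 k4 k5 ω hω j
      obtain ⟨b1, b2, b3, b4, -⟩ := k1 ω hω
      obtain ⟨q1, q2, q3, -⟩ := k2 _ b3
      have hd := S.dl_pos (lam - u - cn) k
      have hd1 : S.dl (lam - u - cn) k ≤ 1 := by
        have := S.dl_anti (show 0 ≤ lam - u - cn by linarith) k
        rwa [S.dl_zero] at this
      have key : ∀ v : ℝ, |v| ≤ x.K k → |(⌊v / S.dl (lam - u - cn) k⌋ : ℝ) * S.dl (lam - u - cn) k| ≤ x.K k + 1 := by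
        intro v hv
        have e1 := floor_err v _ hd
        have e2 := abs_sub_abs_le_abs_sub ((⌊v / S.dl (lam - u - cn) k⌋ : ℝ) * S.dl (lam - u - cn) k) v
        rw [abs_sub_comm] at e1
        linarith
      have n0 : 0 ≤ M k + x.K k := add_nonneg k3 k5
      have n1 : 0 ≤ 2 * (M k + x.K k) * Kc k := by positivity
      have fin : ∀ w : ℝ, w ≤ x.K k + 1 → w ≤ ((M k + x.K k) + ((M k + x.K k) + 2 * (M k + x.K k) * Kc k) +
          (1 + 2 * Kc k)) + (x.K k + 1) := fun w hw => by linarith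
      apply fin
      show |(if j = 0 then (rW x cn u K k (hat k) ω 1 : ℝ) * S.dl (lam - u - cn) k else
        if j = iy.succ then (rW x cn u K k (hat k) ω 0 : ℝ) * S.dl (lam - u - cn) k else 0)| ≤ x.K k + 1
      split_ifs
      · exact key _ q2
      · exact key _ q3
      · rw [abs_zero]
        linarith
    · have hsl := x.slab.rest E hE
      refine typ_mono (S := (ladd ((lK l K).im E) (fun k => Setoid.ker (rW x cn u K k (hat k)))).sp) hsl ?_
      filter_upwards [hfact, hM.1, hKc.1, x.hK.1, x.bdd] with k k1 k3 k4 k5 k6 ω hω hs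
      obtain ⟨b1, b2, b3, b4, b5, b6, b7⟩ := k1 ω hω
      have n0 : 0 ≤ M k + x.K k := add_nonneg k3 k5
      have b2' : RR x cn u (M k + x.K k) k ω (hat k ω) := by
        have up : ∀ d : ℝ, 0 < d → M k * d ≤ (M k + x.K k) * d := fun d hd =>
          mul_le_mul_of_nonneg_right (by linarith) hd.le
        exact ⟨b2.1.trans (up _ (S.dl_pos _ k)), b2.2.1.trans (up _ (S.dl_pos _ k)),
          b2.2.2.trans (up _ (S.dl_pos _ k))⟩
      have hs' : |eval (ptf s k ((l k).p.π ω)) (slP (x.b0 k ω) (x.b1 k ω) (x.al k ω) iy iR)| ≤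
          (M k + x.K k) * S.dl lam k :=
        le_trans hs (mul_le_mul_of_nonneg_right (by linarith) (S.dl_pos lam k).le)
      have g := rW_slab x cn u (M k + x.K k) (Kc k) K k (hat k) ω n0 hu0 b2' hs' b5.1 b5.2 b6.1 b6.2
      have g' := rv_df x cn u K k (hat k) ω
      rw [← g'] at g
      have hσ := S.dl_pos (lam - u) k
      refine le_trans (le_of_eq ?_) (g.trans ?_)
      · rfl
      · refine le_trans ?_ (le_of_eq (show (((M k + x.K k) + ((M k + x.K k) + 2 * (M k + x.K k) * Kc k) +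
          (1 + 2 * Kc k)) + (x.K k + 1)) * S.dl (lam - u) k = _ from rfl))
        apply mul_le_mul_of_nonneg_right _ hσ.le
        linarith

end

end Pool.Agent.Helper51.LP
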