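import Pool.Agent.Helper51.LP.FlS

/-! FLAG SPEED (39c (4.2)): cells of the larger window, fullness over arbitrary labels. -/

set_option autoImplicit false

namespace Pool.Agent.Helper51.LP

open Finset Filter Topology MvPolynomial Pool.Agent.Helper69.RK Pool.Agent.Helper31.EC Pool.Agent.Helper40.EL
open Pool.Agent.Helper3.LF Pool.Agent.Helper89.LX Pool.Agent.Helper59.LF Pool.Agent.Helper80.MX
open Pool.Agent.Helper91.GR Pool.Agent.Helper42.NS Pool.Agent.Helper52.KP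

noncomputable section

variable {S : Sp} {m : ℕ} {s : Sys S m} {l : Lab S} {lam : ℝ} {D : ℕ} {iy iR iz : Fin m}

/-- rates over a label -/
theorem rt_up1 (l : Lab S) (A B : S.Inf) : h (up1 l (Sp.cl A)) (up1 l (Sp.cl B)) =
    ul (l.sp.rt (fun k => Setoid.comap (l k).p.π (A.1 k)) (fun k => (l k).V ⊓ Setoid.comap (l k).p.π (B.1 k))) := by
  show h (l.upL 1 one_pos (Sp.cl A)) (l.upL 1 one_pos (Sp.cl B)) = _
  rw [Lab.upL_cl, Lab.upL_cl, ← hr_rpI]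
  unfold hr
  congr 1
  funext k
  have e1 : h (rpI (l.upI 1 one_pos A) k) (rpI (l.upI 1 one_pos B) k) =
      h ((l k).p.map (fc (A.1 k))) ((l k).p.map (fc (B.1 k)) ⊔ (l k).v) :=
    (l k).h_up 1 one_pos (fc (A.1 k)) (fc (B.1 k))
  have e2 : ((l.ovr 1 one_pos).F k).n = (S.F k).n := by
    rw [Lab.n_over, one_mul]
  rw [e1, e2, sup_comm]
  unfold Sp.rt
  rw [sp_n]
  congr 1
  exact h_fc _ _

/-- the point is almost as full over a double Markov label as over the maximal label -/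
theorem full_any {c : ℝ} {l0 l' : Lab S} (hl0 : IsKap s c l0) (hl' : DMc s c l') :
    h (up1 l0 (s.P.dg 1)) (up1 l0 s.T) ≤ ul (l'.sp.rt (fun k => Setoid.comap (l' k).p.π (Setoid.ker (s.P.cellv 1 k)))
      (fun k => (l' k).V ⊓ Setoid.comap (l' k).p.π (Setoid.ker (s.t.cellv 1 k)))) := by
  have hu := Lab.IsMax.univ hl0 hl' (cA_Bd s c)
  have hT : s.T = Sp.cl (s.It 1) := (s.cl_It 1).symm
  rw [hT, ← s.cl_IP, rt_up1]
  have hU1 : UB (l0.sp.rt (fun k => Setoid.comap (l0 k).p.π ((s.IP 1).1 k))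
      (fun k => (l0 k).V ⊓ Setoid.comap (l0 k).p.π ((s.It 1).1 k))) := Sp.UB_rt (l0.pj.mapI (s.IP 1)) _
  have hU2 : UB (l'.sp.rt (fun k => Setoid.comap (l' k).p.π (Setoid.ker (s.P.cellv 1 k)))
      (fun k => (l' k).V ⊓ Setoid.comap (l' k).p.π (Setoid.ker (s.t.cellv 1 k)))) :=
    Sp.UB_rt (l'.pj.mapI (s.IP 1)) _
  have t1 := (ul_tendsto hU1).sub hu
  rw [sub_zero] at t1
  refine le_of_tendsto_of_tendsto t1 (ul_tendsto hU2) (Eventually.of_forall fun k => ?_)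
  have hn := (S.F k).pos
  unfold Sp.rt
  beta_reduce
  rw [sp_n, sp_n, ← sub_div]
  apply div_le_div_of_nonneg_right _ hn.le
  -- finite inequality
  obtain ⟨P, hP⟩ : ∃ P : FL (S.F k), P = fc (Setoid.ker (s.P.cellv 1 k)) := ⟨_, rfl⟩
  obtain ⟨t, ht⟩ : ∃ t : FL (S.F k), t = fc (Setoid.ker (s.t.cellv 1 k)) := ⟨_, rfl⟩
  have e1 : (l0.sp.F k).e (Setoid.comap (l0 k).p.π ((s.IP 1).1 k)) (((l0 k).V ⊓ Setoid.comap (l0 k).p.π
      ((s.It 1).1 k)) ⊓ (l0.sp.F k).Z) = h ((l0 k).p.map P) ((l0 k).v ⊔ (l0 k).p.map t) := by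
    rw [hP, ht]
    exact (h_fc _ _).symm
  have e2 : (l'.sp.F k).e (Setoid.comap (l' k).p.π (Setoid.ker (s.P.cellv 1 k))) (((l' k).V ⊓
      Setoid.comap (l' k).p.π (Setoid.ker (s.t.cellv 1 k))) ⊓ (l'.sp.F k).Z) =
      h ((l' k).p.map P) ((l' k).v ⊔ (l' k).p.map t) := by
    rw [hP, ht]
    exact (h_fc _ _).symm
  rw [e1, e2]
  obtain ⟨A, hA⟩ : ∃ A, A = (l0 k).am (l' k) := ⟨_, rfl⟩
  rw [← hA]
  have f1 : h ((l0 k).p.map P) ((l0 k).v ⊔ (l0 k).p.map t) =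
      h (A.p1.map ((l0 k).p.map P)) (A.p1.map (l0 k).v ⊔ A.p1.map ((l0 k).p.map t)) := by
    rw [← A.p1.map_sup, A.p1.h_map]
  have f2 : h ((l' k).p.map P) ((l' k).v ⊔ (l' k).p.map t) =
      h (A.p1.map ((l0 k).p.map P)) (A.p2.map (l' k).v ⊔ A.p1.map ((l0 k).p.map t)) := by
    have g1 : A.p1.map ((l0 k).p.map P) = A.p2.map ((l' k).p.map P) := by rw [hA]; exact FLab.am_map _ _ _
    have g2 : A.p1.map ((l0 k).p.map t) = A.p2.map ((l' k).p.map t) := by rw [hA]; exact FLab.am_map _ _ _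
    rw [g1, g2, ← A.p2.map_sup, A.p2.h_map]
  rw [f1, f2]
  have f3 : I (A.p2.map (l' k).v) (A.p1.map ((l0 k).p.map t) ⊔ A.p1.map (l0 k).p.top) (A.p1.map (l0 k).v) =
      I (A.p2.map (l' k).v) (A.p1.map (l0 k).p.top) (A.p1.map (l0 k).v) := by
    congr 1
    exact sup_eq_right.mpr (A.p1.map_mono ((l0 k).p.map_le_top t))
  rw [← f3, I_chain_right]
  have f4 := I_nonneg (A.p2.map (l' k).v) (A.p1.map ((l0 k).p.map t)) (A.p1.map (l0 k).v)
  have f5 : I (A.p2.map (l' k).v) (A.p1.map ((l0 k).p.map P)) (A.p1.map ((l0 k).p.map t) ⊔ A.p1.map (l0 k).v) ≤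
      I (A.p2.map (l' k).v) (A.p1.map (l0 k).p.top) (A.p1.map ((l0 k).p.map t) ⊔ A.p1.map (l0 k).v) :=
    I_mono_right ((A.p1.map_mono ((l0 k).p.map_le_top P)).trans le_sup_left)
  have f6 := I_eq' (A.p2.map (l' k).v) (A.p1.map ((l0 k).p.map P)) (A.p1.map ((l0 k).p.map t) ⊔ A.p1.map (l0 k).v)
  have f7 : h (A.p1.map ((l0 k).p.map P)) (A.p2.map (l' k).v ⊔ (A.p1.map ((l0 k).p.map t) ⊔ A.p1.map (l0 k).v)) ≤
      h (A.p1.map ((l0 k).p.map P)) (A.p2.map (l' k).v ⊔ A.p1.map ((l0 k).p.map t)) :=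
    h_anti (sup_le_sup le_rfl le_sup_left)
  rw [sup_comm (A.p1.map ((l0 k).p.map t))] at f5 f6 f7
  rw [sup_comm (A.p1.map ((l0 k).p.map t))]
  linarith

/-- the cells of the point and the height of level `c` -/
def kC (s : Sys S m) (c : ℝ) (l : Lab S) (k : ℕ) : Setoid (l k).T.Ω :=
  Setoid.comap (l k).p.π (Setoid.ker (s.P.cellv c k) ⊓ Setoid.ker (s.t.cellv c k))

theorem kC_nul {A : S.Inf} (c : ℝ) (hA : s.P.dg c ⊔ s.t.dg c ≤ Sp.cl A) (l : Lab S) :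
    Nul S (fun k => h (fc (kC s c l k) : FL (l k).T) ((l k).p.map (fc (A.1 k)))) := by
  have h1 : Sp.cl (Sp.Inf.sup (s.IP c) (s.It c)) ≤ Sp.cl A := by
    rw [Sp.cl_sup, s.cl_IP, s.cl_It]
    exact hA
  have h2 := PLe_rpI.mpr h1
  refine Nul.of_le h2 (Eventually.of_forall fun k => h_nonneg _ _) (Eventually.of_forall fun k => ?_)
  have h3 := (l k).p.h_map (rpI (Sp.Inf.sup (s.IP c) (s.It c)) k) (rpI A k)
  exact h3.le

theorem PT_le_A (c : ℝ) (hc : c ≤ 1) : s.P.dg c ⊔ s.t.dg c ≤ lA s c := by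
  have h1 : s.P.dg c ≤ s.a.dg c ⊔ s.x.dg c ⊔ s.t.dg c := Sp.VV.pt_dg_le s.a s.x s.t c
  have h2 : s.a.dg c ⊔ s.x.dg c ≤ s.xi 1 := sup_le_sup (s.a.dg_mono hc) (s.x.dg_mono hc)
  refine sup_le (h1.trans (sup_le_sup h2 le_rfl)) le_sup_right

theorem PT_le_B (c : ℝ) (hc : c ≤ 1) : s.P.dg c ⊔ s.t.dg c ≤ lB s :=
  sup_le_sup (s.P.dg_mono hc) (s.t.dg_mono hc)

/-- the label with the cells -/
theorem kC_DM {c0 cn : ℝ} (hc : cn ≤ c0) (hc0 : c0 ≤ 1) (hl : DMc s c0 l) : DMc s c0 (ladd l (kC s cn l)) := by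
  have hA : lA s cn ≤ lA s c0 := sup_le_sup le_rfl (s.t.dg_mono hc)
  refine DM_ladd hl (kC s cn l) ?_ ?_
  · have h1 := kC_nul (A := Sp.Inf.sup (Sp.Inf.sup (s.Ia 1) (s.Ix 1)) (s.It c0)) cn
      (by rw [cl_A]; exact (PT_le_A cn (hc.trans hc0)).trans hA) l
    exact h1.of_le (Eventually.of_forall fun k => h_nonneg _ _)
      (Eventually.of_forall fun k => h_anti le_sup_right)
  · have h1 := kC_nul (A := Sp.Inf.sup (s.IP 1) (s.It 1)) cn
      (by rw [cl_B]; exact PT_le_B cn (hc.trans hc0)) l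
    exact h1.of_le (Eventually.of_forall fun k => h_nonneg _ _)
      (Eventually.of_forall fun k => h_anti le_sup_right)

theorem kC_A {cn : ℝ} (hc : cn ≤ 1) (l : Lab S) :
    Nul S (fun k => I (fc (kC s cn l k) : FL (l k).T) (l k).p.top ((l k).p.map (cA s cn k))) := by
  have h1 := kC_nul (A := Sp.Inf.sup (Sp.Inf.sup (s.Ia 1) (s.Ix 1)) (s.It cn)) cn
      (by rw [cl_A]; exact PT_le_A cn hc) l
  exact h1.of_le (Eventually.of_forall fun k => I_nonneg _ _ _)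
    (Eventually.of_forall fun k => I_le_h_left _ _ _)

theorem kC_Kn1 (cn : ℝ) (l : Lab S) (iy : Fin m) : Kn1 s cn l (kC s cn l) iy := by
  refine ⟨fun _ => 1, S.Sub_const zero_le_one, Eventually.of_forall fun k ω ω' _ _ h _ => ?_⟩
  rw [one_mul]
  exact ⟨s.t.cellv_close cn k _ _ h.2 0, s.P.cellv_close cn k _ _ h.1 iy⟩

/-- the flag for the label with the cells -/
def Fg.addK (x : Fg s l lam D iy iR iz) (W : ∀ k, Setoid (l k).T.Ω) : Fg s (ladd l W) lam D iy iR iz where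
  b0 := x.b0
  b1 := x.b1
  al := x.al
  Q := x.Q
  K := x.K
  hK := x.hK
  meas := by
    filter_upwards [x.meas] with k hk ω ω' a b c d
    exact hk ω ω' a b c.1 d
  bdd := x.bdd
  slab := x.slab
  sheet := x.sheet

/-- FLAG SPEED: the slab of the larger window, for `u > (1 + (D + 2) / g) (c0 - cn)`, on an event -/
theorem Fg.speed {c0 cn : ℝ} (x : Fg s l lam D iy iR iz) (h0 : 0 ≤ cn) (hc : cn ≤ c0) (hc0 : c0 < 1)
    (hlam : lam ≤ 1) (hl : DMc s c0 l) (hcov : ∀ i, i = iy ∨ i = iR ∨ i = iz)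
    (hfull : (1 - c0) + (1 - lam) ≤ h (up1 (kap s c0) (s.P.dg 1)) (up1 (kap s c0) s.T)) {g : ℝ} (hg : Rich s g) (hg0 : 0 < g) (u : ℝ)
    (hu : (D + 2) * (c0 - cn) < g * (u - (c0 - cn))) (hu1 : u ≤ lam - cn) :
    ∃ (T : Sp) (p : Pj T S) (E : ∀ k, (T.F k).Ω → Prop) (hE : 0 < ul (T.pr E)),
      HH (SJ iR {0, iy.succ}) (s.im p E hE) cn (lam - u) := by
  have hδ : 0 ≤ c0 - cn := by linarith
  have hu0 : c0 - cn < u := by
    by_contra hcon
    push Not at hcon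
    have h1 : g * (u - (c0 - cn)) ≤ 0 := mul_nonpos_of_nonneg_of_nonpos hg0.le (by linarith)
    have h2 : 0 ≤ (D + 2 : ℝ) * (c0 - cn) := by positivity
    linarith
  have hl' := kC_DM (cn := cn) hc hc0.le hl
  have hK1 := kC_A (s := s) (hc.trans hc0.le) l
  have hfull' := hfull.trans (full_any (kap_isKap s c0) hl')
  have h1 := (x.addK (kC s cn l)).tr h0 hc hc0 hlam hl' (kC s cn l) hK1 (fun k ω ω' h => h.2) (kC_Kn1 cn l iy)
    hcov hfull' hg hg0.le u hu1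
  have h2 : ul ((cpD s cn (ladd l (kC s cn l)) (kC s cn l)).sp.pr (tE (x.addK (kC s cn l)) cn (kC s cn l) u)) < 1 := by
    by_contra hcon
    push Not at hcon
    have h3 : 0 < g * (u - (c0 - cn)) := mul_pos hg0 (by linarith)
    nlinarith
  obtain ⟨E, hE, h4⟩ := (x.addK (kC s cn l)).agr h0 hc hc0 hlam hl' (kC s cn l) hK1 (fun k ω ω' h => h.2)
    (kC_Kn1 cn l iy) u hu0 hu1 h2
  exact ⟨_, _, E, hE, h4⟩

end

end Pool.Agent.Helper51.LP
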