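import Pool.Agent.Helper51.LP.FlT
import Pool.Agent.Helper91.GR.Nc

/-! FLAG SPEED (39c (4.2)), final form for robust systems. -/

set_option autoImplicit false

namespace Pool.Agent.Helper51.LP

open Finset Filter Topology MvPolynomial Pool.Agent.Helper69.RK Pool.Agent.Helper31.EC Pool.Agent.Helper40.EL
open Pool.Agent.Helper3.LF Pool.Agent.Helper89.LX Pool.Agent.Helper59.LF Pool.Agent.Helper80.MX
open Pool.Agent.Helper91.GR Pool.Agent.Helper42.NS Pool.Agent.Helper52.KP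

noncomputable section

variable {S : Sp} {m : ℕ} {s : Sys S m}

/-- sheets in a join, left -/
theorem Sht_join_left {i : Fin m} {J : Finset (Fin (m + 1))} {σ : ℝ} {l1 : Lab S} (l2 : Lab S)
    {v : ∀ k, (l1 k).T.Ω → Cf (m + 1)} (hv : Sht s i J σ l1 v) :
    Sht s i J σ (l1.join l2) (fun k (w : (l1 k).T.Ω × (l2 k).T.Ω) => v k w.1) := by
  obtain ⟨hm, K, hK, hs, ht⟩ := hv
  refine ⟨fun k w w' a b hV hZ => ?_, K, hK, ?_, ?_⟩
  · have a1 := (((l1 k).am (l2 k)).supp w a).2.1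
    have b1 := (((l1 k).am (l2 k)).supp w' b).2.1
    exact hm k _ _ a1 b1 hV.1 ((((l1 k).am (l2 k)).p1.hZ w w' a b).mp hZ)
  · filter_upwards [hs] with k hk w a j
    exact hk w.1 (((l1 k).am (l2 k)).supp w a).2.1 j
  · have h1 := (Sp.Typ_iff _).mp ht
    refine (Sp.Typ_iff _).mpr (h1.congr fun k => ?_)
    exact (pb_comp ((l1 k).am (l2 k)).p1 (fun ω => |dfl s i J l1 v k ω| ≤ K k * S.dl σ k)).symm

/-- sheets in a join, right -/
theorem Sht_join_right {i : Fin m} {J : Finset (Fin (m + 1))} {σ : ℝ} (l1 : Lab S) {l2 : Lab S}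
    {v : ∀ k, (l2 k).T.Ω → Cf (m + 1)} (hv : Sht s i J σ l2 v) :
    Sht s i J σ (l1.join l2) (fun k (w : (l1 k).T.Ω × (l2 k).T.Ω) => v k w.2) := by
  obtain ⟨hm, K, hK, hs, ht⟩ := hv
  refine ⟨fun k w w' a b hV hZ => ?_, K, hK, ?_, ?_⟩
  · have a1 := (((l1 k).am (l2 k)).supp w a).2.2
    have b1 := (((l1 k).am (l2 k)).supp w' b).2.2
    exact hm k _ _ a1 b1 hV.2 ((((l1 k).am (l2 k)).p2.hZ w w' a b).mp hZ)
  · filter_upwards [hs] with k hk w a j
    exact hk w.2 (((l1 k).am (l2 k)).supp w a).2.2 j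
  · have h1 := (Sp.Typ_iff _).mp ht
    refine (Sp.Typ_iff _).mpr ?_
    have h2 : Tendsto (fun k => ((l1 k).am (l2 k)).sp.pb (fun w => |dfl s i J l2 v k w.2| ≤ K k * S.dl σ k)) UF (𝓝 1) :=
      h1.congr fun k => (pb_comp ((l1 k).am (l2 k)).p2 (fun ω => |dfl s i J l2 v k ω| ≤ K k * S.dl σ k)).symm
    refine tendsto_of_tendsto_of_tendsto_of_le_of_le h2 tendsto_const_nhds (fun k => ?_)
      (fun k => FSp.pb_le_one _ _)
    apply FSp.pb_mono
    intro w hw h3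
    have e1 : (l1 k).p.π w.1 = (l2 k).p.π w.2 := (((l1 k).am (l2 k)).supp w hw).1
    have e2 : dfl s i J (l1.join l2) (fun k (w : (l1 k).T.Ω × (l2 k).T.Ω) => v k w.2) k w = dfl s i J l2 v k w.2 := by
      show df i J (v k w.2) (s.a.v k ((l1 k).p.π w.1)) (s.x.v k ((l1 k).p.π w.1)) (s.t.v k ((l1 k).p.π w.1) 0) = _
      rw [e1]
      rfl
    show |dfl s i J (l1.join l2) (fun k (w : (l1 k).T.Ω × (l2 k).T.Ω) => v k w.2) k w| ≤ K k * S.dl σ k
    rw [e2]
    exact h3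

/-- the polynomial of a linear sheet -/
def shP (i : Fin m) (J : Finset (Fin (m + 1))) (f : Cf (m + 1)) : MvPolynomial (Fin (m + 1)) ℝ :=
  X i.succ - (C f.1 + ∑ j ∈ J, C (f.2 j) * X j)

theorem eval_shP (i : Fin m) (J : Finset (Fin (m + 1))) (f : Cf (m + 1)) (a x : Fin m → ℝ) (t : ℝ) :
    eval (pnt a x t) (shP i J f) = df i J f a x t := by
  unfold shP df aff
  simp only [map_sub, map_add, map_sum, map_mul, eval_X, eval_C, pnt_succ]
  rfl

theorem tdeg_shP (i : Fin m) (J : Finset (Fin (m + 1))) (f : Cf (m + 1)) : (shP i J f).totalDegree ≤ 1 := by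
  unfold shP
  refine (totalDegree_sub _ _).trans (max_le (by rw [totalDegree_X]) ?_)
  refine (totalDegree_add _ _).trans (max_le (by rw [totalDegree_C]; exact Nat.zero_le _) ?_)
  refine totalDegree_finsetSum_le (fun j _ => ?_)
  refine (totalDegree_mul _ _).trans ?_
  rw [totalDegree_C, totalDegree_X]

theorem c1_shP (i : Fin m) (J : Finset (Fin (m + 1))) (f : Cf (m + 1)) (B K : ℝ) (hK : 0 ≤ K) (h1 : |f.1| ≤ B)
    (h2 : ∀ j, |f.2 j| ≤ K) : c1 (shP i J f) ≤ 1 + B + (m + 1) * K := by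
  unfold shP
  rw [sub_eq_add_neg]
  have g1 := c1_add (X i.succ : MvPolynomial (Fin (m + 1)) ℝ) (-(C f.1 + ∑ j ∈ J, C (f.2 j) * X j))
  have g2 := c1_neg (C f.1 + ∑ j ∈ J, C (f.2 j) * X j : MvPolynomial (Fin (m + 1)) ℝ)
  have g3 := c1_add (C f.1 : MvPolynomial (Fin (m + 1)) ℝ) (∑ j ∈ J, C (f.2 j) * X j)
  have g4 := c1_sum J (fun j => (C (f.2 j) * X j : MvPolynomial (Fin (m + 1)) ℝ))
  rw [c1_X] at g1
  rw [c1_C] at g3
  have g5 : ∑ j ∈ J, c1 (C (f.2 j) * X j : MvPolynomial (Fin (m + 1)) ℝ) ≤ (m + 1) * K := by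
    calc ∑ j ∈ J, c1 (C (f.2 j) * X j : MvPolynomial (Fin (m + 1)) ℝ) ≤ ∑ _j ∈ J, K := by
          apply Finset.sum_le_sum
          intro j _
          have e1 := c1_C_mul (f.2 j) (X j : MvPolynomial (Fin (m + 1)) ℝ)
          rw [c1_X, mul_one] at e1
          exact e1.trans (h2 j)
      _ ≤ ∑ _j : Fin (m + 1), K := by
          apply Finset.sum_le_sum_of_subset_of_nonneg (Finset.subset_univ _)
          intro _ _ _
          exact hK
      _ = (m + 1) * K := by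
          rw [Finset.sum_const, Finset.card_univ, Fintype.card_fin, nsmul_eq_mul]
          push_cast
          ring
  linarith

theorem pderiv_shP (i : Fin m) (J : Finset (Fin (m + 1))) (f : Cf (m + 1)) (hJ : i.succ ∉ J) :
    pderiv i.succ (shP i J f) = 1 := by
  unfold shP
  rw [map_sub, map_add, map_sum, pderiv_X_self, pderiv_C]
  have h1 : ∀ j ∈ J, pderiv i.succ (C (f.2 j) * X j : MvPolynomial (Fin (m + 1)) ℝ) = 0 := by
    intro j hj
    have h2 : j ≠ i.succ := fun h => hJ (h ▸ hj)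
    rw [pderiv_C_mul, pderiv_X_of_ne h2, mul_zero]
  rw [Finset.sum_eq_zero h1]
  ring

/-- bounded truncation of the coefficients -/
def trc (B : ℝ) (f : Cf (m + 1)) : Cf (m + 1) := open Classical in if |f.1| ≤ B ∧ ∀ j, |f.2 j| ≤ B then f else (0, 0)

theorem trc_le {B : ℝ} (hB : 0 ≤ B) (f : Cf (m + 1)) : |(trc B f).1| ≤ B ∧ ∀ j, |(trc B f).2 j| ≤ B := by
  unfold trc
  split_ifs with h
  · exact h
  · refine ⟨?_, fun j => ?_⟩
    · show |(0 : ℝ)| ≤ B
      rw [abs_zero]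
      exact hB
    · show |(0 : ℝ)| ≤ B
      rw [abs_zero]
      exact hB

theorem trc_eq {B : ℝ} {f : Cf (m + 1)} (h1 : |f.1| ≤ B) (h2 : ∀ j, |f.2 j| ≤ B) : trc B f = f := by
  unfold trc
  rw [if_pos ⟨h1, h2⟩]

/-- typical bound of the constant coefficient -/
theorem Sht_c0 {i : Fin m} {J : Finset (Fin (m + 1))} {σ : ℝ} (hσ : 0 ≤ σ) {l : Lab S}
    {v : ∀ k, (l k).T.Ω → Cf (m + 1)} (hv : Sht s i J σ l v) : ∃ B : ℕ → ℝ, S.Sub B ∧
      (∀ᶠ k in UF, 0 ≤ B k) ∧ Sp.Typ (S := l.sp) (fun k (ω : (l k).T.Ω) => trc (B k) (v k ω) = v k ω ∧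
        |dfl s i J l v k ω| ≤ B k * S.dl σ k) := by
  obtain ⟨hm, K, hK, hs, ht⟩ := hv
  obtain ⟨Kp, hKp, hp⟩ := (pv s).bd
  have hB : S.Sub (fun k => K k + Kp k + (m + 1) * (K k * Kp k)) :=
    (hK.add hKp).add ((S.Sub_const (by positivity)).mul (hK.mul hKp))
  refine ⟨_, hB, hB.1, ?_⟩
  refine typ_mono ht ?_
  filter_upwards [hs, hp, hK.1, hKp.1] with k k1 k2 k3 k4 ω hω h
  have v1 := (l k).p.supp _ hω
  have h0 : 0 ≤ (m + 1) * (K k * Kp k) := by positivity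
  have hd : S.dl σ k ≤ 1 := by
    have := S.dl_anti hσ k
    rwa [S.dl_zero] at this
  have hdp := S.dl_pos σ k
  refine ⟨trc_eq ?_ ?_, h.trans (mul_le_mul_of_nonneg_right (by linarith) hdp.le)⟩
  · have e1 : (v k ω).1 = pl (s.a.v k ((l k).p.π ω)) (s.x.v k ((l k).p.π ω)) (s.t.v k ((l k).p.π ω) 0) i.succ -
        dfl s i J l v k ω - ∑ j ∈ J, (v k ω).2 j *
          pl (s.a.v k ((l k).p.π ω)) (s.x.v k ((l k).p.π ω)) (s.t.v k ((l k).p.π ω) 0) j := by
      unfold dfl df aff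
      rw [pl_succ]
      ring
    have e2 : |pl (s.a.v k ((l k).p.π ω)) (s.x.v k ((l k).p.π ω)) (s.t.v k ((l k).p.π ω) 0) i.succ| ≤ Kp k :=
      k2 _ v1 i.succ
    have e3 : |dfl s i J l v k ω| ≤ K k := h.trans (by nlinarith)
    have e4 : |∑ j ∈ J, (v k ω).2 j *
          pl (s.a.v k ((l k).p.π ω)) (s.x.v k ((l k).p.π ω)) (s.t.v k ((l k).p.π ω) 0) j| ≤
        (m + 1) * (K k * Kp k) := by
      refine (Finset.abs_sum_le_sum_abs _ _).trans ?_
      calc ∑ j ∈ J, |(v k ω).2 j *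
            pl (s.a.v k ((l k).p.π ω)) (s.x.v k ((l k).p.π ω)) (s.t.v k ((l k).p.π ω) 0) j| ≤ ∑ _j ∈ J, K k * Kp k := by
            apply Finset.sum_le_sum
            intro j _
            rw [abs_mul]
            exact mul_le_mul (k1 ω hω j) (k2 _ v1 j) (abs_nonneg _) k3
        _ ≤ ∑ _j : Fin (m + 1), K k * Kp k := by
            apply Finset.sum_le_sum_of_subset_of_nonneg (Finset.subset_univ _)
            intro _ _ _
            positivity
        _ = (m + 1) * (K k * Kp k) := by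
            rw [Finset.sum_const, Finset.card_univ, Fintype.card_fin, nsmul_eq_mul]
            push_cast
            ring
    rw [e1]
    refine (abs_sub _ _).trans ((add_le_add ((abs_sub _ _).trans (add_le_add e2 e3)) e4).trans ?_)
    linarith
  · intro j
    have := k1 ω hω j
    linarith

end

end Pool.Agent.Helper51.LP
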