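import Pool.Agent.Helper51.LP.FlU

/-! FLAG SPEED (39c (4.2)): the thickness of the slab is Lipschitz in the window for rich robust systems. -/

set_option autoImplicit false

namespace Pool.Agent.Helper51.LP

open Finset Filter Topology MvPolynomial Pool.Agent.Helper69.RK Pool.Agent.Helper31.EC Pool.Agent.Helper40.EL
open Pool.Agent.Helper3.LF Pool.Agent.Helper89.LX Pool.Agent.Helper59.LF Pool.Agent.Helper80.MX
open Pool.Agent.Helper91.GR Pool.Agent.Helper42.NS Pool.Agent.Helper52.KP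

noncomputable section

variable {S : Sp} {m : ℕ} {s : Sys S m} {iy iR iz : Fin m}

theorem df_slab (iy iR : Fin m) (f : Cf (m + 1)) (a x : Fin m → ℝ) (t : ℝ) :
    df iR {0, iy.succ} f a x t = eval (pnt a x t) (slP f.1 (f.2 0) (f.2 iy.succ) iy iR) := by
  rw [eval_slP]
  unfold df aff
  rw [Finset.sum_pair (Fin.succ_ne_zero iy).symm, pl_zero, pl_succ]
  ring

/-- the flag of a slab and a linear sheet -/
theorem exists_Fg {lam : ℝ} (hlam : 0 ≤ lam) {l : Lab S} {v w : ∀ k, (l k).T.Ω → Cf (m + 1)}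
    {J : Finset (Fin (m + 1))} (hJ : iz.succ ∉ J) (hv : Sht s iR {0, iy.succ} lam l v) (hw : Sht s iz J 1 l w) :
    Nonempty (Fg s l lam 1 iy iR iz) := by
  obtain ⟨B1, hB1, hB1', hT1⟩ := Sht_c0 hlam hv
  obtain ⟨B2, hB2, hB2', hT2⟩ := Sht_c0 zero_le_one hw
  have h1s : S.Sub (fun _ => (1 : ℝ)) := S.Sub_const zero_le_one
  have hK : S.Sub (fun k => B1 k + (1 + B2 k + (m + 1) * B2 k)) :=
    hB1.add ((h1s.add hB2).add ((S.Sub_const (by positivity)).mul hB2))
  refine ⟨⟨fun k ω => (trc (B1 k) (v k ω)).1, fun k ω => (trc (B1 k) (v k ω)).2 0,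
    fun k ω => (trc (B1 k) (v k ω)).2 iy.succ, fun k ω => shP iz J (trc (B2 k) (w k ω)), _, hK, ?_, ?_, ?_, ?_⟩⟩
  · refine Eventually.of_forall fun k ω ω' a b c d => ?_
    rw [hv.1 k ω ω' a b c d, hw.1 k ω ω' a b c d]
    exact ⟨rfl, rfl, rfl, rfl⟩
  · filter_upwards [hB1', hB2'] with k b1 b2 ω _
    obtain ⟨q1, q2⟩ := trc_le b1 (v k ω)
    obtain ⟨p1, p2⟩ := trc_le b2 (w k ω)
    have n0 : 0 ≤ (m + 1) * B2 k := by positivity
    refine ⟨q1.trans (by linarith), (q2 _).trans (by linarith), (q2 _).trans (by linarith), tdeg_shP _ _ _, ?_,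
      pderiv_shP _ _ _ hJ⟩
    refine (c1_shP iz J _ (B2 k) (B2 k) b2 p1 p2).trans (by linarith)
  · refine typ_mono hT1 ?_
    filter_upwards [hB1', hB2'] with k b1 b2 ω _ ⟨h1, h2⟩
    have n0 : 0 ≤ (m + 1) * B2 k := by positivity
    have hd := S.dl_pos lam k
    show |eval (ptf s k ((l k).p.π ω)) (slP (trc (B1 k) (v k ω)).1 ((trc (B1 k) (v k ω)).2 0)
      ((trc (B1 k) (v k ω)).2 iy.succ) iy iR)| ≤ _
    rw [h1]
    have e := df_slab iy iR (v k ω) (la s l k ω) (lx s l k ω) (lt s l k ω)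
    refine le_trans (le_of_eq (congrArg abs e.symm)) (h2.trans ?_)
    exact mul_le_mul_of_nonneg_right (by linarith) hd.le
  · refine typ_mono hT2 ?_
    filter_upwards [hB1', hB2'] with k b1 b2 ω _ ⟨h1, h2⟩
    have n0 : 0 ≤ (m + 1) * B2 k := by positivity
    have hd := S.dl_pos 1 k
    show |eval (ptf s k ((l k).p.π ω)) (shP iz J (trc (B2 k) (w k ω)))| ≤ _
    rw [h1]
    have e := eval_shP iz J (w k ω) (la s l k ω) (lx s l k ω) (lt s l k ω)
    refine le_trans (le_of_eq (congrArg abs e)) (h2.trans ?_)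
    exact mul_le_mul_of_nonneg_right (by linarith) hd.le

/-- the trivial sheet -/
theorem HH_triv (s : Sys S m) (i : Fin m) (J : Finset (Fin (m + 1))) {c : ℝ} (h0 : 0 ≤ c) (h1 : c ≤ 1) :
    HH (SJ i J) s c c := by
  obtain ⟨Kp, hKp, hp⟩ := s.P.bd
  have hd : Lab.DM (fun k => FLab.triv (S.F k)) (cA s 0) (cB s) := Lab.DM_triv _ _
  have hs : Sht s i J 0 (fun k => FLab.triv (S.F k)) (fun _ _ => (0, 0)) := by
    refine ⟨fun _ _ _ _ _ _ _ => rfl, fun k => Kp k, hKp, ?_, ?_⟩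
    · filter_upwards [hKp.1] with k hk ω _ j
      show |(0 : ℝ)| ≤ Kp k
      rw [abs_zero]
      exact hk
    · refine typ_mono (Sp.Typ_true) ?_
      filter_upwards [hp] with k hk ω hω _
      have e1 : dfl s i J (fun k => FLab.triv (S.F k)) (fun _ _ => (0, 0)) k ω = s.P.v k ω i := by
        unfold dfl
        rw [df_zero]
        rfl
      rw [e1, S.dl_zero, mul_one]
      exact hk ω hω i
  obtain ⟨l', v', g1, g2⟩ := hs.speed le_rfl zero_lt_one h0 h1 (by linarith) hd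
  rw [sub_zero, zero_add] at g2
  exact HH_of_Sht h0 h1 g1 g2

/-- **FLAG SPEED**: for a rich system with a linear sheet of full depth at the window `c0` and full otherwise, whose
slabs are robust, the thickness of the slab is Lipschitz on the left of `c0` -/
theorem flag_speed (hcov : ∀ i, i = iy ∨ i = iR ∨ i = iz) {J : Finset (Fin (m + 1))} (hJ : iz.succ ∉ J) {g : ℝ}
    (hg : Rich s g) (hg0 : 0 < g)
    (hrob : ∀ (T : Sp) (p : Pj T S) (E : ∀ k, (T.F k).Ω → Prop) (hE : 0 < ul (T.pr E)) (c σ : ℝ),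
      psi (SJ iR {0, iy.succ}) (s.im p E hE) c σ = psi (SJ iR {0, iy.succ}) s c σ)
    {c0 lam : ℝ} (hc0 : c0 < 1) (hl0 : 0 ≤ lam) (hlam : lam ≤ 1) (hslab : HH (SJ iR {0, iy.succ}) s c0 lam)
    (hsheet : HH (SJ iz J) s c0 1)
    (hfull : (1 - c0) + (1 - lam) ≤ h (up1 (kap s c0) (s.P.dg 1)) (up1 (kap s c0) s.T)) {cn : ℝ} (h0 : 0 ≤ cn)
    (hc : cn ≤ c0) : HH (SJ iR {0, iy.succ}) s cn (lam - (1 + 3 / g) * (c0 - cn)) := by
  obtain ⟨l1, v, d1, hv⟩ := Sht_of_HH hslab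
  obtain ⟨l2, w, d2, hw⟩ := Sht_of_HH hsheet
  have hv' := Sht_join_left l2 hv
  have hw' := Sht_join_right l1 hw
  obtain ⟨x⟩ := exists_Fg (iy := iy) (iR := iR) (iz := iz) hl0 hJ hv' hw'
  have hl : DMc s c0 (l1.join l2) := Lab.DM.join d1 d2
  have key : ∀ u : ℝ, (1 + 3 / g) * (c0 - cn) < u → HH (SJ iR {0, iy.succ}) s cn (lam - u) := by
    intro u hu
    rcases le_or_gt u (lam - cn) with h1 | h1
    · have h2 : ((1 : ℕ) + 2 : ℝ) * (c0 - cn) < g * (u - (c0 - cn)) := by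
        have e1 : g * ((1 + 3 / g) * (c0 - cn)) < g * u := mul_lt_mul_of_pos_left hu hg0
        have e2 : g * ((1 + 3 / g) * (c0 - cn)) = g * (c0 - cn) + 3 * (c0 - cn) := by
          field_simp
        push_cast
        nlinarith
      obtain ⟨T, p, E, hE, h3⟩ := x.speed h0 hc hc0 hlam hl hcov hfull hg hg0 u h2 h1
      rw [HH_iff] at h3 ⊢
      rw [hrob T p E hE] at h3
      exact h3
    · exact HH.mono s (HH_triv s iR {0, iy.succ} h0 (hc.trans hc0.le)) le_rfl (by linarith)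
  refine HH_closed s (fun _ => cn) cn tendsto_const_nhds
    (fun j => lam - ((1 + 3 / g) * (c0 - cn) + 1 / ((j : ℝ) + 1))) _ ?_ (fun j => key _ ?_)
  · have t0 := tendsto_one_div_add_atTop_nhds_zero_nat (𝕜 := ℝ)
    have t1 := (t0.const_add ((1 + 3 / g) * (c0 - cn))).const_sub lam
    rw [add_zero] at t1
    exact t1
  · have : (0 : ℝ) < 1 / ((j : ℝ) + 1) := by positivity
    linarith

end

end Pool.Agent.Helper51.LP
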