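import Pool.Agent.Helper51.LP.Poly

/-! FLAG SPEED (39c (4.2)): geometry of two slabs and a sheet over one line, real numbers. -/

set_option autoImplicit false

namespace Pool.Agent.Helper51.LP

open Finset MvPolynomial Pool.Agent.Helper59.LF Pool.Agent.Helper3.LF

noncomputable section

/-- the value of a slab on a line nearby -/
theorem slab_move (aR xR ay xy aR' xR' ay' xy' b0 b1 al t e T K : ℝ) (hT : |t| ≤ T) (hK : |al| ≤ K)
    (h1 : |aR' - aR| ≤ e) (h2 : |xR' - xR| ≤ e) (h3 : |ay' - ay| ≤ e) (h4 : |xy' - xy| ≤ e) :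
    |(aR' + t * xR') - (b0 + b1 * t + al * (ay' + t * xy'))| ≤
      |(aR + t * xR) - (b0 + b1 * t + al * (ay + t * xy))| + (1 + T) * (1 + K) * e := by
  have he : 0 ≤ e := (abs_nonneg _).trans h1
  have hT0 : 0 ≤ T := (abs_nonneg _).trans hT
  have hK0 : 0 ≤ K := (abs_nonneg _).trans hK
  have e1 : (aR' + t * xR') - (b0 + b1 * t + al * (ay' + t * xy')) =
      ((aR + t * xR) - (b0 + b1 * t + al * (ay + t * xy))) +
        (((aR' - aR) + t * (xR' - xR)) - al * ((ay' - ay) + t * (xy' - xy))) := by ring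
  rw [e1]
  refine (abs_add_le _ _).trans ?_
  have e2 : |(aR' - aR) + t * (xR' - xR)| ≤ (1 + T) * e := by
    refine (abs_add_le _ _).trans ?_
    rw [abs_mul]
    have := mul_le_mul hT h2 (abs_nonneg _) hT0
    linarith
  have e3 : |(ay' - ay) + t * (xy' - xy)| ≤ (1 + T) * e := by
    refine (abs_add_le _ _).trans ?_
    rw [abs_mul]
    have := mul_le_mul hT h4 (abs_nonneg _) hT0
    linarith
  have e4 : |al * ((ay' - ay) + t * (xy' - xy))| ≤ K * ((1 + T) * e) := by
    rw [abs_mul]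
    exact mul_le_mul hK e3 (abs_nonneg _) hK0
  have e5 := abs_sub ((aR' - aR) + t * (xR' - xR)) (al * ((ay' - ay) + t * (xy' - xy)))
  nlinarith

/-- the difference of two slabs along a line: slope and value -/
theorem slab_diff (aR xR ay xy b0 b1 al b0' b1' al' t t' M : ℝ)
    (h11 : |(aR + t * xR) - (b0 + b1 * t + al * (ay + t * xy))| ≤ M)
    (h12 : |(aR + t' * xR) - (b0 + b1 * t' + al * (ay + t' * xy))| ≤ M)
    (h21 : |(aR + t * xR) - (b0' + b1' * t + al' * (ay + t * xy))| ≤ M)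
    (h22 : |(aR + t' * xR) - (b0' + b1' * t' + al' * (ay + t' * xy))| ≤ M) :
    |t - t'| * |(b1 - b1') + (al - al') * xy| ≤ 4 * M ∧
      |(b0 + b1 * t' + al * (ay + t' * xy)) - (b0' + b1' * t' + al' * (ay + t' * xy))| ≤ 2 * M := by
  rw [abs_le] at h11 h12 h21 h22
  constructor
  · rw [← abs_mul, abs_le]
    constructor <;> nlinarith [h11.1, h11.2, h12.1, h12.2, h21.1, h21.2, h22.1, h22.2]
  · rw [abs_le]
    constructor <;> linarith [h12.1, h12.2, h22.1, h22.2]

/-- the transversal case: the slope is known -/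
theorem dir_y (d1 dal xy xy' s : ℝ) (η M : ℝ) (hη : 0 < η) (hal : η ≤ |dal|) (hs : 0 < s)
    (h1 : s * |d1 + dal * xy| ≤ M) (h2 : s * |d1 + dal * xy'| ≤ M) : |xy' - xy| ≤ 2 * M / (s * η) := by
  rw [le_div_iff₀ (by positivity)]
  have e1 : |dal| * |xy' - xy| ≤ |d1 + dal * xy| + |d1 + dal * xy'| := by
    rw [← abs_mul]
    have : dal * (xy' - xy) = (d1 + dal * xy') - (d1 + dal * xy) := by ring
    rw [this]
    have := abs_sub (d1 + dal * xy') (d1 + dal * xy)
    linarith
  have e2 : η * |xy' - xy| ≤ |dal| * |xy' - xy| := mul_le_mul_of_nonneg_right hal (abs_nonneg _)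
  have e3 : s * (η * |xy' - xy|) ≤ s * (|d1 + dal * xy| + |d1 + dal * xy'|) :=
    mul_le_mul_of_nonneg_left (e2.trans e1) hs.le
  nlinarith

/-- the direction in the sheet -/
theorem dir_z {m : ℕ} (Q : MvPolynomial (Fin (m + 1)) ℝ) (D : ℕ) (hdeg : Q.totalDegree ≤ D) (iz : Fin m)
    (hz : pderiv iz.succ Q = 1) (R e : ℝ) (hR : 1 ≤ R) (p p' : Fin (m + 1) → ℝ) (hp : ∀ i, |p i| + e ≤ R)
    (hpp : ∀ i, |p' i - p i| ≤ e) (x x' : Fin m → ℝ) (X g τ : ℝ) (hx : ∀ i, |x i| ≤ X)
    (hg : ∀ i, i ≠ iz → |x' i - x i| ≤ g) (hg0 : 0 ≤ g)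
    (h1 : |eval p (pderiv 0 Q) + ∑ i : Fin m, x i * eval p (pderiv i.succ Q)| ≤ τ)
    (h2 : |eval p' (pderiv 0 Q) + ∑ i : Fin m, x' i * eval p' (pderiv i.succ Q)| ≤ τ) :
    |x' iz - x iz| ≤ 2 * τ + (1 + m * X) * (((m + 1 : ℕ) : ℝ) * (D * (D * c1 Q) * R ^ D) * e) +
      m * (D * c1 Q * R ^ D) * g := by
  classical
  have he : 0 ≤ e := (abs_nonneg _).trans (hpp 0)
  have hc := c1_nonneg Q
  have hL : ∀ j, |eval p' (pderiv j Q) - eval p (pderiv j Q)| ≤
      ((m + 1 : ℕ) : ℝ) * (D * (D * c1 Q) * R ^ D) * e := by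
    intro j
    refine (abs_eval_sub (pderiv j Q) D (tdeg_pderiv' Q D hdeg j) R e hR p p' hp hpp).trans ?_
    apply mul_le_mul_of_nonneg_right _ he
    apply mul_le_mul_of_nonneg_left _ (Nat.cast_nonneg _)
    apply mul_le_mul_of_nonneg_right _ (by positivity)
    exact mul_le_mul_of_nonneg_left (c1_pderiv Q D hdeg j) (Nat.cast_nonneg _)
  obtain ⟨Λ, hΛ⟩ : ∃ Λ, Λ = ((m + 1 : ℕ) : ℝ) * (D * (D * c1 Q) * R ^ D) * e := ⟨_, rfl⟩
  rw [← hΛ] at hL ⊢
  have hG : ∀ j, |eval p' (pderiv j Q)| ≤ D * c1 Q * R ^ D := by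
    intro j
    refine (abs_eval_c1 (pderiv j Q) D (tdeg_pderiv' Q D hdeg j) R hR p' (fun i => ?_)).trans ?_
    · have h3 : |p' i| ≤ |p' i - p i| + |p i| := by
        have := abs_add_le (p' i - p i) (p i)
        rwa [sub_add_cancel] at this
      linarith [hp i, hpp i]
    · exact mul_le_mul_of_nonneg_right (c1_pderiv Q D hdeg j) (by positivity)
  have key : x' iz - x iz = ((eval p' (pderiv 0 Q) + ∑ i : Fin m, x' i * eval p' (pderiv i.succ Q)) -
      (eval p (pderiv 0 Q) + ∑ i : Fin m, x i * eval p (pderiv i.succ Q))) -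
      (eval p' (pderiv 0 Q) - eval p (pderiv 0 Q)) -
      ∑ i ∈ univ.erase iz, (x' i - x i) * eval p' (pderiv i.succ Q) -
      ∑ i : Fin m, x i * (eval p' (pderiv i.succ Q) - eval p (pderiv i.succ Q)) := by
    have e1 : ∑ i : Fin m, (x' i - x i) * eval p' (pderiv i.succ Q) =
        (x' iz - x iz) + ∑ i ∈ univ.erase iz, (x' i - x i) * eval p' (pderiv i.succ Q) := by
      rw [← Finset.add_sum_erase univ _ (Finset.mem_univ iz), hz, map_one, mul_one]
    have e2 : ∑ i : Fin m, x' i * eval p' (pderiv i.succ Q) - ∑ i : Fin m, x i * eval p (pderiv i.succ Q) =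
        ∑ i : Fin m, (x' i - x i) * eval p' (pderiv i.succ Q) +
          ∑ i : Fin m, x i * (eval p' (pderiv i.succ Q) - eval p (pderiv i.succ Q)) := by
      rw [← Finset.sum_sub_distrib, ← Finset.sum_add_distrib]
      apply Finset.sum_congr rfl
      intro i _
      ring
    rw [e1] at e2
    linarith
  have b1 : |∑ i ∈ univ.erase iz, (x' i - x i) * eval p' (pderiv i.succ Q)| ≤ m * (D * c1 Q * R ^ D) * g := by
    refine (Finset.abs_sum_le_sum_abs _ _).trans ?_
    have : ∀ i ∈ univ.erase iz, |(x' i - x i) * eval p' (pderiv i.succ Q)| ≤ g * (D * c1 Q * R ^ D) := by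
      intro i hi
      rw [abs_mul]
      exact mul_le_mul (hg i (Finset.ne_of_mem_erase hi)) (hG _) (abs_nonneg _) hg0
    refine (Finset.sum_le_sum this).trans ?_
    rw [Finset.sum_const, nsmul_eq_mul]
    have h4 : ((univ.erase iz).card : ℝ) ≤ m := by
      have : (univ.erase iz).card ≤ m := by
        refine (Finset.card_erase_le).trans ?_
        rw [Finset.card_univ, Fintype.card_fin]
      exact_mod_cast this
    have h5 : 0 ≤ g * (D * c1 Q * R ^ D) := by positivity
    nlinarith [mul_le_mul_of_nonneg_right h4 h5]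
  have b2 : |∑ i : Fin m, x i * (eval p' (pderiv i.succ Q) - eval p (pderiv i.succ Q))| ≤ m * X * Λ := by
    refine (Finset.abs_sum_le_sum_abs _ _).trans ?_
    have : ∀ i ∈ (univ : Finset (Fin m)), |x i * (eval p' (pderiv i.succ Q) - eval p (pderiv i.succ Q))| ≤ X * Λ := by
      intro i _
      rw [abs_mul]
      exact mul_le_mul (hx i) (hL _) (abs_nonneg _) ((abs_nonneg _).trans (hx i))
    refine (Finset.sum_le_sum this).trans ?_
    rw [Finset.sum_const, Finset.card_univ, Fintype.card_fin, nsmul_eq_mul]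
    exact le_of_eq (by ring)
  have b3 := hL 0
  rw [key]
  rw [abs_le] at h1 h2 b1 b2 b3 ⊢
  constructor <;> nlinarith [h1.1, h1.2, h2.1, h2.2, b1.1, b1.2, b2.1, b2.2, b3.1, b3.2]

/-- the sheet determines its own coordinate -/
theorem cnt_z {N : ℕ} (Q : MvPolynomial (Fin N) ℝ) (D : ℕ) (hdeg : Q.totalDegree ≤ D) (iz : Fin N)
    (hz : pderiv iz Q = 1) (R e : ℝ) (hR : 1 ≤ R) (he : 0 ≤ e) (p p' : Fin N → ℝ) (hp : ∀ i, |p i| + e ≤ R)
    (hpp : ∀ i, i ≠ iz → |p' i - p i| ≤ e) :
    |p' iz - p iz| ≤ |eval p' Q| + |eval p Q| + N * (D * c1 Q * R ^ D) * e := by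
  have h1 := abs_eval_sub Q D hdeg R e hR p (Function.update p' iz (p iz)) hp (by
    intro i
    by_cases hi : i = iz
    · subst hi
      rw [Function.update_self, sub_self, abs_zero]
      exact he
    · rw [Function.update_of_ne hi]
      exact hpp i hi)
  have h2 : eval (Function.update p' iz (p iz)) Q - eval p' Q = p iz - p' iz := by
    have d1 : Polynomial.derivative (lne p' iz Q) = 1 := by
      rw [deriv_lne, hz]
      unfold lne lin
      rw [map_one]
    have d2 := eval_lne p' iz Q (p iz - p' iz)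
    rw [add_sub_cancel] at d2
    have d3 := eval_lne p' iz Q 0
    rw [add_zero, Function.update_eq_self] at d3
    rw [← d2, ← d3]
    obtain ⟨f, hf⟩ : ∃ f, f = lne p' iz Q := ⟨_, rfl⟩
    rw [← hf] at d1 ⊢
    have d4 : Polynomial.derivative (f - Polynomial.X) = 0 := by
      rw [Polynomial.derivative_sub, d1, Polynomial.derivative_X, sub_self]
    have d5 := Polynomial.derivative_eq_zero.mp d4
    obtain ⟨c, hc⟩ := Polynomial.natDegree_eq_zero.mp d5
    have d6 : f = Polynomial.C c + Polynomial.X := by rw [hc]; ring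
    rw [d6]
    simp
  have e1 : p' iz - p iz = eval p' Q - eval p Q - (eval (Function.update p' iz (p iz)) Q - eval p Q) := by linarith
  rw [e1]
  have a1 := abs_sub (eval p' Q - eval p Q) (eval (Function.update p' iz (p iz)) Q - eval p Q)
  have a2 := abs_sub (eval p' Q) (eval p Q)
  linarith

end

end Pool.Agent.Helper51.LP
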