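import Pool.Agent.Helper51.LP.Copy
import Pool.Agent.Helper3.LF.Adm

/-! FLAG SPEED (39c (4.2)): the rate of the leak of the pair of labels at the second point. -/

set_option autoImplicit false

namespace Pool.Agent.Helper51.LP

open Finset Filter Topology Pool.Agent.Helper69.RK Pool.Agent.Helper31.EC Pool.Agent.Helper40.EL
open Pool.Agent.Helper89.LX Pool.Agent.Helper3.LF

noncomputable section

open Sp

variable {S : Sp} {m : ℕ} (s : Sys S m) (c1 : ℝ) (l : Lab S) (K : ∀ k, Setoid (l k).T.Ω)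

/-- the line and the window -/
def wA (k : ℕ) : Setoid (S.F k).Ω :=
  Setoid.ker (s.a.cellv 1 k) ⊓ Setoid.ker (s.x.cellv 1 k) ⊓ Setoid.ker (s.t.cellv c1 k)

theorem wA_eq (k : ℕ) : cA s c1 k = fc (wA s c1 k) := rfl

theorem cB_eq' (k : ℕ) : cB s k = fc (Setoid.ker (s.P.cellv 1 k)) ⊔ fc (Setoid.ker (s.t.cellv 1 k)) := rfl

/-- the two copies -/
def cpD : AmD l.sp l.sp := toAmD (W := l.sp) (S := l.sp) (fun k => cD (l k) (K k) (wA s c1 k)) (fun _ => rfl)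

theorem cpD_F (k : ℕ) : (cpD s c1 l K).sp.F k = (cD (l k) (K k) (wA s c1 k)).sp := rfl

/-- the condition for the count: the first label and the second height -/
def cB1 (k : ℕ) : Setoid ((cpD s c1 l K).sp.F k).Ω :=
  Setoid.comap ((cpD s c1 l K).p1.π k) (l k).V ⊓
    Setoid.comap ((cpD s c1 l K).p2.π k) (Setoid.comap (l k).p.π (Setoid.ker (s.t.cellv 1 k)))

/-- THE LEAK OF THE PAIR at the second point, rate -/
theorem pleak_rate {c0 : ℝ} (hl : DMc s c0 l) (hK : ∀ k, fc (K k) ≤ (fc (l k).V : FL (l k).T)) (h0 : 0 ≤ c1)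
    (h1 : c1 ≤ 1)
    (hKA : Nul S (fun k => I (fc (K k) : FL (l k).T) (l k).p.top ((l k).p.map (cA s c1 k))))
    (Kc : ℕ → ℝ) (hKc : S.Sub Kc)
    (hKt : ∀ᶠ k in UF, ∀ ω ω', (l k).T.μ ω ≠ 0 → (l k).T.μ ω' ≠ 0 → K k ω ω' → (l k).T.Z ω ω' →
      |s.t.v k ((l k).p.π ω) 0 - s.t.v k ((l k).p.π ω') 0| ≤ Kc k * S.dl c1 k)
    (v0 v1 : ℝ) (hfull : v0 ≤ ul (l.sp.rt (fun k => Setoid.comap (l k).p.π (Setoid.ker (s.P.cellv 1 k)))
      (fun k => (l k).V ⊓ Setoid.comap (l k).p.π (Setoid.ker (s.t.cellv 1 k)))))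
    (f : ℕ → ℝ) (hf : Tendsto f UF (𝓝 v1))
    (hcnt : ∀ᶠ k in UF, (cpD s c1 l K).sp.rt (fun k => Setoid.comap ((cpD s c1 l K).p2.π k)
      (Setoid.comap (l k).p.π (Setoid.ker (s.P.cellv 1 k)))) (cB1 s c1 l K) k ≤ f k) (e : ℝ) (he : 0 < e) :
    ∀ᶠ k in UF, pleak (l k) (K k) (wA s c1 k) (cB s k) ≤ (v1 - v0 + e) * (S.F k).n := by
  -- heights over the coarser label
  obtain ⟨g1, t1, b1⟩ := ul_rt_cell_le (S := l.sp) (l.pj.vv s.t) 1 (1 - c1) (by linarith) K (fun _ _ => True)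
    Typ_true Kc ((sp_Sub l).mpr hKc) (by
      filter_upwards [hKt] with k hk ω ω' a a' _ _ g i
      have h2 := hk ω ω' a a' g.1 g.2
      rw [sp_dl, show (1 : ℝ) - (1 - c1) = c1 by ring]
      have : i = 0 := Subsingleton.elim _ _
      subst this
      exact h2)
  rw [Nat.cast_one, one_mul] at t1
  -- the height over the line and the window
  have t2 : Tendsto (fun k => h (fc (Setoid.ker (s.t.cellv 1 k)) : FL (S.F k)) (cA s c1 k) / (S.F k).n) UF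
      (𝓝 (1 - c1)) := by
    have h3 : hr (rpI (s.It 1)) (cA s c1) = 1 - c1 := by
      rw [cA_eq, hr_rpI, cl_A, s.cl_It]
      exact h_T_A s h0 h1
    have h4 := (rpI_Bd (s.It 1)).tendsto (cA s c1)
    rw [h3] at h4
    exact h4
  -- the point over the line and the height
  have t3 : Tendsto (fun k => h (fc (Setoid.ker (s.P.cellv 1 k)) : FL (S.F k))
      (fc (wA s c1 k) ⊔ fc (Setoid.ker (s.t.cellv 1 k))) / (S.F k).n) UF (𝓝 0) := by
    have h3 : hr (rpI (s.IP 1)) (rpI (Inf.sup (Inf.sup (Inf.sup (s.Ia 1) (s.Ix 1)) (s.It c1)) (s.It 1))) = 0 := by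
      rw [hr_rpI, cl_sup, cl_A, s.cl_It, s.cl_IP]
      apply h_zero
      refine (VV.pt_dg_le s.a s.x s.t 1).trans ?_
      apply sup_le
      · exact le_sup_left.trans le_sup_left
      · exact le_sup_right
    have h4 := (rpI_Bd (s.IP 1)).tendsto (rpI (Inf.sup (Inf.sup (Inf.sup (s.Ia 1) (s.Ix 1)) (s.It c1)) (s.It 1)))
    rw [h3] at h4
    exact h4
  have t4 : Tendsto (fun k => (l k).leak (cB s k) / (S.F k).n) UF (𝓝 0) := hl.2
  have t5 : Tendsto (fun k => I (fc (K k) : FL (l k).T) (l k).p.top ((l k).p.map (cA s c1 k)) / (S.F k).n) UF (𝓝 0) :=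
    hKA
  have hUB : UB (l.sp.rt (fun k => Setoid.comap (l k).p.π (Setoid.ker (s.P.cellv 1 k)))
      (fun k => (l k).V ⊓ Setoid.comap (l k).p.π (Setoid.ker (s.t.cellv 1 k)))) :=
    UB_rt (l.pj.mapI (s.IP 1)) _
  have t6 := ul_tendsto hUB
  obtain ⟨w, hw⟩ : ∃ w, w = ul (l.sp.rt (fun k => Setoid.comap (l k).p.π (Setoid.ker (s.P.cellv 1 k)))
      (fun k => (l k).V ⊓ Setoid.comap (l k).p.π (Setoid.ker (s.t.cellv 1 k)))) := ⟨_, rfl⟩
  rw [← hw] at t6 hfull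
  have t7 := ((((((t4.const_mul 2).add t1).sub t2).add t5).add t3).add hf).sub t6
  have hlim : 2 * 0 + (1 - c1) - (1 - c1) + 0 + 0 + v1 - w < v1 - v0 + e := by linarith
  filter_upwards [t7.eventually (gt_mem_nhds hlim), b1, hcnt] with k c2 c3 c4
  have hn := (S.F k).pos
  have d1 := pair_leak (l k) (K k) (wA s c1 k) (hK k) (fc (Setoid.ker (s.P.cellv 1 k)))
    (fc (Setoid.ker (s.t.cellv 1 k)))
  have d2 := t_indep (l k) (K k) (wA s c1 k) (fc (Setoid.ker (s.t.cellv 1 k)))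
  rw [← cB_eq'] at d1
  have f1 : h ((l k).p.map (fc (Setoid.ker (s.t.cellv 1 k)))) (fc (K k)) ≤ g1 k * (S.F k).n := by
    have e1 : (l.sp.F k).e (Setoid.ker ((l.pj.vv s.t).cellv 1 k)) (K k ⊓ (l.sp.F k).Z) =
        h ((l k).p.map (fc (Setoid.ker (s.t.cellv 1 k)))) (fc (K k)) := by
      rw [cellv_pj]
      exact (h_fc _ _).symm
    unfold Sp.rt at c3
    rw [sp_n, div_le_iff₀ hn, e1] at c3
    exact c3
  have f2 : h ((cD (l k) (K k) (wA s c1 k)).p2.map ((l k).p.map (fc (Setoid.ker (s.P.cellv 1 k)))))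
      ((cD (l k) (K k) (wA s c1 k)).p1.map (l k).v ⊔ (cD (l k) (K k) (wA s c1 k)).p2.map
        ((l k).p.map (fc (Setoid.ker (s.t.cellv 1 k))))) ≤ f k * (S.F k).n := by
    have e2 : ((cpD s c1 l K).sp.F k).n = (S.F k).n := (l k).hn
    unfold Sp.rt at c4
    rw [e2, div_le_iff₀ hn] at c4
    refine le_trans (le_of_eq ?_) c4
    exact h_fc _ _
  obtain ⟨G, hG⟩ : ∃ G, G = h ((l k).p.map (fc (Setoid.ker (s.P.cellv 1 k))))
      ((l k).v ⊔ (l k).p.map (fc (Setoid.ker (s.t.cellv 1 k)))) := ⟨_, rfl⟩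
  have f3 : l.sp.rt (fun k => Setoid.comap (l k).p.π (Setoid.ker (s.P.cellv 1 k)))
      (fun k => (l k).V ⊓ Setoid.comap (l k).p.π (Setoid.ker (s.t.cellv 1 k))) k = G / (S.F k).n := by
    rw [hG]
    unfold Sp.rt
    rw [sp_n]
    congr 1
    exact (h_fc _ _).symm
  rw [f3] at c2
  rw [← hG] at d1
  have c5 : (2 * ((l k).leak (cB s k) / (S.F k).n) + g1 k - h (fc (Setoid.ker (s.t.cellv 1 k)) : FL (S.F k)) (cA s c1 k) / (S.F k).n +
      I (fc (K k) : FL (l k).T) (l k).p.top ((l k).p.map (cA s c1 k)) / (S.F k).n +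
      h (fc (Setoid.ker (s.P.cellv 1 k)) : FL (S.F k)) (fc (wA s c1 k) ⊔ fc (Setoid.ker (s.t.cellv 1 k))) / (S.F k).n +
      f k - G / (S.F k).n) * (S.F k).n < (v1 - v0 + e) * (S.F k).n := mul_lt_mul_of_pos_right c2 hn
  have e6 : (2 * ((l k).leak (cB s k) / (S.F k).n) + g1 k - h (fc (Setoid.ker (s.t.cellv 1 k)) : FL (S.F k)) (cA s c1 k) / (S.F k).n +
      I (fc (K k) : FL (l k).T) (l k).p.top ((l k).p.map (cA s c1 k)) / (S.F k).n +
      h (fc (Setoid.ker (s.P.cellv 1 k)) : FL (S.F k)) (fc (wA s c1 k) ⊔ fc (Setoid.ker (s.t.cellv 1 k))) / (S.F k).n +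
      f k - G / (S.F k).n) * (S.F k).n = 2 * (l k).leak (cB s k) + g1 k * (S.F k).n -
      h (fc (Setoid.ker (s.t.cellv 1 k)) : FL (S.F k)) (cA s c1 k) +
      I (fc (K k) : FL (l k).T) (l k).p.top ((l k).p.map (cA s c1 k)) +
      h (fc (Setoid.ker (s.P.cellv 1 k)) : FL (S.F k)) (fc (wA s c1 k) ⊔ fc (Setoid.ker (s.t.cellv 1 k))) +
      f k * (S.F k).n - G := by
    field_simp
  rw [e6, wA_eq] at c5
  linarith

end

end Pool.Agent.Helper51.LP
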