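import Pool.Agent.Helper51.LP.Sep
import Pool.Agent.Helper51.LP.Dat
import Pool.Agent.Helper51.LP.Geo
import Pool.Agent.Helper51.LP.Cnt
import Pool.Agent.Helper31.EC.Real

/-! FLAG SPEED (39c (4.2)): typical facts for the pair of copies of a label with a slab and a sheet. -/

set_option autoImplicit false

namespace Pool.Agent.Helper51.LP

open Finset Filter Topology MvPolynomial Pool.Agent.Helper69.RK Pool.Agent.Helper31.EC Pool.Agent.Helper40.EL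
open Pool.Agent.Helper3.LF Pool.Agent.Helper89.LX Pool.Agent.Helper59.LF

noncomputable section

variable {S : Sp} {m : ℕ} {s : Sys S m} {l : Lab S} {lam : ℝ} {D : ℕ} {iy iR iz : Fin m}

/-- the facts for a pair of points of the label space, `M` a constant -/
structure PF (x : Fg s l lam D iy iR iz) (c0 cn r M : ℝ) (k : ℕ) (ω1 ω2 : (l k).T.Ω) : Prop where
  f1 : |(la s l k ω2 iR + lt s l k ω1 * lx s l k ω2 iR) - (x.b0 k ω1 + x.b1 k ω1 * lt s l k ω1 +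
    x.al k ω1 * (la s l k ω2 iy + lt s l k ω1 * lx s l k ω2 iy))| ≤ M * S.dl (lam - (c0 - cn)) k
  f2 : |(la s l k ω2 iR + lt s l k ω2 * lx s l k ω2 iR) - (x.b0 k ω1 + x.b1 k ω1 * lt s l k ω2 +
    x.al k ω1 * (la s l k ω2 iy + lt s l k ω2 * lx s l k ω2 iy))| ≤ M * S.dl (lam - (c0 - cn)) k
  f3 : |(la s l k ω2 iR + lt s l k ω1 * lx s l k ω2 iR) - (x.b0 k ω2 + x.b1 k ω2 * lt s l k ω1 +
    x.al k ω2 * (la s l k ω2 iy + lt s l k ω1 * lx s l k ω2 iy))| ≤ M * S.dl (lam - (c0 - cn)) k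
  f4 : |(la s l k ω2 iR + lt s l k ω2 * lx s l k ω2 iR) - (x.b0 k ω2 + x.b1 k ω2 * lt s l k ω2 +
    x.al k ω2 * (la s l k ω2 iy + lt s l k ω2 * lx s l k ω2 iy))| ≤ M * S.dl (lam - (c0 - cn)) k
  f5 : |lx s l k ω2 iR - (x.b1 k ω2 + x.al k ω2 * lx s l k ω2 iy)| ≤ M * S.dl (lam - c0) k
  f6 : |eval (ptf s k ((l k).p.π ω2)) (x.Q k ω1)| ≤ M * S.dl (1 - D * (c0 - cn)) k
  f7 : |eval (ptf s k ((l k).p.π ω2)) (pderiv 0 (x.Q k ω2)) +
        ∑ i : Fin m, lx s l k ω2 i * eval (ptf s k ((l k).p.π ω2)) (pderiv i.succ (x.Q k ω2))| ≤ M * S.dl (1 - c0) k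
  f8 : S.dl r k ≤ |lt s l k ω1 - lt s l k ω2|
  f9 : ∀ i, |lx s l k ω2 i| ≤ M
  f10 : ∀ i, |ptf s k ((l k).p.π ω2) i| + 1 ≤ M
  g1 : |x.b0 k ω1| ≤ M ∧ |x.b1 k ω1| ≤ M ∧ |x.al k ω1| ≤ M
  g2 : |x.b0 k ω2| ≤ M ∧ |x.b1 k ω2| ≤ M ∧ |x.al k ω2| ≤ M
  g3 : (x.Q k ω1).totalDegree ≤ D ∧ LP.c1 (x.Q k ω1) ≤ M ∧ pderiv iz.succ (x.Q k ω1) = 1
  g4 : (x.Q k ω2).totalDegree ≤ D ∧ LP.c1 (x.Q k ω2) ≤ M ∧ pderiv iz.succ (x.Q k ω2) = 1

/-- moving the sheet from one line to a line nearby -/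
theorem sheet_move (Q : MvPolynomial (Fin (m + 1)) ℝ) (D : ℕ) (hdeg : Q.totalDegree ≤ D) (a x a' x' : Fin m → ℝ)
    (t T e R C : ℝ) (hT : |t| ≤ T) (h1 : ∀ i, |a' i - a i| ≤ e) (h2 : ∀ i, |x' i - x i| ≤ e) (he : 0 ≤ e) (hR : 1 ≤ R)
    (hC : c1 Q ≤ C) (hp : ∀ i, |pnt a x t i| + (1 + T) * e ≤ R) :
    |eval (pnt a' x' t) Q| ≤ |eval (pnt a x t) Q| + ((m + 1 : ℕ) : ℝ) * (D * C * R ^ D) * ((1 + T) * e) := by
  have hT0 : 0 ≤ T := (abs_nonneg _).trans hT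
  have h3 := abs_eval_sub Q D hdeg R ((1 + T) * e) hR (pnt a x t) (pnt a' x' t) hp (by
    intro i
    refine Fin.cases ?_ (fun j => ?_) i
    · rw [pnt_zero, pnt_zero, sub_self, abs_zero]
      positivity
    · rw [pnt_succ, pnt_succ]
      have g1 : a' j + t * x' j - (a j + t * x j) = (a' j - a j) + t * (x' j - x j) := by ring
      rw [g1]
      refine (abs_add_le _ _).trans ?_
      rw [abs_mul]
      have g2 : |t| * |x' j - x j| ≤ T * e := mul_le_mul hT (h2 j) (abs_nonneg _) hT0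
      have g3 := h1 j
      nlinarith)
  have h4 : ((m + 1 : ℕ) : ℝ) * (D * c1 Q * R ^ D) * ((1 + T) * e) ≤
      ((m + 1 : ℕ) : ℝ) * (D * C * R ^ D) * ((1 + T) * e) := by
    apply mul_le_mul_of_nonneg_right _ (by positivity)
    apply mul_le_mul_of_nonneg_left _ (Nat.cast_nonneg _)
    apply mul_le_mul_of_nonneg_right _ (by positivity)
    exact mul_le_mul_of_nonneg_left hC (Nat.cast_nonneg _)
  have h5 : |eval (pnt a' x' t) Q| ≤ |eval (pnt a' x' t) Q - eval (pnt a x t) Q| + |eval (pnt a x t) Q| := by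
    have := abs_add_le (eval (pnt a' x' t) Q - eval (pnt a x t) Q) (eval (pnt a x t) Q)
    rwa [sub_add_cancel] at this
  linarith

theorem cp_dl (s : Sys S m) (cn : ℝ) (l : Lab S) (K : ∀ k, Setoid (l k).T.Ω) (q : ℝ) (k : ℕ) :
    (cpD s cn l K).sp.dl q k = S.dl q k := by
  unfold Sp.dl
  rw [show ((cpD s cn l K).sp.F k).n = (S.F k).n from (l k).hn]

theorem cp_Sub (s : Sys S m) (cn : ℝ) (l : Lab S) (K : ∀ k, Setoid (l k).T.Ω) {L : ℕ → ℝ} :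
    (cpD s cn l K).sp.Sub L ↔ S.Sub L := by
  unfold Sp.Sub
  have h1 : (fun k => Real.logb 2 (L k + 2) / ((cpD s cn l K).sp.F k).n) =
      fun k => Real.logb 2 (L k + 2) / (S.F k).n := by
    funext k
    rw [show ((cpD s cn l K).sp.F k).n = (S.F k).n from (l k).hn]
  rw [h1]

/-- the facts are typical -/
theorem Fg.pair {c0 cn : ℝ} (x : Fg s l lam D iy iR iz) (h0 : 0 ≤ cn) (hc : cn ≤ c0) (hc0 : c0 < 1)
    (hlam : lam ≤ 1) (hl : DMc s c0 l) (K : ∀ k, Setoid (l k).T.Ω) (r : ℝ) (hrc : cn < r) (hr1 : r ≤ 1)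
    (hKA : Nul S (fun k => I (fc (K k) : FL (l k).T) (l k).p.top ((l k).p.map (cA s cn k)))) :
    ∃ M : ℕ → ℝ, S.Sub M ∧ (∀ᶠ k in UF, 1 ≤ M k) ∧
      Sp.Typ (S := (cpD s cn l K).sp) (fun k (w : ((cpD s cn l K).sp.F k).Ω) => PF x c0 cn r (M k) k w.1 w.2) := by
  obtain ⟨K', hK', hKK', hT⟩ := x.win (h0.trans hc) hc0 hc hlam hl
  obtain ⟨Ka, hKa, ha⟩ := s.a.bd
  obtain ⟨Kx, hKx, hx⟩ := s.x.bd
  obtain ⟨Kt, hKt, ht⟩ := s.t.bd
  set T : ℕ → ℝ := fun k => Kt k with hTd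
  set R : ℕ → ℝ := fun k => 1 + Kt k + Ka k + Kt k * Kx k + (1 + Kt k) with hR
  have h1s : S.Sub (fun _ => (1 : ℝ)) := S.Sub_const zero_le_one
  have hRs : S.Sub R := (((h1s.add hKt).add hKa).add (hKt.mul hKx)).add (h1s.add hKt)
  set M1 : ℕ → ℝ := fun k => (1 + Kt k) * (1 + x.K k) with hM1
  have hM1s : S.Sub M1 := (h1s.add hKt).mul (h1s.add x.hK)
  set M2 : ℕ → ℝ := fun k => ((m + 1 : ℕ) : ℝ) * (D * x.K k * R k ^ D) * (1 + Kt k) with hM2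
  have hM2s : S.Sub M2 := ((S.Sub_const (Nat.cast_nonneg _)).mul (((S.Sub_const (Nat.cast_nonneg _)).mul x.hK).mul
    (Sub_powN hRs D))).mul (h1s.add hKt)
  refine ⟨fun k => K' k + (M1 k + (M2 k + (R k + (1 + Kx k)))), hK'.add (hM1s.add (hM2s.add (hRs.add (h1s.add hKx)))), ?_, ?_⟩
  · filter_upwards [hK'.1, hM1s.1, hM2s.1, hRs.1, hKx.1] with k a b c d e
    linarith
  have hT1 : Sp.Typ (S := (cpD s cn l K).sp) _ := (Pj.typ_iff (cpD s cn l K).p1).mpr hT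
  have hT2 : Sp.Typ (S := (cpD s cn l K).sp) _ := (Pj.typ_iff (cpD s cn l K).p2).mpr hT
  have hT3 := cp_sep s cn l K h0 r hrc hr1 hKA
  refine typ_mono (typ_and hT1 (typ_and hT2 hT3)) ?_
  filter_upwards [x.bdd, ha, hx, ht, hK'.1, hKa.1, hKx.1, hKt.1, x.hK.1, hM1s.1, hM2s.1, hRs.1, hKK'] with
    k b1 b2 b3 b4 b5 b6 b7 b8 b9 b10 b11 b12 b13 w hw ⟨e1, e2, e3⟩
  obtain ⟨u1, u2, u3, u4, u5⟩ := cp_supp s cn l K k w hw
  have v1 := (l k).p.supp _ u1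
  have v2 := (l k).p.supp _ u2
  obtain ⟨q1, q2, q3, q4, q5, q6⟩ := b1 w.1 u1
  obtain ⟨q1', q2', q3', q4', q5', q6'⟩ := b1 w.2 u2
  have hA : ∀ i, |la s l k w.2 i - la s l k w.1 i| ≤ S.dl 1 k := fun i => by
    rw [abs_sub_comm]
    exact s.a.cellv_close 1 k _ _ u5.1.1 i
  have hX : ∀ i, |lx s l k w.2 i - lx s l k w.1 i| ≤ S.dl 1 k := fun i => by
    rw [abs_sub_comm]
    exact s.x.cellv_close 1 k _ _ u5.1.2 i
  have htt : |lt s l k w.1 - lt s l k w.2| ≤ S.dl cn k := s.t.cellv_close cn k _ _ u5.2 0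
  have hd1 := S.dl_pos 1 k
  have hd1' : S.dl 1 k ≤ 1 := dl_one_le S k
  have hT1' : |lt s l k w.1| ≤ Kt k := b4 _ v1 0
  have hT2' : |lt s l k w.2| ≤ Kt k := b4 _ v2 0
  have hlow : ∀ q : ℝ, q ≤ 1 → S.dl 1 k ≤ S.dl q k := fun q hq => S.dl_anti hq k
  have hδ : 0 ≤ c0 - cn := by linarith
  have hDδ : (0 : ℝ) ≤ D * (c0 - cn) := by positivity
  have up : ∀ (y z : ℝ) (r : ℝ), y ≤ z → y * S.dl r k ≤ z * S.dl r k := fun y z r h =>
    mul_le_mul_of_nonneg_right h (S.dl_pos r k).le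
  -- slab of the first point on the second line
  have mv : ∀ (t : ℝ), |t| ≤ Kt k → |t - lt s l k w.1| ≤ S.dl cn k →
      |(la s l k w.2 iR + t * lx s l k w.2 iR) - (x.b0 k w.1 + x.b1 k w.1 * t +
        x.al k w.1 * (la s l k w.2 iy + t * lx s l k w.2 iy))| ≤
        (K' k + M1 k) * S.dl (lam - (c0 - cn)) k := by
    intro t h1 h2
    have g1 := e1.1 t h2
    have g2 := slab_move (la s l k w.1 iR) (lx s l k w.1 iR) (la s l k w.1 iy) (lx s l k w.1 iy)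
      (la s l k w.2 iR) (lx s l k w.2 iR) (la s l k w.2 iy) (lx s l k w.2 iy) (x.b0 k w.1) (x.b1 k w.1) (x.al k w.1)
      t (S.dl 1 k) (Kt k) (x.K k) h1 q3 (hA iR) (hX iR) (hA iy) (hX iy)
    have g3 : M1 k * S.dl 1 k ≤ M1 k * S.dl (lam - (c0 - cn)) k :=
      mul_le_mul_of_nonneg_left (hlow _ (by linarith)) b10
    have g4 : (1 + Kt k) * (1 + x.K k) * S.dl 1 k = M1 k * S.dl 1 k := rfl
    rw [g4] at g2
    refine g2.trans ((add_le_add g1 g3).trans (le_of_eq ?_))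
    ring
  have hC1 : K' k + M1 k ≤ K' k + (M1 k + (M2 k + (R k + (1 + Kx k)))) := by linarith
  have hC2 : K' k ≤ K' k + (M1 k + (M2 k + (R k + (1 + Kx k)))) := by linarith
  have hC3 : x.K k ≤ K' k + (M1 k + (M2 k + (R k + (1 + Kx k)))) := by linarith
  have hptb : ∀ (w' : (l k).T.Ω), (l k).T.μ w' ≠ 0 → ∀ i, |ptf s k ((l k).p.π w') i| + (1 + Kt k) ≤ R k := by
    intro w' hw' i
    have v := (l k).p.supp _ hw'
    have g0 : 0 ≤ Kt k * Kx k := mul_nonneg b8 b7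
    refine Fin.cases ?_ (fun j => ?_) i
    · have := b4 _ v 0
      show |s.t.v k ((l k).p.π w') 0| + (1 + Kt k) ≤ R k
      simp only [hR]
      linarith
    · show |s.a.v k ((l k).p.π w') j + s.t.v k ((l k).p.π w') 0 * s.x.v k ((l k).p.π w') j| + (1 + Kt k) ≤ R k
      have g1 := abs_add_le (s.a.v k ((l k).p.π w') j) (s.t.v k ((l k).p.π w') 0 * s.x.v k ((l k).p.π w') j)
      rw [abs_mul] at g1
      have g2 : |s.t.v k ((l k).p.π w') 0| * |s.x.v k ((l k).p.π w') j| ≤ Kt k * Kx k :=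
        mul_le_mul (b4 _ v 0) (b3 _ v j) (abs_nonneg _) b8
      have g3 := b2 _ v j
      simp only [hR]
      linarith
  have htt2 : |lt s l k w.2 - lt s l k w.1| ≤ S.dl cn k := by rw [abs_sub_comm]; exact htt
  refine ⟨?_, ?_, ?_, ?_, ?_, ?_, ?_, ?_, ?_, ?_, ?_, ?_, ?_, ?_⟩
  · refine (mv _ hT1' ?_).trans (up _ _ _ hC1)
    rw [sub_self, abs_zero]
    exact (S.dl_pos cn k).le
  · exact (mv _ hT2' htt2).trans (up _ _ _ hC1)
  · exact (e2.1 _ htt).trans (up _ _ _ hC2)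
  · refine (e2.1 _ ?_).trans (up _ _ _ hC2)
    show |lt s l k w.2 - lt s l k w.2| ≤ S.dl cn k
    rw [sub_self, abs_zero]
    exact (S.dl_pos cn k).le
  · exact e2.2.1.trans (up _ _ _ hC2)
  · have g1 := e1.2.2.1 _ htt2
    have hpt1 : ∀ i, |pnt (la s l k w.1) (lx s l k w.1) (lt s l k w.2) i| + (1 + Kt k) * S.dl 1 k ≤ R k := by
      intro i
      have g0 : 0 ≤ Kt k * Kx k := mul_nonneg b8 b7
      have g00 : (1 + Kt k) * S.dl 1 k ≤ 1 + Kt k := by nlinarith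
      refine Fin.cases ?_ (fun j => ?_) i
      · rw [pnt_zero]
        simp only [hR]
        linarith
      · rw [pnt_succ]
        have g1 := abs_add_le (la s l k w.1 j) (lt s l k w.2 * lx s l k w.1 j)
        rw [abs_mul] at g1
        have g2 : |lt s l k w.2| * |lx s l k w.1 j| ≤ Kt k * Kx k :=
          mul_le_mul hT2' (b3 _ v1 j) (abs_nonneg _) b8
        have g3 : |la s l k w.1 j| ≤ Ka k := b2 _ v1 j
        simp only [hR]
        linarith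
    have hR1 : 1 ≤ R k := by
      have g0 : 0 ≤ Kt k * Kx k := mul_nonneg b8 b7
      simp only [hR]
      linarith
    have g2 := sheet_move (x.Q k w.1) D q4 (la s l k w.1) (lx s l k w.1) (la s l k w.2) (lx s l k w.2) (lt s l k w.2)
      (Kt k) (S.dl 1 k) (R k) (x.K k) hT2' hA hX hd1.le hR1 q5 hpt1
    have g3 : ((m + 1 : ℕ) : ℝ) * (D * x.K k * R k ^ D) * ((1 + Kt k) * S.dl 1 k) = M2 k * S.dl 1 k := by
      simp only [hM2]; ring
    have g4 : M2 k * S.dl 1 k ≤ M2 k * S.dl (1 - D * (c0 - cn)) k :=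
      mul_le_mul_of_nonneg_left (hlow _ (by linarith)) b11
    rw [g3] at g2
    have g5 : |eval (ptf s k ((l k).p.π w.2)) (x.Q k w.1)| ≤ (K' k + M2 k) * S.dl (1 - D * (c0 - cn)) k := by
      refine g2.trans ((add_le_add g1 g4).trans (le_of_eq ?_))
      ring
    exact g5.trans (up _ _ _ (by linarith))
  · exact e2.2.2.2.trans (up _ _ _ hC2)
  · exact e3
  · intro i
    have : |lx s l k w.2 i| ≤ Kx k := b3 _ v2 i
    show |lx s l k w.2 i| ≤ K' k + (M1 k + (M2 k + (R k + (1 + Kx k))))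
    linarith
  · intro i
    have := hptb w.2 u2 i
    show |ptf s k ((l k).p.π w.2) i| + 1 ≤ K' k + (M1 k + (M2 k + (R k + (1 + Kx k))))
    linarith
  · exact ⟨q1.trans hC3, q2.trans hC3, q3.trans hC3⟩
  · exact ⟨q1'.trans hC3, q2'.trans hC3, q3'.trans hC3⟩
  · exact ⟨q4, q5.trans hC3, q6⟩
  · exact ⟨q4', q5'.trans hC3, q6'⟩

end

end Pool.Agent.Helper51.LP
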