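import Pool.Agent.Helper59.LF.Speed

/-! FLAG SPEED (39c (4.2)): polynomials in several variables with bounded coefficients: values, gradients. -/

set_option autoImplicit false

namespace Pool.Agent.Helper51.LP

open Finset MvPolynomial Pool.Agent.Helper59.LF Pool.Agent.Helper3.LF

noncomputable section

variable {N : ℕ}

/-- sum of the absolute values of the coefficients -/
def c1 (q : MvPolynomial (Fin N) ℝ) : ℝ := ∑ s ∈ q.support, |q.coeff s|

theorem c1_nonneg (q : MvPolynomial (Fin N) ℝ) : 0 ≤ c1 q := Finset.sum_nonneg fun _ _ => abs_nonneg _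

theorem c1_eq (q : MvPolynomial (Fin N) ℝ) (T : Finset (Fin N →₀ ℕ)) (h : q.support ⊆ T) :
    c1 q = ∑ s ∈ T, |q.coeff s| := by
  unfold c1
  apply Finset.sum_subset h
  intro s _ hs
  rw [notMem_support_iff.mp hs, abs_zero]

theorem c1_add (p q : MvPolynomial (Fin N) ℝ) : c1 (p + q) ≤ c1 p + c1 q := by
  classical
  rw [c1_eq (p + q) (p.support ∪ q.support) support_add, c1_eq p (p.support ∪ q.support) Finset.subset_union_left,
    c1_eq q (p.support ∪ q.support) Finset.subset_union_right, ← Finset.sum_add_distrib]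
  apply Finset.sum_le_sum
  intro s _
  rw [coeff_add]
  exact abs_add_le _ _

theorem c1_zero : c1 (0 : MvPolynomial (Fin N) ℝ) = 0 := by
  unfold c1
  rw [support_zero, Finset.sum_empty]

theorem c1_sum {ι : Type*} (T : Finset ι) (f : ι → MvPolynomial (Fin N) ℝ) : c1 (∑ i ∈ T, f i) ≤ ∑ i ∈ T, c1 (f i) := by
  classical
  induction T using Finset.induction_on with
  | empty => rw [Finset.sum_empty, Finset.sum_empty, c1_zero]
  | insert a s ha ih =>
    rw [Finset.sum_insert ha, Finset.sum_insert ha]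
    exact (c1_add _ _).trans (by linarith)

theorem c1_monomial (s : Fin N →₀ ℕ) (c : ℝ) : c1 (monomial s c) = |c| := by
  classical
  rw [c1_eq (monomial s c) {s} support_monomial_subset, Finset.sum_singleton, coeff_monomial, if_pos rfl]

theorem c1_C (c : ℝ) : c1 (C c : MvPolynomial (Fin N) ℝ) = |c| := c1_monomial 0 c

theorem c1_X (i : Fin N) : c1 (X i : MvPolynomial (Fin N) ℝ) = 1 := by
  have : (X i : MvPolynomial (Fin N) ℝ) = monomial (Finsupp.single i 1) 1 := rfl
  rw [this, c1_monomial, abs_one]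

theorem c1_C_mul (c : ℝ) (q : MvPolynomial (Fin N) ℝ) : c1 (C c * q) ≤ |c| * c1 q := by
  have h1 : (C c * q).support ⊆ q.support := by
    intro s hs
    rw [mem_support_iff, coeff_C_mul] at hs
    rw [mem_support_iff]
    intro h
    rw [h, mul_zero] at hs
    exact hs rfl
  rw [c1_eq _ _ h1]
  unfold c1
  rw [Finset.mul_sum]
  apply Finset.sum_le_sum
  intro s _
  rw [coeff_C_mul, abs_mul]

theorem c1_neg (q : MvPolynomial (Fin N) ℝ) : c1 (-q) ≤ c1 q := by
  have h := c1_C_mul (-1) q
  rw [abs_neg, abs_one, one_mul] at h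
  have e : (C (-1) * q : MvPolynomial (Fin N) ℝ) = -q := by
    rw [map_neg, map_one]; ring
  rwa [e] at h

theorem abs_eval_c1 (q : MvPolynomial (Fin N) ℝ) (D : ℕ) (h : q.totalDegree ≤ D) (R : ℝ) (hR : 1 ≤ R)
    (p : Fin N → ℝ) (hp : ∀ i, |p i| ≤ R) : |eval p q| ≤ c1 q * R ^ D := by
  rw [eval_eq', c1, Finset.sum_mul]
  refine (Finset.abs_sum_le_sum_abs _ _).trans (Finset.sum_le_sum fun s hs => ?_)
  rw [abs_mul, Finset.abs_prod]
  apply mul_le_mul_of_nonneg_left _ (abs_nonneg _)
  have h1 : ∏ i, |p i ^ s i| ≤ ∏ i, R ^ s i := by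
    apply Finset.prod_le_prod (fun _ _ => abs_nonneg _)
    intro i _
    rw [abs_pow]
    exact pow_le_pow_left₀ (abs_nonneg _) (hp i) _
  refine h1.trans ?_
  rw [Finset.prod_pow_eq_pow_sum]
  apply pow_le_pow_right₀ hR
  have h2 := (le_totalDegree hs).trans h
  rw [Finsupp.sum_fintype _ _ (fun _ => rfl)] at h2
  exact h2

theorem c1_pderiv (q : MvPolynomial (Fin N) ℝ) (D : ℕ) (h : q.totalDegree ≤ D) (i : Fin N) :
    c1 (pderiv i q) ≤ D * c1 q := by
  classical
  have e1 : pderiv i q = ∑ s ∈ q.support, monomial (s - Finsupp.single i 1) (q.coeff s * s i) := by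
    conv_lhs => rw [q.as_sum, map_sum]
    apply Finset.sum_congr rfl
    intro s _
    rw [pderiv_monomial]
  rw [e1]
  refine (c1_sum _ _).trans ?_
  unfold c1
  rw [Finset.mul_sum]
  apply Finset.sum_le_sum
  intro s hs
  have h0 := c1_monomial (s - Finsupp.single i 1) (q.coeff s * s i)
  unfold c1 at h0
  rw [h0, abs_mul, mul_comm]
  apply mul_le_mul_of_nonneg_right _ (abs_nonneg _)
  rw [Nat.abs_cast]
  have h2 := (le_totalDegree hs).trans h
  rw [Finsupp.sum_fintype _ _ (fun _ => rfl)] at h2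
  have h3 : s i ≤ ∑ j, s j := Finset.single_le_sum (f := fun j => s j) (fun _ _ => Nat.zero_le _) (Finset.mem_univ i)
  exact_mod_cast h3.trans h2

theorem tdeg_pderiv' (q : MvPolynomial (Fin N) ℝ) (D : ℕ) (h : q.totalDegree ≤ D) (i : Fin N) :
    (pderiv i q).totalDegree ≤ D := (tdeg_pderiv i q D (h.trans (Nat.le_succ D)))

/-- Lipschitz bound in a box -/
theorem abs_eval_sub (q : MvPolynomial (Fin N) ℝ) (D : ℕ) (h : q.totalDegree ≤ D) (R e : ℝ) (hR : 1 ≤ R)
    (p p' : Fin N → ℝ) (hp : ∀ i, |p i| + e ≤ R) (hpp : ∀ i, |p' i - p i| ≤ e) :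
    |eval p' q - eval p q| ≤ N * (D * c1 q * R ^ D) * e := by
  rcases Nat.eq_zero_or_pos N with hN | hN
  · subst hN
    have : p' = p := funext fun i => i.elim0
    rw [this, sub_self, abs_zero]
    simp
  have he : 0 ≤ e := (abs_nonneg _).trans (hpp ⟨0, hN⟩)
  have hc := c1_nonneg q
  have h1 := mvb q p p' e (e * (D * c1 q * R ^ D)) (by positivity) hpp (by
    intro i y hy
    apply mul_le_mul_of_nonneg_left _ he
    have h2 := abs_eval_c1 (pderiv i q) D (tdeg_pderiv' q D h i) R hR y (fun j => by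
      have h3 := hy j
      have h4 : |y j| ≤ |y j - p j| + |p j| := by
        have := abs_add_le (y j - p j) (p j)
        rwa [sub_add_cancel] at this
      linarith [hp j])
    refine h2.trans ?_
    exact mul_le_mul_of_nonneg_right (c1_pderiv q D h i) (by positivity))
  refine h1.trans (le_of_eq ?_)
  ring

/-- derivative along the line -/
theorem deriv_alg {m : ℕ} (a x : Fin m → ℝ) (q : MvPolynomial (Fin (m + 1)) ℝ) (t : ℝ) :
    (Polynomial.derivative (alg a x q)).eval t =
      eval (pnt a x t) (pderiv 0 q) + ∑ i : Fin m, x i * eval (pnt a x t) (pderiv i.succ q) := by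
  unfold alg
  rw [deriv_lin, Polynomial.eval_finsetSum, Fin.sum_univ_succ]
  congr 1
  · rw [Polynomial.eval_mul, Polynomial.eval_C, eval_lin, pnt_eq, Fin.cons_zero, one_mul]
  · apply Finset.sum_congr rfl
    intro i _
    rw [Polynomial.eval_mul, Polynomial.eval_C, eval_lin, pnt_eq, Fin.cons_succ]

theorem natDegree_alg {m : ℕ} (a x : Fin m → ℝ) (q : MvPolynomial (Fin (m + 1)) ℝ) (D : ℕ) (h : q.totalDegree ≤ D) :
    (alg a x q).natDegree ≤ D := (natDegree_lin _ _ q).trans h

end

end Pool.Agent.Helper51.LP
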