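import Pool.Agent.Helper51.LP.Win
import Pool.Agent.Helper51.LP.Poly
import Pool.Agent.Helper3.LF.Adm

/-! FLAG SPEED (39c (4.2)): polynomial relations of labels hold on the whole window of the label, and give relations
for the direction. -/

set_option autoImplicit false

namespace Pool.Agent.Helper51.LP

open Finset Filter Topology MvPolynomial Pool.Agent.Helper69.RK Pool.Agent.Helper31.EC Pool.Agent.Helper40.EL
open Pool.Agent.Helper3.LF Pool.Agent.Helper89.LX Pool.Agent.Helper59.LF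

noncomputable section

variable {S : Sp} {m : ℕ}

theorem two_pow_dl (S : Sp) (b σ : ℝ) (k : ℕ) : (2 : ℝ) ^ (b * (S.F k).n) * S.dl σ k = S.dl (σ - b) k := by
  unfold Sp.dl
  rw [← Real.rpow_add (by norm_num : (0 : ℝ) < 2)]
  congr 1; ring

/-- relations on the window -/
theorem rel_win (a x : S.VV m) (t : S.VV 1) (c : ℝ) (h0 : 0 ≤ c) (hc1 : c < 1) (B : ∀ k, Setoid (S.F k).Ω) (D : ℕ)
    (Q : ∀ k, (S.F k).Ω → MvPolynomial (Fin (m + 1)) ℝ) (σ : ℝ) (hσ : σ ≤ 1) (K : ℕ → ℝ) (hK : S.Sub K)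
    (hent : 1 - c ≤ ul (S.rt (fun k => Setoid.ker (t.cellv 1 k)) B))
    (hB : ∀ᶠ k in UF, ∀ ω ω', (S.F k).μ ω ≠ 0 → (S.F k).μ ω' ≠ 0 → B k ω' ω → (S.F k).Z ω' ω →
      Q k ω' = Q k ω ∧ (∀ i, |a.v k ω' i - a.v k ω i| ≤ K k * S.dl 1 k) ∧
      (∀ i, |x.v k ω' i - x.v k ω i| ≤ K k * S.dl 1 k) ∧ |t.v k ω' 0 - t.v k ω 0| ≤ K k * S.dl c k)
    (hdeg : ∀ᶠ k in UF, ∀ ω, (S.F k).μ ω ≠ 0 → (Q k ω).totalDegree ≤ D ∧ c1 (Q k ω) ≤ K k)
    (hQ : Sp.Typ (fun k ω => |eval (pnt (a.v k ω) (x.v k ω) (t.v k ω 0)) (Q k ω)| ≤ K k * S.dl σ k))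
    (b : ℝ) (hb : 0 ≤ b) (L : ℕ → ℝ) (hL : S.Sub L) :
    ∃ K' : ℕ → ℝ, S.Sub K' ∧ Sp.Typ (fun k ω => ∀ s, |s - t.v k ω 0| ≤ L k * S.dl (c - b) k →
      |eval (pnt (a.v k ω) (x.v k ω) s) (Q k ω)| ≤ K' k * S.dl (σ - D * b) k) := by
  classical
  obtain ⟨Ka, hKa, ha⟩ := a.bd
  obtain ⟨Kx, hKx, hx⟩ := x.bd
  obtain ⟨Kt, hKt, ht⟩ := t.bd
  -- the radius of heights
  set R1 : ℕ → ℝ := fun k => Kt k + 2 * (K k + 1) with hR1
  have hR1s : S.Sub R1 := hKt.add ((S.Sub_const (show (0 : ℝ) ≤ 2 by norm_num)).mul (hK.add (S.Sub_const zero_le_one)))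
  set e1 : ℕ → ℝ := fun k => K k * (1 + R1 k) with he1
  have he1s : S.Sub e1 := hK.mul ((S.Sub_const zero_le_one).add hR1s)
  set R : ℕ → ℝ := fun k => 1 + R1 k + Ka k + R1 k * Kx k + e1 k with hR
  have hRs : S.Sub R := ((((S.Sub_const zero_le_one).add hR1s).add hKa).add (hR1s.mul hKx)).add he1s
  set K2 : ℕ → ℝ := fun k => ((m + 1 : ℕ) : ℝ) * (D * K k * R k ^ D) * e1 k with hK2
  have hK2s : S.Sub K2 := ((S.Sub_const (Nat.cast_nonneg _)).mul (((S.Sub_const (Nat.cast_nonneg _)).mul hK).mul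
    (Sub_powN hRs D))).mul he1s
  obtain ⟨K', hK', hT⟩ := rem_add t c hc1 B D (fun k ω => alg (a.v k ω) (x.v k ω) (Q k ω)) (fun k => S.dl σ k)
    (Eventually.of_forall fun k => S.dl_pos σ k) K K2 hK hK2s hent
    (by
      filter_upwards [hdeg] with k h1 ω hω
      exact natDegree_alg _ _ _ D (h1 ω hω).1)
    (by
      filter_upwards [hB] with k h1 ω ω' a1 a2 a3 a4
      exact (h1 ω ω' a1 a2 a3 a4).2.2.2)
    (by
      filter_upwards [hB, hdeg, ha, hx, ht, hK.1, hKa.1, hKx.1, hKt.1] with k h1 h2 h3 h4 h5 h6 h7 h8 h9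
        ω ω' a1 a2 a3 a4 s hs
      obtain ⟨b1, b2, b3, b4⟩ := h1 ω ω' a1 a2 a3 a4
      obtain ⟨d1, d2⟩ := h2 ω a1
      have hd := S.dl_pos 1 k
      have hd1 : S.dl 1 k ≤ 1 := by
        have := S.dl_anti zero_le_one k
        rwa [S.dl_zero] at this
      have hdc : S.dl c k ≤ 1 := by
        have := S.dl_anti h0 k
        rwa [S.dl_zero] at this
      have hdc0 := S.dl_pos c k
      have hsR : |s| ≤ R1 k := by
        have e1 := h5 ω a1 0
        have e2 : 2 * ((K k + 1) * S.dl c k) ≤ 2 * (K k + 1) := by nlinarith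
        have e3 : |s| ≤ |s - t.v k ω 0| + |t.v k ω 0| := by
          have := abs_add_le (s - t.v k ω 0) (t.v k ω 0)
          rwa [sub_add_cancel] at this
        simp only [hR1]
        linarith
      have hR10 : 0 ≤ R1 k := (abs_nonneg s).trans hsR
      have he10 : 0 ≤ e1 k := mul_nonneg h6 (by linarith)
      have he1d : e1 k * S.dl 1 k ≤ e1 k := by nlinarith
      rw [b1, eval_alg, eval_alg]
      have hpp : ∀ i, |pnt (a.v k ω') (x.v k ω') s i - pnt (a.v k ω) (x.v k ω) s i| ≤ e1 k * S.dl 1 k := by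
        intro i
        refine Fin.cases ?_ (fun j => ?_) i
        · rw [pnt_zero, pnt_zero, sub_self, abs_zero]
          positivity
        · rw [pnt_succ, pnt_succ]
          have g1 : a.v k ω' j + s * x.v k ω' j - (a.v k ω j + s * x.v k ω j) =
              (a.v k ω' j - a.v k ω j) + s * (x.v k ω' j - x.v k ω j) := by ring
          rw [g1]
          refine (abs_add_le _ _).trans ?_
          rw [abs_mul]
          have g2 : |s| * |x.v k ω' j - x.v k ω j| ≤ R1 k * (K k * S.dl 1 k) :=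
            mul_le_mul hsR (b3 j) (abs_nonneg _) hR10
          have g3 := b2 j
          simp only [he1]
          nlinarith
      have hpR : ∀ i, |pnt (a.v k ω) (x.v k ω) s i| + e1 k * S.dl 1 k ≤ R k := by
        intro i
        have g0 : 0 ≤ R1 k * Kx k := mul_nonneg hR10 h8
        refine Fin.cases ?_ (fun j => ?_) i
        · rw [pnt_zero]
          simp only [hR]
          linarith
        · rw [pnt_succ]
          have g1 := abs_add_le (a.v k ω j) (s * x.v k ω j)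
          rw [abs_mul] at g1
          have g2 : |s| * |x.v k ω j| ≤ R1 k * Kx k := mul_le_mul hsR (h4 ω a1 j) (abs_nonneg _) hR10
          have g3 := h3 ω a1 j
          simp only [hR]
          linarith
      have hR11 : 1 ≤ R k := by
        have g0 : 0 ≤ R1 k * Kx k := mul_nonneg hR10 h8
        simp only [hR]
        linarith
      have g5 := abs_eval_sub (Q k ω) D d1 (R k) (e1 k * S.dl 1 k) hR11 (pnt (a.v k ω) (x.v k ω) s)
        (pnt (a.v k ω') (x.v k ω') s) hpR hpp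
      refine g5.trans ?_
      have g6 : ((m + 1 : ℕ) : ℝ) * (D * c1 (Q k ω) * R k ^ D) ≤ ((m + 1 : ℕ) : ℝ) * (D * K k * R k ^ D) := by
        apply mul_le_mul_of_nonneg_left _ (Nat.cast_nonneg _)
        apply mul_le_mul_of_nonneg_right _ (by positivity)
        exact mul_le_mul_of_nonneg_left d2 (Nat.cast_nonneg _)
      have g7 : S.dl 1 k ≤ S.dl σ k := S.dl_anti hσ k
      calc ((m + 1 : ℕ) : ℝ) * (D * c1 (Q k ω) * R k ^ D) * (e1 k * S.dl 1 k)
          ≤ ((m + 1 : ℕ) : ℝ) * (D * K k * R k ^ D) * (e1 k * S.dl σ k) :=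
            mul_le_mul g6 (mul_le_mul_of_nonneg_left g7 he10) (by positivity) (by positivity)
        _ = K2 k * S.dl σ k := by simp only [hK2]; ring)
    b hb L hL
  refine ⟨fun k => K' k * (K k + 1), hK'.mul (hK.add (S.Sub_const zero_le_one)), ?_⟩
  refine typ_mono (typ_and hT hQ) ?_
  filter_upwards [hK'.1] with k h1 ω hω ⟨h2, h3⟩ s hs
  have h4 := h2 s hs
  rw [eval_alg, eval_alg] at h4
  refine h4.trans ?_
  rw [← two_pow_dl]
  have h5 : |eval (pnt (a.v k ω) (x.v k ω) (t.v k ω 0)) (Q k ω)| + S.dl σ k ≤ (K k + 1) * S.dl σ k := by linarith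
  calc K' k * 2 ^ (D * b * (S.F k).n) * (|eval (pnt (a.v k ω) (x.v k ω) (t.v k ω 0)) (Q k ω)| + S.dl σ k)
      ≤ K' k * 2 ^ (D * b * (S.F k).n) * ((K k + 1) * S.dl σ k) :=
        mul_le_mul_of_nonneg_left h5 (by positivity)
    _ = _ := by ring

/-- relations for the direction -/
theorem rel_der (a x : S.VV m) (t : S.VV 1) (c : ℝ) (D : ℕ)
    (Q : ∀ k, (S.F k).Ω → MvPolynomial (Fin (m + 1)) ℝ) (σ : ℝ) (K : ℕ → ℝ) (hK : S.Sub K)
    (hdeg : ∀ᶠ k in UF, ∀ ω, (S.F k).μ ω ≠ 0 → (Q k ω).totalDegree ≤ D)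
    (hQ : Sp.Typ (fun k ω => ∀ s, |s - t.v k ω 0| ≤ S.dl c k →
      |eval (pnt (a.v k ω) (x.v k ω) s) (Q k ω)| ≤ K k * S.dl σ k)) :
    ∃ K' : ℕ → ℝ, S.Sub K' ∧ Sp.Typ (fun k ω => ∀ s, |s - t.v k ω 0| ≤ S.dl c k →
      |eval (pnt (a.v k ω) (x.v k ω) s) (pderiv 0 (Q k ω)) +
        ∑ i : Fin m, x.v k ω i * eval (pnt (a.v k ω) (x.v k ω) s) (pderiv i.succ (Q k ω))| ≤
          K' k * S.dl (σ - c) k) := by
  refine ⟨fun k => Cu D * K k, (S.Sub_const (le_trans zero_le_one (Cu_one D))).mul hK, ?_⟩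
  refine typ_mono hQ ?_
  filter_upwards [hdeg] with k h1 ω hω h2 s hs
  rw [← deriv_alg]
  have hd := S.dl_pos c k
  have h3 := uni_affine D (alg (a.v k ω) (x.v k ω) (Q k ω)) (natDegree_alg _ _ _ D (h1 ω hω)) 1 (t.v k ω 0)
    (S.dl c k) 1 s (K k * S.dl σ k) hd le_rfl (by rw [one_mul]; exact hs) (by
      intro j hj
      rw [eval_alg]
      apply h2
      have e1 : t.v k ω 0 + S.dl c k * nod D j - t.v k ω 0 = S.dl c k * nod D j := by ring
      rw [e1, abs_of_nonneg (mul_nonneg hd.le (nod_nonneg D j))]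
      have := nod_le D j hj
      nlinarith)
  rw [pow_one, one_pow, mul_one, Function.iterate_one] at h3
  have e2 : S.dl σ k = S.dl c k * S.dl (σ - c) k := by
    rw [← S.dl_add]; congr 1; ring
  rw [e2] at h3
  have h4 : S.dl c k * |(Polynomial.derivative (alg (a.v k ω) (x.v k ω) (Q k ω))).eval s| ≤
      S.dl c k * (Cu D * K k * S.dl (σ - c) k) := by
    refine h3.trans (le_of_eq ?_)
    ring
  exact le_of_mul_le_mul_left h4 hd

end

end Pool.Agent.Helper51.LP
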