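import Pool.Agent.Helper51.LP.Lk

/-! FLAG SPEED (39c (4.2)): the heights of the two copies are separated. -/

set_option autoImplicit false

namespace Pool.Agent.Helper51.LP

open Finset Filter Topology Pool.Agent.Helper69.RK Pool.Agent.Helper31.EC Pool.Agent.Helper40.EL
open Pool.Agent.Helper89.LX Pool.Agent.Helper3.LF

noncomputable section

open Sp

/-- SEPARATION: `y` is close to `z` up to level `c` and has full entropy between the levels `c` and `r` given `z` -/
theorem sep {S : Sp} (y z : S.VV 1) (c r : ℝ) (hcr : c < r) (B : ∀ k, Setoid (S.F k).Ω) (K : ℕ → ℝ) (hK : S.Sub K)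
    (h1 : ∀ᶠ k in UF, ∀ ω, (S.F k).μ ω ≠ 0 → |y.v k ω 0 - z.v k ω 0| ≤ K k * S.dl c k)
    (h2 : ∀ᶠ k in UF, ∀ ω ω', (S.F k).μ ω ≠ 0 → (S.F k).μ ω' ≠ 0 → (B k ⊓ (S.F k).Z) ω ω' →
      |z.v k ω 0 - z.v k ω' 0| ≤ K k * S.dl r k)
    (h3 : r - c ≤ ul (S.rt (fun k => Setoid.ker (y.cellv r k)) B)) :
    Typ (fun k ω => S.dl r k ≤ |y.v k ω 0 - z.v k ω 0|) := by
  set E : ∀ k, (S.F k).Ω → Prop := fun k ω => S.dl r k ≤ |y.v k ω 0 - z.v k ω 0| with hE
  have hUB : UB (S.rt (fun k => Setoid.ker (y.cellv r k)) B) := UB_rt (y.bdd r).toInf B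
  have hrc : 0 < r - c := by linarith
  have hK5 : S.Sub (fun k => 5 * (K k + 2)) := (S.Sub_const (show (0 : ℝ) ≤ 5 by norm_num)).mul
    (hK.add (S.Sub_const (show (0 : ℝ) ≤ 2 by norm_num)))
  -- the finite estimate
  have key : ∀ᶠ k in UF, S.rt (fun k => Setoid.ker (y.cellv r k)) B k ≤
      2 * (Real.logb 2 (5 * (K k + 2) + 2) / (S.F k).n) + 1 / (S.F k).n + (r - c) * S.pr E k := by
    filter_upwards [h1, h2, hK.1] with k a1 a2 a3
    have hn := (S.F k).pos
    have hd := S.dl_pos r k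
    have hdc := S.dl_pos c k
    have hlt : S.dl r k ≤ S.dl c k := S.dl_anti hcr.le k
    have e0 : S.dl c k = 2 ^ ((r - c) * (S.F k).n) * S.dl r k := by
      rw [show S.dl c k = S.dl (r - (r - c)) k by congr 1; ring]
      unfold Sp.dl
      rw [← Real.rpow_add (by norm_num : (0 : ℝ) < 2)]
      congr 1; ring
    obtain ⟨P2, hP2⟩ : ∃ P2 : ℝ, P2 = 2 ^ ((r - c) * (S.F k).n) := ⟨_, rfl⟩
    rw [← hP2] at e0
    have hP1 : 1 ≤ P2 := by
      rw [hP2]
      exact Real.one_le_rpow (by norm_num) (by positivity)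
    have b1 := (S.F k).e_int_le_event (y.cellv r k) (B k ⊓ (S.F k).Z) (E k) (K k + 2 + 1) (3 * K k * P2 + 1)
      (by linarith) (by positivity)
      (fun ω ω' a b c' d e i => by
        have i0 : i = 0 := Subsingleton.elim _ _
        subst i0
        have f1 : |y.v k ω 0 - z.v k ω 0| < S.dl r k := not_le.mp c'
        have f2 : |y.v k ω' 0 - z.v k ω' 0| < S.dl r k := not_le.mp d
        have f3 := a2 ω ω' a b e
        apply floor_diff hd
        rw [abs_lt] at f1 f2
        rw [abs_le] at f3 ⊢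
        constructor <;> nlinarith [f1.1, f1.2, f2.1, f2.2, f3.1, f3.2])
      (fun ω ω' a b _ _ e i => by
        have i0 : i = 0 := Subsingleton.elim _ _
        subst i0
        have f1 := a1 ω a
        have f2 := a1 ω' b
        have f3 := a2 ω ω' a b e
        apply floor_diff hd
        have f4 : K k * S.dl r k ≤ K k * S.dl c k := mul_le_mul_of_nonneg_left hlt a3
        have f5 : 3 * K k * P2 * S.dl r k = 3 * (K k * S.dl c k) := by rw [e0]; ring
        rw [f5]
        rw [abs_le] at f1 f2 f3 ⊢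
        constructor <;> linarith [f1.1, f1.2, f2.1, f2.2, f3.1, f3.2])
    rw [Nat.cast_one, one_mul, one_mul] at b1
    have b2 : Real.logb 2 (K k + 2 + 1 + 1) ≤ Real.logb 2 (5 * (K k + 2) + 2) :=
      Real.logb_le_logb_of_le (by norm_num) (by linarith) (by linarith)
    have b3 : Real.logb 2 (3 * K k * P2 + 1 + 1) ≤ Real.logb 2 (5 * (K k + 2) + 2) + (r - c) * (S.F k).n := by
      calc Real.logb 2 (3 * K k * P2 + 1 + 1) ≤ Real.logb 2 ((5 * (K k + 2) + 2) * P2) :=
            Real.logb_le_logb_of_le (by norm_num) (by positivity) (by nlinarith)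
        _ = _ := by
            rw [Real.logb_mul (by positivity) (by positivity), hP2, Real.logb_rpow (by norm_num) (by norm_num)]
    have b4 : 0 ≤ mass (res (S.F k).μ (E k)) := mass_res_nonneg k _
    have b5 : mass (res (S.F k).μ (E k)) ≤ 1 := mass_res_le_one k _
    have b6 : S.pr E k = mass (res (S.F k).μ (E k)) := rfl
    have b7 : 0 ≤ Real.logb 2 (5 * (K k + 2) + 2) := Real.logb_nonneg (by norm_num) (by linarith)
    unfold Sp.rt
    rw [div_le_iff₀ hn, b6]
    have b8 : Real.logb 2 (3 * K k * P2 + 1 + 1) * mass (res (S.F k).μ (E k)) ≤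
        Real.logb 2 (5 * (K k + 2) + 2) + (r - c) * (S.F k).n * mass (res (S.F k).μ (E k)) := by
      have := mul_le_mul_of_nonneg_right b3 b4
      have b9 : Real.logb 2 (5 * (K k + 2) + 2) * mass (res (S.F k).μ (E k)) ≤ Real.logb 2 (5 * (K k + 2) + 2) * 1 :=
        mul_le_mul_of_nonneg_left b5 b7
      nlinarith
    have b10 : (2 * (Real.logb 2 (5 * (K k + 2) + 2) / (S.F k).n) + 1 / (S.F k).n +
        (r - c) * mass (res (S.F k).μ (E k))) * (S.F k).n = 2 * Real.logb 2 (5 * (K k + 2) + 2) + 1 +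
        (r - c) * (S.F k).n * mass (res (S.F k).μ (E k)) := by
      field_simp
    rw [b10]
    linarith
  have t1 : Tendsto (fun k => 2 * (Real.logb 2 (5 * (K k + 2) + 2) / (S.F k).n) + 1 / (S.F k).n +
      (r - c) * S.pr E k) UF (𝓝 (2 * 0 + 0 + (r - c) * ul (S.pr E))) :=
    ((hK5.2.const_mul 2).add (S.div_n_tendsto 1)).add ((ul_tendsto (UB_pr E)).const_mul (r - c))
  have h4 : ul (S.rt (fun k => Setoid.ker (y.cellv r k)) B) ≤ 2 * 0 + 0 + (r - c) * ul (S.pr E) :=
    le_of_tendsto_of_tendsto (ul_tendsto hUB) t1 key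
  have h5 : 1 ≤ ul (S.pr E) := by
    have : (r - c) * 1 ≤ (r - c) * ul (S.pr E) := by linarith
    exact le_of_mul_le_mul_left this hrc
  have h6 : ul (S.pr E) = 1 := le_antisymm (ul_pr_le_one E) h5
  rw [Typ_iff]
  have h7 := ul_tendsto (UB_pr E)
  rw [h6] at h7
  exact h7

/-- entropies of one copy given the other -/
theorem h_copy_ge {F : FSp} (l : FLab F) (K : Setoid l.T.Ω) (A : Setoid F.Ω) (t t2 : FL F) :
    h t (fc A) - I (fc K : FL l.T) l.p.top (l.p.map (fc A)) ≤
      h ((cD l K A).p1.map (l.p.map t)) ((cD l K A).p2.map (l.p.map t2)) := by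
  have h1 := (cD l K A).indep (l.p.map t) (l.p.map t2)
  rw [cD_ker, I_comm, I_eq'] at h1
  have h2 : h ((cD l K A).p1.map (l.p.map t)) ((cD l K A).p2.map (l.p.map t2) ⊔ (cD l K A).p1.map (fc (cY l K A))) ≤
      h ((cD l K A).p1.map (l.p.map t)) ((cD l K A).p2.map (l.p.map t2)) := h_anti le_sup_left
  have h3 : h ((cD l K A).p1.map (l.p.map t)) ((cD l K A).p1.map (fc (cY l K A))) =
      h (l.p.map t) (fc K ⊔ l.p.map (fc A)) := (cD l K A).p1.h_map _ _
  have h4 : I (fc K : FL l.T) (l.p.map t) (l.p.map (fc A)) = h (l.p.map t) (l.p.map (fc A)) -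
      h (l.p.map t) (fc K ⊔ l.p.map (fc A)) := I_eq' _ _ _
  have h5 : I (fc K : FL l.T) (l.p.map t) (l.p.map (fc A)) ≤ I (fc K : FL l.T) l.p.top (l.p.map (fc A)) :=
    I_mono_right ((l.p.map_le_top t).trans le_sup_left)
  have h6 := l.p.h_map t (fc A)
  linarith

variable {S : Sp} {m : ℕ} (s : Sys S m) (cn : ℝ) (l : Lab S) (K : ∀ k, Setoid (l k).T.Ω)

/-- the two copies are over the same line, window and coarser label -/
theorem cp_supp (k : ℕ) (w : ((cpD s cn l K).sp.F k).Ω) (h : ((cpD s cn l K).sp.F k).μ w ≠ 0) :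
    (l k).T.μ w.1 ≠ 0 ∧ (l k).T.μ w.2 ≠ 0 ∧ K k w.1 w.2 ∧ (l k).T.Z w.1 w.2 ∧
      wA s cn k ((l k).p.π w.1) ((l k).p.π w.2) := by
  have h1 := (cD (l k) (K k) (wA s cn k)).supp w h
  have h2 : (Quotient.mk (cY (l k) (K k) (wA s cn k) ⊓ (l k).T.Z) w.1) =
      Quotient.mk (cY (l k) (K k) (wA s cn k) ⊓ (l k).T.Z) w.2 := h1.1
  have h3 := Quotient.exact h2
  exact ⟨h1.2.1, h1.2.2, h3.1.1, h3.2, h3.1.2⟩

/-- the heights of the two copies are separated -/
theorem cp_sep (h0 : 0 ≤ cn) (r : ℝ) (hrc : cn < r) (hr1 : r ≤ 1)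
    (hKA : Nul S (fun k => I (fc (K k) : FL (l k).T) (l k).p.top ((l k).p.map (cA s cn k)))) :
    Typ (S := (cpD s cn l K).sp) (fun k (w : ((cpD s cn l K).sp.F k).Ω) =>
      S.dl r k ≤ |s.t.v k ((l k).p.π w.1) 0 - s.t.v k ((l k).p.π w.2) 0|) := by
  have hdl : ∀ (q : ℝ) (k : ℕ), (cpD s cn l K).sp.dl q k = S.dl q k := by
    intro q k
    unfold Sp.dl
    rw [show ((cpD s cn l K).sp.F k).n = (S.F k).n from (l k).hn]
  have h1 := sep (S := (cpD s cn l K).sp) ((cpD s cn l K).p1.vv (l.pj.vv s.t)) ((cpD s cn l K).p2.vv (l.pj.vv s.t)) cn r hrc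
    (fun k => Setoid.comap ((cpD s cn l K).p2.π k) (Setoid.comap (l k).p.π (Setoid.ker (s.t.cellv 1 k)))) (fun _ => 1)
    (Sub_const _ zero_le_one)
    (Eventually.of_forall fun k w hw => by
      have h2 := (cp_supp s cn l K k w hw).2.2.2.2.2
      rw [one_mul, hdl]
      exact s.t.cellv_close cn k _ _ h2 0)
    (Eventually.of_forall fun k w w' _ _ e => by
      rw [one_mul, hdl]
      exact (s.t.cellv_close 1 k _ _ e.1 0).trans (S.dl_anti hr1 k))
    (by
      -- the entropy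
      have hUB : UB ((cpD s cn l K).sp.rt (fun k => Setoid.ker (((cpD s cn l K).p1.vv (l.pj.vv s.t)).cellv r k))
        (fun k => Setoid.comap ((cpD s cn l K).p2.π k) (Setoid.comap (l k).p.π (Setoid.ker (s.t.cellv 1 k))))) :=
        UB_rt (((cpD s cn l K).p1.vv (l.pj.vv s.t)).bdd r).toInf _
      have e1 : r - cn ≤ h (s.t.dg r) (lA s cn) := by
        have a1 := h_T_A s h0 (hrc.le.trans hr1)
        have a2 := h_triangle s.T (s.t.dg r) (lA s cn)
        have a3 : h s.T (s.t.dg r ⊔ lA s cn) ≤ h s.T (s.t.dg r) := h_anti le_sup_left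
        have a4 := s.t.h_dg_dg hr1
        rw [Nat.cast_one, one_mul] at a4
        have a5 : h s.T (s.t.dg r) = h (s.t.dg 1) (s.t.dg r) := rfl
        linarith
      have e2 : hr (rpI (s.It r)) (cA s cn) = h (s.t.dg r) (lA s cn) := by
        rw [cA_eq, hr_rpI, cl_A, s.cl_It]
      have e3 := (rpI_Bd (s.It r)).tendsto (cA s cn)
      rw [e2] at e3
      have e4 : Tendsto (fun k => h (fc (Setoid.ker (s.t.cellv r k)) : FL (S.F k)) (cA s cn k) / (S.F k).n -
          I (fc (K k) : FL (l k).T) (l k).p.top ((l k).p.map (cA s cn k)) / (S.F k).n) UF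
          (𝓝 (h (s.t.dg r) (lA s cn) - 0)) := e3.sub hKA
      rw [sub_zero] at e4
      refine e1.trans (le_of_tendsto_of_tendsto e4 (ul_tendsto hUB) (Eventually.of_forall fun k => ?_))
      have hn := (S.F k).pos
      have e5 := h_copy_ge (l k) (K k) (wA s cn k) (fc (Setoid.ker (s.t.cellv r k))) (fc (Setoid.ker (s.t.cellv 1 k)))
      unfold Sp.rt
      beta_reduce
      rw [show ((cpD s cn l K).sp.F k).n = (S.F k).n from (l k).hn, ← sub_div]
      apply div_le_div_of_nonneg_right _ hn.le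
      refine e5.trans (le_of_eq ?_)
      have e6 : ((cpD s cn l K).p1.vv (l.pj.vv s.t)).cellv r k = fun w => s.t.cellv r k ((l k).p.π w.1) := by
        funext w
        unfold VV.cellv
        rw [hdl]
        rfl
      rw [e6]
      exact h_fc _ _)
  refine typ_mono h1 (Eventually.of_forall fun k w _ h2 => ?_)
  rw [hdl] at h2
  exact h2

end

end Pool.Agent.Helper51.LP
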