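import Pool.Agent.Helper3.LF.Win

/-! FLAG SPEED (39c (4.2)): Remez inequality for polynomials along lines which are known up to an additive error. -/

set_option autoImplicit false

namespace Pool.Agent.Helper51.LP

open Finset Filter Topology Pool.Agent.Helper69.RK Pool.Agent.Helper31.EC Pool.Agent.Helper40.EL
open Pool.Agent.Helper3.LF Pool.Agent.Helper89.LX

noncomputable section

variable {S : Sp}

/-- REMEZ with an additive error `ρ` -/
theorem rem_add (t : S.VV 1) (c : ℝ) (hc1 : c < 1) (B : ∀ k, Setoid (S.F k).Ω) (D : ℕ)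
    (q : ∀ k, (S.F k).Ω → Polynomial ℝ) (ρ : ℕ → ℝ) (hρ : ∀ᶠ k in UF, 0 < ρ k) (K M : ℕ → ℝ) (hK : S.Sub K)
    (hM : S.Sub M) (hent : 1 - c ≤ ul (S.rt (fun k => Setoid.ker (t.cellv 1 k)) B))
    (hdeg : ∀ᶠ k in UF, ∀ ω, (S.F k).μ ω ≠ 0 → (q k ω).natDegree ≤ D)
    (hwin : ∀ᶠ k in UF, ∀ ω ω', (S.F k).μ ω ≠ 0 → (S.F k).μ ω' ≠ 0 → B k ω' ω → (S.F k).Z ω' ω →
      |t.v k ω' 0 - t.v k ω 0| ≤ K k * S.dl c k)
    (hcomp : ∀ᶠ k in UF, ∀ ω ω', (S.F k).μ ω ≠ 0 → (S.F k).μ ω' ≠ 0 → B k ω' ω → (S.F k).Z ω' ω →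
      ∀ s, |s - t.v k ω 0| ≤ 2 * ((K k + 1) * S.dl c k) →
        |(q k ω').eval s - (q k ω).eval s| ≤ M k * ρ k)
    (b : ℝ) (hb : 0 ≤ b) (L : ℕ → ℝ) (hL : S.Sub L) :
    ∃ K' : ℕ → ℝ, S.Sub K' ∧ Sp.Typ (fun k ω => ∀ s, |s - t.v k ω 0| ≤ L k * S.dl (c - b) k →
      |(q k ω).eval s| ≤ K' k * 2 ^ (D * b * (S.F k).n) * (|(q k ω).eval (t.v k ω 0)| + ρ k)) := by
  classical
  set e : ℕ → ℝ := fun k => max (1 - c - S.rt (fun k => Setoid.ker (t.cellv 1 k)) B k) 0 with he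
  have hUB : UB (S.rt (fun k => Setoid.ker (t.cellv 1 k)) B) := Sp.UB_rt (t.bdd 1).toInf B
  have he0 : Tendsto e UF (𝓝 0) := by
    have h1 : Tendsto (fun k => max (1 - c - S.rt (fun k => Setoid.ker (t.cellv 1 k)) B k) 0) UF
        (𝓝 (max (1 - c - ul (S.rt (fun k => Setoid.ker (t.cellv 1 k)) B)) 0)) :=
      (tendsto_const_nhds.sub (ul_tendsto hUB)).max tendsto_const_nhds
    rw [max_eq_right (by linarith)] at h1
    exact h1
  set g : ∀ k, (S.F k).Ω → Polynomial ℝ := fun k ω => q k ω ^ 2 + Polynomial.C (ρ k ^ 2) with hg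
  have hge : ∀ k ω s, (g k ω).eval s = (q k ω).eval s ^ 2 + ρ k ^ 2 := by
    intro k ω s
    simp only [hg]
    rw [Polynomial.eval_add, Polynomial.eval_pow, Polynomial.eval_C]
  have hga : ∀ k ω s, |(g k ω).eval s| = (q k ω).eval s ^ 2 + ρ k ^ 2 := by
    intro k ω s
    rw [hge, abs_of_nonneg (by positivity)]
  have hκ : S.Sub (fun k => 2 * (M k * M k) + 3) :=
    ((S.Sub_const (show (0 : ℝ) ≤ 2 by norm_num)).mul (hM.mul hM)).add (S.Sub_const (show (0 : ℝ) ≤ 3 by norm_num))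
  obtain ⟨K', hK', hT⟩ := remez_EC_grow t c 1 hc1 B (2 * D) g K (fun k => 2 * (M k * M k) + 3) hK hκ e he0
    (Eventually.of_forall fun k => by
      have := le_max_left (1 - c - S.rt (fun k => Setoid.ker (t.cellv 1 k)) B k) 0
      simp only [he]
      linarith)
    (by
      filter_upwards [hdeg] with k h1 ω hω
      have h2 := h1 ω hω
      simp only [hg]
      refine (Polynomial.natDegree_add_le _ _).trans (max_le ?_ ?_)
      · refine (Polynomial.natDegree_pow_le).trans ?_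
        exact Nat.mul_le_mul_left 2 h2
      · rw [Polynomial.natDegree_C]
        exact Nat.zero_le _)
    hwin
    (by
      filter_upwards [hcomp, hM.1] with k h1 h2 ω ω' a1 a2 a3 a4 s hs
      have h3 := h1 ω ω' a1 a2 a3 a4 s hs
      rw [hga, hga]
      obtain ⟨d, hd⟩ : ∃ d, d = (q k ω').eval s - (q k ω).eval s := ⟨_, rfl⟩
      rw [← hd] at h3
      have e1 : (q k ω').eval s = (q k ω).eval s + d := by rw [hd]; ring
      rw [e1]
      have e2 : d ^ 2 ≤ (M k * ρ k) ^ 2 := by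
        rw [← sq_abs d]
        exact pow_le_pow_left₀ (abs_nonneg _) h3 2
      have e3 : 0 ≤ (M k * M k) * (q k ω).eval s ^ 2 := by positivity
      nlinarith [sq_nonneg ((q k ω).eval s - d), sq_nonneg ((q k ω).eval s), sq_nonneg (ρ k)])
    b hb L hL
  refine ⟨fun k => K' k + 1, hK'.add (S.Sub_const zero_le_one), ?_⟩
  refine squeeze_zero' (Eventually.of_forall fun k => Sp.mass_res_nonneg k _) ?_ hT
  filter_upwards [hK'.1, hρ] with k h1 h2
  apply mass_res_mono _ _ _ (S.F k).nn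
  intro ω hω hE hcon
  apply hE
  intro s hs
  have c1 := hcon s hs
  rw [hga, hga] at c1
  obtain ⟨P, hP⟩ : ∃ P : ℝ, P = 2 ^ (D * b * (S.F k).n) := ⟨_, rfl⟩
  have hP0 : 0 < P := by rw [hP]; positivity
  have hP2 : (2 : ℝ) ^ (((2 * D : ℕ) : ℝ) * b * (S.F k).n) = P ^ 2 := by
    rw [hP, ← Real.rpow_natCast, ← Real.rpow_mul (by norm_num)]
    congr 1
    push_cast
    ring
  rw [hP2] at c1
  rw [← hP]
  set u := (q k ω).eval s
  set v := (q k ω).eval (t.v k ω 0)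
  have hv : v ^ 2 = |v| ^ 2 := (sq_abs v).symm
  have hav := abs_nonneg v
  apply abs_le_of_sq_le_sq _ (by positivity)
  have e1 : v ^ 2 + ρ k ^ 2 ≤ (|v| + ρ k) ^ 2 := by nlinarith
  have e2 : u ^ 2 ≤ K' k * P ^ 2 * (|v| + ρ k) ^ 2 := by
    have : K' k * P ^ 2 * (v ^ 2 + ρ k ^ 2) ≤ K' k * P ^ 2 * (|v| + ρ k) ^ 2 :=
      mul_le_mul_of_nonneg_left e1 (by positivity)
    nlinarith [sq_nonneg (ρ k)]
  have e3 : ((K' k + 1) * P * (|v| + ρ k)) ^ 2 = (K' k + 1) ^ 2 * (P ^ 2 * (|v| + ρ k) ^ 2) := by ring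
  rw [e3]
  have e4 : 0 ≤ P ^ 2 * (|v| + ρ k) ^ 2 := by positivity
  have e5 : K' k ≤ (K' k + 1) ^ 2 := by nlinarith
  nlinarith [mul_le_mul_of_nonneg_right e5 e4]

end

end Pool.Agent.Helper51.LP
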